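import Mathlib
import Pool.Agent.Y730.RD.Det
import Pool.Agent.Y730.RD.Ht

/-!
# A lower bound for the determinant of the larger ones of two proportional families
-/

set_option autoImplicit false

open NumberField Module Height

namespace Pool.Agent.Y730.RF

open Pool.Agent.Y730.RD

variable {L : Type*} [Field L] [NumberField L]

lemma prod_norm_eq (v : 𝓞 L) : ∏ σ : L →+* ℂ, ‖σ v‖ = ((Ideal.span {v}).absNorm : ℝ) := by
  rw [← norm_prod, Ideal.absNorm_span_singleton]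
  have h1 := Algebra.norm_eq_prod_embeddings ℚ ℂ (v : L)
  have h2 : ∏ σ : L →+* ℂ, σ v = ∏ σ : L →ₐ[ℚ] ℂ, σ v :=
    Fintype.prod_equiv (RingHom.equivRatAlgHom L ℂ) _ _ (fun σ => rfl)
  rw [h2, ← h1, ← Algebra.coe_norm_int]
  simp [Nat.cast_natAbs]

/-- If `ε_i` and `ε_i r` are integral and the `ε_i` are independent, the determinant of the
conjugates of the larger ones of `ε_i`, `ε_i r` is at least `|disc|^(1/2) H(r)`. -/
theorem lower_height {ι : Type*} [Fintype ι] [DecidableEq ι] (e : ι ≃ (L →+* ℂ))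
    (ε : ι → 𝓞 L) (hli : LinearIndependent ℤ ε) (r : L)
    (hr : ∀ i, ∃ t : 𝓞 L, (t : L) = (ε i : L) * r) :
    |(discr L : ℝ)| * mulHeight₁ r ^ 2 ≤
      (∏ σ : L →+* ℂ, max 1 ‖σ r‖) ^ 2 * ‖(conjMat e ε).det‖ ^ 2 := by
  obtain ⟨u, v, hv, huv⟩ := IsFractionRing.div_surjective (A := 𝓞 L) r
  have hv0 : v ≠ 0 := nonZeroDivisors.ne_zero hv
  have hvL : (v : L) ≠ 0 := by exact_mod_cast hv0
  have huv' : (u : L) / (v : L) = r := huv
  set q : Ideal (𝓞 L) := Ideal.span (Set.range ε) with hq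
  have h1 := det_lower e q ε (fun i => Ideal.subset_span ⟨i, rfl⟩) hli
  have h2 : q * Ideal.span {u, v} ≤ Ideal.span {v} := by
    rw [hq, Ideal.span_mul_span', Ideal.span_le]
    rintro _ ⟨x, ⟨i, rfl⟩, y, hy, rfl⟩
    obtain ⟨t, ht⟩ := hr i
    simp only [Set.mem_insert_iff, Set.mem_singleton_iff] at hy
    rw [SetLike.mem_coe, Ideal.mem_span_singleton]
    rcases hy with rfl | rfl
    · refine ⟨t, RingOfIntegers.coe_injective ?_⟩
      simp only [map_mul]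
      have h3 : (ε i : L) * (y : L) = (v : L) * (t : L) := by
        rw [ht, ← huv']
        field_simp
      exact h3
    · exact ⟨ε i, mul_comm _ _⟩
  have h3 : ((Ideal.span {v}).absNorm : ℝ) ≤ (q.absNorm : ℝ) * ((Ideal.span {u, v}).absNorm : ℝ) := by
    have h4 := Ideal.absNorm_dvd_absNorm_of_le h2
    rw [map_mul] at h4
    have h5 : q.absNorm * (Ideal.span {u, v}).absNorm ≠ 0 := by
      rw [← map_mul, Ne, Ideal.absNorm_eq_zero_iff]
      intro h
      rcases Ideal.mul_eq_bot.1 h with h6 | h6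
      · have h7 : Nonempty ι := by
          obtain ⟨σ⟩ : Nonempty (L →+* ℂ) := inferInstance
          exact ⟨e.symm σ⟩
        obtain ⟨i⟩ := h7
        have h8 : ε i ∈ q := Ideal.subset_span ⟨i, rfl⟩
        rw [h6, Ideal.mem_bot] at h8
        exact hli.ne_zero i h8
      · have h8 : v ∈ Ideal.span {u, v} := Ideal.subset_span (by simp)
        rw [h6, Ideal.mem_bot] at h8
        exact hv0 h8
    have h6 := Nat.le_of_dvd (Nat.pos_of_ne_zero h5) h4
    exact_mod_cast h6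
  have h4 := prod_max_eq u v hv0
  rw [huv'] at h4
  have h5 : ∏ σ : L →+* ℂ, max ‖σ u‖ ‖σ v‖ =
      (∏ σ : L →+* ℂ, max 1 ‖σ r‖) * ((Ideal.span {v}).absNorm : ℝ) := by
    rw [← prod_norm_eq v, ← Finset.prod_mul_distrib]
    refine Finset.prod_congr rfl fun σ _ => ?_
    have h6 : 0 < ‖σ v‖ := norm_pos_iff.2 ((map_ne_zero σ).2 hvL)
    have h7 : ‖σ r‖ * ‖σ v‖ = ‖σ u‖ := by
      rw [← norm_mul, ← map_mul, ← huv', div_mul_cancel₀ _ hvL]
    rw [max_mul_of_nonneg _ _ h6.le, one_mul, h7, max_comm]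
  have hJ : (0 : ℝ) < ((Ideal.span {u, v} : Ideal (𝓞 L)).absNorm : ℝ) := by
    have : (Ideal.span {u, v} : Ideal (𝓞 L)).absNorm ≠ 0 := by
      rw [Ne, Ideal.absNorm_eq_zero_iff]
      intro h
      have h8 : v ∈ Ideal.span {u, v} := Ideal.subset_span (by simp)
      rw [h, Ideal.mem_bot] at h8
      exact hv0 h8
    exact_mod_cast Nat.pos_of_ne_zero this
  have hM : 0 ≤ ∏ σ : L →+* ℂ, max 1 ‖σ r‖ :=
    Finset.prod_nonneg fun σ _ => le_max_of_le_left zero_le_one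
  -- `H(r) ≤ (∏ max) N(q)`
  have h6 : mulHeight₁ r ≤ (∏ σ : L →+* ℂ, max 1 ‖σ r‖) * (q.absNorm : ℝ) := by
    refine le_of_mul_le_mul_left ?_ hJ
    rw [← h4, h5]
    calc (∏ σ : L →+* ℂ, max 1 ‖σ r‖) * ((Ideal.span {v}).absNorm : ℝ)
        ≤ (∏ σ : L →+* ℂ, max 1 ‖σ r‖) *
          ((q.absNorm : ℝ) * ((Ideal.span {u, v}).absNorm : ℝ)) :=
          mul_le_mul_of_nonneg_left h3 hM
      _ = _ := by ring
  have hH : 0 ≤ mulHeight₁ r := (zero_lt_one.trans_le (one_le_mulHeight₁ r)).le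
  calc |(discr L : ℝ)| * mulHeight₁ r ^ 2
      ≤ |(discr L : ℝ)| * ((∏ σ : L →+* ℂ, max 1 ‖σ r‖) * (q.absNorm : ℝ)) ^ 2 :=
        mul_le_mul_of_nonneg_left (pow_le_pow_left₀ hH h6 2) (abs_nonneg _)
    _ = (∏ σ : L →+* ℂ, max 1 ‖σ r‖) ^ 2 * ((q.absNorm : ℝ) ^ 2 * |(discr L : ℝ)|) := by ring
    _ ≤ _ := mul_le_mul_of_nonneg_left h1 (by positivity)

end Pool.Agent.Y730.RF
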