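import Mathlib

/-!
# Representation of elements by quotients of polynomials, and bootstrapping of the degree
-/

set_option autoImplicit false

open Polynomial

namespace Pool.Agent.Y730.RF

variable {F R : Type*} [Field F] [CommRing R] [IsDomain R] [Algebra F R]

/-- `y P₀(θ) = x P₁(θ)` for a relatively prime pair of nonzero polynomials of degree `< T` -/
def Rep (θ : R) (T : ℕ) (x y : R) (P₀ P₁ : F[X]) : Prop :=
  P₀ ≠ 0 ∧ P₁ ≠ 0 ∧ IsRelPrime P₀ P₁ ∧ P₀.natDegree < T ∧ P₁.natDegree < T ∧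
    aeval θ P₀ * y = aeval θ P₁ * x

theorem rep_of_dependent {n T : ℕ} (θ : R)
    (hgen : ∀ f : F[X], f.natDegree < n → aeval θ f = 0 → f = 0) (hTn : T ≤ n)
    (x y : R) (hx : x ≠ 0) (hy : y ≠ 0)
    (hdep : ¬ LinearIndependent F (Sum.elim (fun b : Fin T => θ ^ (b : ℕ) * x)
      (fun b : Fin T => θ ^ (b : ℕ) * y))) :
    ∃ P₀ P₁ : F[X], Rep θ T x y P₀ P₁ := by
  classical
  rw [Fintype.not_linearIndependent_iff] at hdep
  obtain ⟨g, hg, i, hi⟩ := hdep
  have hTpos : 0 < T := by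
    rcases i with b | b <;> exact (Nat.zero_le _).trans_lt b.2
  rw [Fintype.sum_sum_type] at hg
  simp only [Sum.elim_inl, Sum.elim_inr] at hg
  set A₁ : F[X] := -∑ b : Fin T, C (g (Sum.inl b)) * X ^ (b : ℕ) with hA₁
  set A₀ : F[X] := ∑ b : Fin T, C (g (Sum.inr b)) * X ^ (b : ℕ) with hA₀
  have hdegsum : ∀ c : Fin T → F, (∑ b : Fin T, C (c b) * X ^ (b : ℕ) : F[X]).natDegree < T := by
    intro c
    have h1 : (∑ b : Fin T, C (c b) * X ^ (b : ℕ) : F[X]).natDegree ≤ T - 1 := by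
      apply natDegree_sum_le_of_forall_le
      intro b _
      refine (natDegree_C_mul_X_pow_le _ _).trans ?_
      have := b.2
      omega
    omega
  have hcoeff : ∀ (c : Fin T → F) (b : Fin T),
      (∑ b : Fin T, C (c b) * X ^ (b : ℕ) : F[X]).coeff b = c b := by
    intro c b
    rw [finset_sum_coeff, Finset.sum_eq_single b]
    · rw [coeff_C_mul, coeff_X_pow, if_pos rfl, mul_one]
    · intro b' _ hb'
      rw [coeff_C_mul, coeff_X_pow, if_neg (fun h => hb' (Fin.ext h.symm)), mul_zero]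
    · intro h; exact absurd (Finset.mem_univ _) h
  have hd1 : A₁.natDegree < T := by rw [hA₁, natDegree_neg]; exact hdegsum _
  have hd0 : A₀.natDegree < T := hdegsum _
  have haev : ∀ c : Fin T → F, aeval θ (∑ b : Fin T, C (c b) * X ^ (b : ℕ) : F[X]) =
      ∑ b : Fin T, c b • θ ^ (b : ℕ) := by
    intro c
    rw [map_sum]
    refine Finset.sum_congr rfl fun b _ => ?_
    rw [map_mul, aeval_C, map_pow, aeval_X, Algebra.smul_def]
  have hrelA : aeval θ A₀ * y = aeval θ A₁ * x := by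
    rw [hA₁, hA₀, map_neg, haev, haev, neg_mul, Finset.sum_mul, Finset.sum_mul]
    have h1 : ∑ b : Fin T, g (Sum.inl b) • (θ ^ (b : ℕ) * x) =
        ∑ b : Fin T, g (Sum.inl b) • θ ^ (b : ℕ) * x :=
      Finset.sum_congr rfl fun b _ => by rw [smul_mul_assoc]
    have h2 : ∑ b : Fin T, g (Sum.inr b) • (θ ^ (b : ℕ) * y) =
        ∑ b : Fin T, g (Sum.inr b) • θ ^ (b : ℕ) * y :=
      Finset.sum_congr rfl fun b _ => by rw [smul_mul_assoc]
    rw [h1, h2] at hg
    linear_combination hg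
  have hne : A₁ ≠ 0 ∨ A₀ ≠ 0 := by
    rcases i with b | b
    · left
      intro h
      apply hi
      have h1 := congrArg (fun f => coeff f b) h
      simp only [hA₁, coeff_neg, hcoeff, coeff_zero] at h1
      simpa using h1
    · right
      intro h
      apply hi
      have h1 := congrArg (fun f => coeff f b) h
      simp only [hA₀, hcoeff, coeff_zero] at h1
      exact h1
  have hA₁0 : A₁ ≠ 0 := by
    intro h
    rw [h, map_zero, zero_mul] at hrelA
    have h1 := hgen A₀ (by omega) ((mul_eq_zero.1 hrelA).resolve_right hy)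
    rcases hne with h2 | h2
    · exact h2 h
    · exact h2 h1
  have hA₀0 : A₀ ≠ 0 := by
    intro h
    rw [h, map_zero, zero_mul] at hrelA
    exact hA₁0 (hgen A₁ (by omega) ((mul_eq_zero.1 hrelA.symm).resolve_right hx))
  obtain ⟨P₁, P₀, c, hrel, h1, h0⟩ := UniqueFactorizationMonoid.exists_reduced_factors A₁ hA₁0 A₀
  have hc : c ≠ 0 := by
    rintro rfl
    rw [zero_mul] at h1
    exact hA₁0 h1.symm
  have hP₁ : P₁ ≠ 0 := by
    rintro rfl
    rw [mul_zero] at h1
    exact hA₁0 h1.symm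
  have hP₀ : P₀ ≠ 0 := by
    rintro rfl
    rw [mul_zero] at h0
    exact hA₀0 h0.symm
  have e1 : c.natDegree + P₁.natDegree = A₁.natDegree := by rw [← h1, natDegree_mul hc hP₁]
  have e0 : c.natDegree + P₀.natDegree = A₀.natDegree := by rw [← h0, natDegree_mul hc hP₀]
  refine ⟨P₀, P₁, hP₀, hP₁, hrel.symm, by omega, by omega, ?_⟩
  have hcθ : aeval θ c ≠ 0 := fun h => hc (hgen c (by omega) h)
  apply mul_left_cancel₀ hcθ
  rw [← h0, ← h1, map_mul, map_mul] at hrelA
  linear_combination hrelA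

/-- the degree of the representation of an element goes down if its powers are represented too -/
theorem boot {n T k : ℕ} (θ : R)
    (hgen : ∀ f : F[X], f.natDegree < n → aeval θ f = 0 → f = 0) (hTn : 3 * T ≤ n)
    (x y : R) (hx : x ≠ 0) (hy : y ≠ 0)
    (hrep : ∀ j, 1 ≤ j → j ≤ k → ∃ P₀ P₁ : F[X], Rep θ T (x ^ j) (y ^ j) P₀ P₁)
    (P₀ P₁ : F[X]) (hP : Rep θ T x y P₀ P₁) :
    ∀ j, 1 ≤ j → j ≤ k → j * max P₀.natDegree P₁.natDegree < T := by
  obtain ⟨hP₀, hP₁, hrel, hd0, hd1, hPe⟩ := hP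
  intro j hj1
  induction j, hj1 using Nat.le_induction with
  | base => intro _; rw [one_mul]; exact max_lt hd0 hd1
  | succ j hj1 ih =>
    intro hjk
    have ihj := ih (by omega)
    obtain ⟨Q₀, Q₁, hQ₀, hQ₁, hrelQ, hq0, hq1, hQe⟩ := hrep (j + 1) (by omega) hjk
    set e := max P₀.natDegree P₁.natDegree with he
    have he0 : P₀.natDegree ≤ e := le_max_left _ _
    have he1 : P₁.natDegree ≤ e := le_max_right _ _
    have heT : e ≤ j * e := Nat.le_mul_of_pos_left e hj1
    have hje : (j + 1) * e = j * e + e := by ring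
    have hp0 : (P₀ ^ (j + 1)).natDegree ≤ (j + 1) * e := by
      rw [natDegree_pow]; exact Nat.mul_le_mul_left _ he0
    have hp1 : (P₁ ^ (j + 1)).natDegree ≤ (j + 1) * e := by
      rw [natDegree_pow]; exact Nat.mul_le_mul_left _ he1
    have hpoly : Q₀ * P₁ ^ (j + 1) - Q₁ * P₀ ^ (j + 1) = 0 := by
      apply hgen
      · refine lt_of_le_of_lt (natDegree_sub_le _ _) (max_lt ?_ ?_)
        · exact lt_of_le_of_lt natDegree_mul_le (by omega)
        · exact lt_of_le_of_lt natDegree_mul_le (by omega)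
      · rw [map_sub, map_mul, map_mul, map_pow, map_pow]
        have hyj : y ^ (j + 1) ≠ 0 := pow_ne_zero _ hy
        apply mul_left_cancel₀ hyj
        have h1 : (aeval θ P₀ * y) ^ (j + 1) = (aeval θ P₁ * x) ^ (j + 1) := by rw [hPe]
        rw [mul_pow, mul_pow] at h1
        linear_combination (aeval θ P₁) ^ (j + 1) * hQe - (aeval θ Q₁) * h1
    have heq : Q₀ * P₁ ^ (j + 1) = Q₁ * P₀ ^ (j + 1) := sub_eq_zero.1 hpoly
    have hrelp : IsRelPrime (P₀ ^ (j + 1)) (P₁ ^ (j + 1)) := hrel.pow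
    have hdvd0 : P₀ ^ (j + 1) ∣ Q₀ := by
      apply hrelp.dvd_of_dvd_mul_right
      rw [heq]
      exact Dvd.intro_left _ rfl
    have hdvd1 : P₁ ^ (j + 1) ∣ Q₁ := by
      apply hrelp.symm.dvd_of_dvd_mul_right
      rw [← heq]
      exact Dvd.intro_left _ rfl
    have hl0 := natDegree_le_of_dvd hdvd0 hQ₀
    have hl1 := natDegree_le_of_dvd hdvd1 hQ₁
    rw [natDegree_pow] at hl0 hl1
    rcases max_choice P₀.natDegree P₁.natDegree with h | h
    · rw [← he] at h
      rw [h]
      omega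
    · rw [← he] at h
      rw [h]
      omega

end Pool.Agent.Y730.RF
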