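import Mathlib
import Pool.Agent.Y730.RF.RepF

/-!
# Linear algebra of pairs of polynomials over a field
-/

set_option autoImplicit false

open Module Polynomial

namespace Pool.Agent.Y730.RF

variable {F K : Type*} [Field F] [Field K] [Algebra F K]

/-- extension of an independent family by multiples of powers of the generator -/
theorem ext_family [FiniteDimensional F K] {n : ℕ} (hn : finrank F K = n) (θ : K)
    (hgen : LinearIndependent F (fun i : Fin n => θ ^ (i : ℕ)))
    {κ : Type*} [Fintype κ] (u : κ → K) (hu : LinearIndependent F u) (w : K) (hw : w ≠ 0) :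
    ∃ J : Finset (Fin n), Fintype.card κ + J.card = n ∧
      LinearIndependent F (Sum.elim u (fun j : J => θ ^ ((j : Fin n) : ℕ) * w)) := by
  classical
  set v : κ ⊕ Fin n → K := Sum.elim u (fun j => θ ^ (j : ℕ) * w) with hv
  have hs : LinearIndepOn F v (Set.range (Sum.inl : κ → κ ⊕ Fin n)) := by
    rw [linearIndepOn_range_iff Sum.inl_injective]
    exact hu
  obtain ⟨b, -, hsb, hspan, hb⟩ := exists_linearIndepOn_extension hs (Set.subset_univ _)
  have hpow : LinearIndependent F (fun j : Fin n => θ ^ (j : ℕ) * w) := by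
    have h2 := hgen.map' (LinearMap.mulRight F w) (by
      rw [LinearMap.ker_eq_bot]
      intro x y hxy
      exact mul_right_cancel₀ hw hxy)
    exact h2
  have htop : Submodule.span F (Set.range (fun j : Fin n => θ ^ (j : ℕ) * w)) = ⊤ := by
    apply hpow.span_eq_top_of_card_eq_finrank'
    rw [Fintype.card_fin, hn]
  have hbspan : Submodule.span F (v '' b) = ⊤ := by
    rw [eq_top_iff, ← htop, Submodule.span_le]
    rintro _ ⟨j, rfl⟩
    exact hspan ⟨Sum.inr j, Set.mem_univ _, rfl⟩
  have hbcard : Fintype.card b = n := by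
    have h1 : finrank F (Submodule.span F (Set.range (fun x : b => v x))) = Fintype.card b :=
      finrank_span_eq_card hb
    have h2 : Set.range (fun x : b => v x) = v '' b := by
      ext z
      simp
    rw [h2, hbspan, finrank_top, hn] at h1
    exact h1.symm
  set J : Finset (Fin n) := Finset.univ.filter fun j => (Sum.inr j : κ ⊕ Fin n) ∈ b with hJ
  let f : κ ⊕ J → b := fun x => match x with
    | Sum.inl i => ⟨Sum.inl i, hsb ⟨i, rfl⟩⟩
    | Sum.inr j => ⟨Sum.inr j.1, (Finset.mem_filter.1 j.2).2⟩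
  have hf : Function.Bijective f := by
    constructor
    · rintro (i | j) (i' | j') h
      · simpa [f] using h
      · simp [f] at h
      · simp [f] at h
      · have : j.1 = j'.1 := by simpa [f] using h
        rw [Subtype.ext this]
    · rintro ⟨x | x, hx⟩
      · exact ⟨Sum.inl x, rfl⟩
      · exact ⟨Sum.inr ⟨x, Finset.mem_filter.2 ⟨Finset.mem_univ _, hx⟩⟩, rfl⟩
  refine ⟨J, ?_, ?_⟩
  · have h1 := Fintype.card_congr (Equiv.ofBijective f hf)
    rw [Fintype.card_sum, hbcard, Fintype.card_coe] at h1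
    exact h1
  · have h1 : LinearIndependent F ((fun x : b => v x) ∘ f) := LinearIndependent.comp hb f hf.1
    convert h1 using 1
    funext x
    rcases x with i | j
    · rfl
    · simp [f, hv]

/-- the polynomial with given coefficients -/
noncomputable def pol {F : Type*} [Semiring F] {T : ℕ} (c : Fin T → F) : F[X] :=
  ∑ b : Fin T, C (c b) * X ^ (b : ℕ)

lemma pol_coeff {F : Type*} [Semiring F] {T : ℕ} (c : Fin T → F) (b : Fin T) :
    (pol c).coeff b = c b := by
  rw [pol, finsetSum_coeff, Finset.sum_eq_single b]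
  · rw [coeff_C_mul, coeff_X_pow, if_pos rfl, mul_one]
  · intro b' _ hb'
    rw [coeff_C_mul, coeff_X_pow, if_neg (fun h => hb' (Fin.ext h.symm)), mul_zero]
  · intro h; exact absurd (Finset.mem_univ _) h

lemma pol_degree {F : Type*} [Semiring F] {T : ℕ} (hT : 0 < T) (c : Fin T → F) :
    (pol c).natDegree < T := by
  have h1 : (pol c).natDegree ≤ T - 1 := by
    apply natDegree_sum_le_of_forall_le
    intro b _
    refine (natDegree_C_mul_X_pow_le _ _).trans ?_
    have := b.2
    omega
  omega

lemma pol_aeval {F R : Type*} [CommSemiring F] [CommSemiring R] [Algebra F R] {T : ℕ}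
    (c : Fin T → F) (θ : R) : aeval θ (pol c) = ∑ b : Fin T, c b • θ ^ (b : ℕ) := by
  rw [pol, map_sum]
  refine Finset.sum_congr rfl fun b _ => ?_
  rw [map_mul, aeval_C, map_pow, aeval_X, Algebra.smul_def]

lemma pol_of_coeff {F : Type*} [Semiring F] {T : ℕ} (f : F[X]) (hf : f.natDegree < T) :
    pol (fun b : Fin T => f.coeff b) = f := by
  ext i
  by_cases hi : i < T
  · exact pol_coeff (fun b : Fin T => f.coeff b) ⟨i, hi⟩
  · have hT : 0 < T := by omega
    have h1 := pol_degree hT (fun b : Fin T => f.coeff b)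
    rw [coeff_eq_zero_of_natDegree_lt (by omega), coeff_eq_zero_of_natDegree_lt (by omega)]

/-- pairs of polynomials annihilating `(y, x)` are multiples of the reduced one -/
theorem ker_struct {n S T e : ℕ} (θ x y : K) (hy : y ≠ 0)
    (hgen : ∀ f : F[X], f.natDegree < n → aeval θ f = 0 → f = 0)
    (P₀ P₁ : F[X]) (hP₀ : P₀ ≠ 0) (hP₁ : P₁ ≠ 0) (hrel : IsRelPrime P₀ P₁)
    (he : e = max P₀.natDegree P₁.natDegree) (hP : aeval θ P₀ * y = aeval θ P₁ * x)
    (hTe : S + e = T) (hT : T + e ≤ n) (A₀ A₁ : F[X]) (h0 : A₀.natDegree < T)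
    (h1 : A₁.natDegree < T) (hA : aeval θ A₀ * y + aeval θ A₁ * x = 0) (hS : 0 < S) :
    ∃ H : F[X], H.natDegree < S ∧ A₀ = H * P₀ ∧ A₁ = -(H * P₁) := by
  have he0 : P₀.natDegree ≤ e := he ▸ le_max_left _ _
  have he1 : P₁.natDegree ≤ e := he ▸ le_max_right _ _
  have hpoly : A₀ * P₁ + A₁ * P₀ = 0 := by
    apply hgen
    · refine lt_of_le_of_lt (natDegree_add_le _ _) (max_lt ?_ ?_)
      · exact lt_of_le_of_lt natDegree_mul_le (by omega)
      · exact lt_of_le_of_lt natDegree_mul_le (by omega)
    · rw [map_add, map_mul, map_mul]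
      apply mul_left_cancel₀ hy
      linear_combination (aeval θ P₁) * hA + (aeval θ A₁) * hP
  have hdvd : P₀ ∣ A₀ * P₁ := ⟨-A₁, by linear_combination hpoly⟩
  obtain ⟨H, hH⟩ := hrel.dvd_of_dvd_mul_right hdvd
  have hA1 : A₁ = -(H * P₁) := by
    apply mul_right_cancel₀ hP₀
    rw [hH] at hpoly
    linear_combination hpoly
  refine ⟨H, ?_, by rw [hH, mul_comm], hA1⟩
  rcases eq_or_ne H 0 with h | h
  · rw [h, natDegree_zero]; exact hS
  · have h3 : H.natDegree + P₀.natDegree < T := by
      rw [add_comm, ← natDegree_mul hP₀ h, ← hH]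
      exact h0
    have h4 : H.natDegree + P₁.natDegree < T := by
      rw [← natDegree_mul h hP₁, ← natDegree_neg, ← hA1]
      exact h1
    rcases max_choice P₀.natDegree P₁.natDegree with h5 | h5 <;> omega

/-- the dimension of the space spanned by `θ^b y`, `θ^b x`, `b < T` -/
theorem finrank_pairs [FiniteDimensional F K] {n S T e : ℕ} (θ x y : K) (hy : y ≠ 0)
    (hgen : ∀ f : F[X], f.natDegree < n → aeval θ f = 0 → f = 0)
    (P₀ P₁ : F[X]) (hP₀ : P₀ ≠ 0) (hP₁ : P₁ ≠ 0) (hrel : IsRelPrime P₀ P₁)
    (he : e = max P₀.natDegree P₁.natDegree) (hP : aeval θ P₀ * y = aeval θ P₁ * x)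
    (hTe : S + e = T) (hT : T + e ≤ n) (hS : 0 < S) :
    finrank F (Submodule.span F (Set.range (Sum.elim (fun b : Fin T => θ ^ (b : ℕ) * y)
      (fun b : Fin T => θ ^ (b : ℕ) * x)))) + S = T + T := by
  have he0 : P₀.natDegree ≤ e := he ▸ le_max_left _ _
  have he1 : P₁.natDegree ≤ e := he ▸ le_max_right _ _
  have hTpos : 0 < T := by omega
  set v : Fin T ⊕ Fin T → K := Sum.elim (fun b : Fin T => θ ^ (b : ℕ) * y)
      (fun b : Fin T => θ ^ (b : ℕ) * x) with hv
  let Φ : (Fin T ⊕ Fin T → F) →ₗ[F] K := Fintype.linearCombination F v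
  have hΦ : ∀ f, Φ f = aeval θ (pol (fun b => f (Sum.inl b))) * y +
      aeval θ (pol (fun b => f (Sum.inr b))) * x := by
    intro f
    rw [pol_aeval, pol_aeval, Finset.sum_mul, Finset.sum_mul]
    simp only [Φ, Fintype.linearCombination_apply, Fintype.sum_sum_type, hv, Sum.elim_inl,
      Sum.elim_inr, smul_mul_assoc]
  have hrange : LinearMap.range Φ = Submodule.span F (Set.range v) :=
    Fintype.range_linearCombination F v
  have hpolmul : ∀ (P : F[X]) (c : Fin S → F), P.natDegree ≤ e → (pol c * P).natDegree < T := by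
    intro P c hPe
    have := pol_degree hS c
    exact lt_of_le_of_lt natDegree_mul_le (by omega)
  let Ψ : (Fin S → F) →ₗ[F] (Fin T ⊕ Fin T → F) :=
    { toFun := fun c => Sum.elim (fun b => (pol c * P₀).coeff b) (fun b => -(pol c * P₁).coeff b)
      map_add' := by
        intro c c'
        have : pol (c + c') = pol c + pol c' := by
          simp only [pol, Pi.add_apply, C_add, add_mul, Finset.sum_add_distrib]
        ext (b | b)
        · simp only [Sum.elim_inl, Pi.add_apply, this, add_mul, coeff_add]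
        · simp only [Sum.elim_inr, Pi.add_apply, this, add_mul, coeff_add]
          ring
      map_smul' := by
        intro a c
        have : pol (a • c) = C a * pol c := by
          simp only [pol, Pi.smul_apply, smul_eq_mul, C_mul, Finset.mul_sum, mul_assoc]
        ext (b | b)
        · simp only [Sum.elim_inl, Pi.smul_apply, this, mul_assoc, coeff_C_mul, smul_eq_mul,
            RingHom.id_apply]
        · simp only [Sum.elim_inr, Pi.smul_apply, this, mul_assoc, coeff_C_mul, smul_eq_mul,
            RingHom.id_apply]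
          ring }
  have hΨl : ∀ c, pol (fun b => Ψ c (Sum.inl b)) = pol c * P₀ := fun c =>
    pol_of_coeff _ (hpolmul P₀ c he0)
  have hΨr : ∀ c, pol (fun b => Ψ c (Sum.inr b)) = -(pol c * P₁) := by
    intro c
    have h1 : (fun b : Fin T => Ψ c (Sum.inr b)) = fun b : Fin T => (-(pol c * P₁)).coeff b := by
      funext b
      simp [Ψ]
    rw [h1]
    apply pol_of_coeff
    rw [natDegree_neg]
    exact hpolmul P₁ c he1
  have hinj : Function.Injective Ψ := by
    rw [← LinearMap.ker_eq_bot, LinearMap.ker_eq_bot']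
    intro c hc
    have h1 := hΨl c
    rw [hc] at h1
    have h2 : pol (fun b : Fin T => (0 : Fin T ⊕ Fin T → F) (Sum.inl b)) = 0 := by
      simp [pol]
    rw [h2] at h1
    have h3 : pol c = 0 := by
      rcases mul_eq_zero.1 h1.symm with h | h
      · exact h
      · exact absurd h hP₀
    funext b
    rw [← pol_coeff c b, h3]
    simp
  have hker : LinearMap.range Ψ = LinearMap.ker Φ := by
    apply le_antisymm
    · rintro _ ⟨c, rfl⟩
      rw [LinearMap.mem_ker, hΦ, hΨl, hΨr, map_mul, map_neg, map_mul]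
      linear_combination (aeval θ (pol c)) * hP
    · intro f hf
      rw [LinearMap.mem_ker, hΦ] at hf
      obtain ⟨H, hHS, hA0, hA1⟩ := ker_struct θ x y hy hgen P₀ P₁ hP₀ hP₁ hrel he hP hTe hT _ _
        (pol_degree hTpos _) (pol_degree hTpos _) hf hS
      refine ⟨fun b => H.coeff b, ?_⟩
      have hH := pol_of_coeff H hHS
      ext (b | b)
      · simp only [Ψ, LinearMap.coe_mk, AddHom.coe_mk, Sum.elim_inl, hH]
        rw [← hA0, pol_coeff]
      · simp only [Ψ, LinearMap.coe_mk, AddHom.coe_mk, Sum.elim_inr, hH]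
        rw [← coeff_neg, ← hA1, pol_coeff]
  have h1 := LinearMap.finrank_range_add_finrank_ker Φ
  rw [hrange, ← hker, LinearMap.finrank_range_of_inj hinj] at h1
  simpa using h1

end Pool.Agent.Y730.RF
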