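import Mathlib
import Pool.Agent.Y730.RD.Det
import Pool.Agent.Y730.RD.Had

/-!
# Hadamard's inequality relative to a number field
-/

set_option autoImplicit false

open NumberField Module

namespace Pool.Agent.Y730.RF

open Pool.Agent.Y730.RD

lemma norm_det_submatrix {C D : Type*} [Fintype C] [DecidableEq C] [Fintype D] [DecidableEq D]
    (N : Matrix D D ℂ) (e h : C ≃ D) : ‖(N.submatrix e h).det‖ = ‖N.det‖ := by
  have h1 : N.submatrix e h = ((N.submatrix e e).submatrix id (h.trans e.symm)) := by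
    ext i j
    simp
  rw [h1, Matrix.det_permute', norm_mul, Matrix.det_submatrix_equiv_self]
  rcases Int.units_eq_one_or (Equiv.Perm.sign (h.trans e.symm)) with h2 | h2 <;> simp [h2]

variable {F : Type*} [Field F] [NumberField F]

/-- a bijection compatible with a projection all of whose fibres have the same cardinality -/
lemma exists_fiber_equiv {R D ι : Type*} [Fintype R] [Fintype D] [DecidableEq D] [Fintype ι]
    (π : R → D) (hπ : ∀ τ, Nat.card {r // π r = τ} = Fintype.card ι) :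
    ∃ e : R ≃ ι × D, ∀ r, (e r).2 = π r := by
  classical
  let f : ∀ τ, {r // π r = τ} ≃ ι := fun τ =>
    Fintype.equivOfCardEq (by rw [← Nat.card_eq_fintype_card]; exact hπ τ)
  refine ⟨((Equiv.sigmaFiberEquiv π).symm.trans (Equiv.sigmaCongrRight f)).trans
    ((Equiv.sigmaEquivProd D ι).trans (Equiv.prodComm D ι)), fun r => ?_⟩
  rfl

/-- **Hadamard's inequality relative to a number field.** -/
theorem rel_hadamard {κ ι R : Type*} [Fintype κ] [DecidableEq κ] [Fintype ι] [DecidableEq ι]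
    [Fintype R] (ω : Basis κ ℤ (𝓞 F)) (π : R → (F →+* ℂ))
    (hπ : ∀ τ, Nat.card {r // π r = τ} = Fintype.card ι)
    (E : κ × ι ≃ R) (m : R → ι → ℂ) :
    ‖(Matrix.of fun c c' : κ × ι => π (E c) (ω c'.1) * m (E c) c'.2).det‖ ^ 2 ≤
      |(discr F : ℝ)| ^ Fintype.card ι * ∏ r, ∑ j, ‖m r j‖ ^ 2 := by
  classical
  obtain ⟨e, he⟩ := exists_fiber_equiv π hπ
  have hcard : Fintype.card κ = Fintype.card (F →+* ℂ) := by
    rw [Embeddings.card, ← RingOfIntegers.rank, Module.finrank_eq_card_basis ω]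
  let f : κ ≃ (F →+* ℂ) := Fintype.equivOfCardEq hcard
  let row : κ × ι ≃ ι × (F →+* ℂ) := E.trans e
  let col : κ × ι ≃ ι × (F →+* ℂ) := (Equiv.prodComm κ ι).trans (Equiv.prodCongr (Equiv.refl ι) f)
  let B : (F →+* ℂ) → Matrix ι ι ℂ := fun τ => Matrix.of fun i j => m (e.symm (i, τ)) j
  let Ω : Matrix (F →+* ℂ) (F →+* ℂ) ℂ := Matrix.of fun τ τ' => τ (ω (f.symm τ'))
  let N : Matrix (ι × (F →+* ℂ)) (ι × (F →+* ℂ)) ℂ :=
    Matrix.blockDiagonal B * Matrix.kroneckerMap (fun x y => x * y) (1 : Matrix ι ι ℂ) Ω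
  have hN : ∀ i τ j τ', N (i, τ) (j, τ') = τ (ω (f.symm τ')) * m (e.symm (i, τ)) j := by
    intro i τ j τ'
    simp only [N, Matrix.mul_apply, Matrix.blockDiagonal_apply, Matrix.kroneckerMap_apply,
      Fintype.sum_prod_type, Matrix.one_apply]
    rw [Finset.sum_eq_single j, Finset.sum_eq_single τ]
    · simp [B, Ω, mul_comm]
    · intro τ'' _ h
      rw [if_neg (fun h' => h h'.symm), zero_mul]
    · intro h; exact absurd (Finset.mem_univ _) h
    · intro j' _ h
      apply Finset.sum_eq_zero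
      intro τ'' _
      rw [if_neg h, zero_mul, mul_zero]
    · intro h; exact absurd (Finset.mem_univ _) h
  have h1 : (Matrix.of fun c c' : κ × ι => π (E c) (ω c'.1) * m (E c) c'.2) =
      N.submatrix row col := by
    ext ⟨k, i⟩ ⟨k', i'⟩
    rw [Matrix.submatrix_apply, Matrix.of_apply]
    have h2 : row (k, i) = ((e (E (k, i))).1, π (E (k, i))) := by
      rw [← he]
      rfl
    have h3 : col (k', i') = (i', f k') := rfl
    have h4 : e.symm ((e (E (k, i))).1, π (E (k, i))) = E (k, i) := by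
      rw [← he]
      exact e.symm_apply_apply _
    rw [h2, h3, hN, Equiv.symm_apply_apply, h4]
  rw [h1, norm_det_submatrix, Matrix.det_mul, Matrix.det_blockDiagonal, Matrix.det_kronecker,
    Matrix.det_one, one_pow, one_mul, norm_mul, mul_pow, norm_pow, norm_prod, ← Finset.prod_pow,
    mul_comm]
  have hΩ : ‖Ω.det‖ ^ 2 = |(discr F : ℝ)| := by
    rw [← conjMat_basis f ω]
    congr 1
    have h2 : conjMat f ω = Ω.submatrix f f := by
      ext i j
      simp [conjMat, Ω]
    rw [h2, norm_det_submatrix]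
  have h5 : (‖Ω.det‖ ^ Fintype.card ι) ^ 2 = |(discr F : ℝ)| ^ Fintype.card ι := by
    rw [← hΩ, ← pow_mul, ← pow_mul, mul_comm]
  rw [h5]
  refine mul_le_mul_of_nonneg_left ?_ (by positivity)
  have h6 : ∏ r, ∑ j, ‖m r j‖ ^ 2 = ∏ τ : F →+* ℂ, ∏ i : ι, ∑ j, ‖m (e.symm (i, τ)) j‖ ^ 2 := by
    rw [← Equiv.prod_comp e.symm, Fintype.prod_prod_type, Finset.prod_comm]
  rw [h6]
  refine Finset.prod_le_prod (fun _ _ => by positivity) (fun τ _ => ?_)
  exact hadamard (B τ)

/-- the fibres of the restriction of the embeddings -/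
lemma card_fiber {K : Type*} [Field K] [NumberField K] [Algebra F K] (τ : F →+* ℂ) :
    Nat.card {σ : K →+* ℂ // σ.comp (algebraMap F K) = τ} = finrank F K := by
  classical
  letI : Algebra F ℂ := τ.toAlgebra
  have : FiniteDimensional F K := FiniteDimensional.right ℚ F K
  have hcomm : ∀ σ : {σ : K →+* ℂ // σ.comp (algebraMap F K) = τ}, ∀ x : F,
      σ.1 (algebraMap F K x) = algebraMap F ℂ x := fun σ x =>
    congrArg (fun g : F →+* ℂ => g x) σ.2
  let h1 : {σ : K →+* ℂ // σ.comp (algebraMap F K) = τ} ≃ (K →ₐ[F] ℂ) :=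
    { toFun := fun σ => { σ.1 with commutes' := hcomm σ }
      invFun := fun g => ⟨g.toRingHom, RingHom.ext fun x => g.commutes x⟩
      left_inv := fun σ => rfl
      right_inv := fun g => rfl }
  rw [Nat.card_congr h1, Nat.card_eq_fintype_card, AlgHom.card]

end Pool.Agent.Y730.RF
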