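import Mathlib
import Pool.Agent.Y730.RD.Step1
import Pool.Agent.Y730.RF.RelHad
import Pool.Agent.Y730.RF.LinF

/-!
# Step 1 relative to a number field
-/

set_option autoImplicit false

open NumberField Module Height

namespace Pool.Agent.Y730.RF

open Pool.Agent.Y730.RD (conjMat det_lower li_iff prod_max_eq exponents)

variable {F K : Type*} [Field F] [NumberField F] [Field K] [NumberField K] [Algebra F K]

/-- products of an integral basis of `F` with `F`-independent integers are independent -/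
lemma li_products {κ ι : Type*} [Finite κ] (ω : Basis κ ℤ (𝓞 F)) (η : ι → 𝓞 K)
    (hη : LinearIndependent F (fun i => (η i : K))) :
    LinearIndependent ℤ (fun p : κ × ι => algebraMap (𝓞 F) (𝓞 K) (ω p.1) * η p.2) := by
  rw [li_iff]
  have h1 : LinearIndependent ℚ (fun k => ((ω k : 𝓞 F) : F)) := (li_iff _).1 ω.linearIndependent
  have h2 := linearIndependent_smul h1 hη
  convert h2 using 1
  funext p
  rw [Algebra.smul_def]
  exact map_mul (algebraMap (𝓞 K) K) _ _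

/-- **Step 1** relative to a number field. -/
theorem step1 {n a T : ℕ} (hn : finrank F K = n) (θ : 𝓞 K) (ρ : ℝ) (hρ1 : 1 ≤ ρ)
    (hρn : ρ ^ n = a) (hρ : ∀ σ : K →+* ℂ, ‖σ θ‖ = ρ)
    (hgen : LinearIndependent F (fun i : Fin n => (θ : K) ^ (i : ℕ)))
    (x y : 𝓞 K) (hy : y ≠ 0)
    (hli : LinearIndependent F (Sum.elim (fun b : Fin T => (θ : K) ^ (b : ℕ) * x)
      (fun b : Fin T => (θ : K) ^ (b : ℕ) * y))) :
    |(discr K : ℝ)| * ρ ^ (finrank ℚ F * (T * (T + 1))) ≤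
      |(discr F : ℝ)| ^ n * ((n : ℝ) ^ n * (a : ℝ) ^ (n - 1)) ^ finrank ℚ F *
        mulHeight₁ ((x : K) / (y : K)) ^ 2 := by
  classical
  have hfd : FiniteDimensional F K := FiniteDimensional.right ℚ F K
  have hyK : (y : K) ≠ 0 := by exact_mod_cast hy
  set d := finrank ℚ F with hd
  have hdn : finrank ℚ K = d * n := by rw [← finrank_mul_finrank ℚ F K, hn]
  obtain ⟨J, hJc, hJ⟩ := ext_family hn (θ : K) hgen _ hli (y : K) hyK
  have hρ0 : 0 < ρ := by linarith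
  have hJT : ∀ j ∈ J, T ≤ (j : ℕ) := by
    intro j hj
    by_contra hlt
    push Not at hlt
    have hinj := hJ.injective
    have h1 : (Sum.inl (Sum.inr ⟨(j : ℕ), hlt⟩) : (Fin T ⊕ Fin T) ⊕ J) = Sum.inr ⟨j, hj⟩ := by
      apply hinj
      simp
    simp at h1
  let ι := (Fin T ⊕ Fin T) ⊕ J
  have hcardι : Fintype.card ι = n := by
    rw [Fintype.card_sum, Fintype.card_coe, hJc]
  set η : ι → 𝓞 K := Sum.elim (Sum.elim (fun b : Fin T => θ ^ (b : ℕ) * x)
      (fun b : Fin T => θ ^ (b : ℕ) * y)) (fun j : J => θ ^ ((j : Fin n) : ℕ) * y) with hη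
  have hηli : LinearIndependent F (fun i => (η i : K)) := by
    convert hJ using 1
    funext i
    rcases i with (b | b) | j
    · simp [hη]
    · simp [hη]
    · simp [hη]
  let κ := Free.ChooseBasisIndex ℤ (𝓞 F)
  let ω : Basis κ ℤ (𝓞 F) := RingOfIntegers.basis F
  have hcardκ : Fintype.card κ = d := by
    rw [← Module.finrank_eq_card_basis ω, RingOfIntegers.rank]
  set η' : κ × ι → 𝓞 K := fun p => algebraMap (𝓞 F) (𝓞 K) (ω p.1) * η p.2 with hη'
  have hli' : LinearIndependent ℤ η' := li_products ω η hηli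
  have hcard : Fintype.card (κ × ι) = Fintype.card (K →+* ℂ) := by
    rw [Fintype.card_prod, hcardκ, hcardι, Embeddings.card, hdn]
  let E : κ × ι ≃ (K →+* ℂ) := Fintype.equivOfCardEq hcard
  set I : Ideal (𝓞 K) := Ideal.span {x, y} with hI
  have hxI : x ∈ I := Ideal.subset_span (by simp)
  have hyI : y ∈ I := Ideal.subset_span (by simp)
  have hηI : ∀ i, η' i ∈ I := by
    rintro ⟨k, (b | b) | j⟩
    · exact I.mul_mem_left _ (I.mul_mem_left _ hxI)
    · exact I.mul_mem_left _ (I.mul_mem_left _ hyI)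
    · exact I.mul_mem_left _ (I.mul_mem_left _ hyI)
  have h1 := det_lower E I η' hηI hli'
  let ex : ι → ℕ := Sum.elim (Sum.elim (fun b => (b : ℕ)) (fun b => (b : ℕ)))
    (fun j => ((j : Fin n) : ℕ))
  let μ : (K →+* ℂ) → ℝ := fun σ => max ‖σ x‖ ‖σ y‖
  have hμ : ∀ σ, 0 ≤ μ σ := fun σ => le_max_of_le_left (norm_nonneg _)
  have hbound : ∀ (σ : K →+* ℂ) (c : ι), ‖σ (η c)‖ ≤ ρ ^ ex c * μ σ := by
    rintro σ ((b | b) | j)
    · simp only [hη, Sum.elim_inl, ex, map_mul, map_pow, norm_mul, norm_pow, hρ σ]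
      exact mul_le_mul_of_nonneg_left (le_max_left _ _) (by positivity)
    · simp only [hη, Sum.elim_inl, Sum.elim_inr, ex, map_mul, map_pow, norm_mul, norm_pow, hρ σ]
      exact mul_le_mul_of_nonneg_left (le_max_right _ _) (by positivity)
    · simp only [hη, Sum.elim_inr, ex, map_mul, map_pow, norm_mul, norm_pow, hρ σ]
      exact mul_le_mul_of_nonneg_left (le_max_right _ _) (by positivity)
  let π : (K →+* ℂ) → (F →+* ℂ) := fun σ => σ.comp (algebraMap F K)
  let m : (K →+* ℂ) → ι → ℂ := fun σ c => σ (η c) / (ρ : ℂ) ^ ex c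
  have h2 : conjMat E η' = Matrix.of fun c c' => ((ρ : ℂ) ^ ex c'.2) *
      ((Matrix.of fun c c' : κ × ι => π (E c) (ω c'.1) * m (E c) c'.2) c c') := by
    ext c c'
    have h3 : ((ρ : ℂ) ^ ex c'.2) ≠ 0 := pow_ne_zero _ (by exact_mod_cast hρ0.ne')
    simp only [conjMat, Matrix.of_apply, hη', map_mul, m]
    have h4 : (E c) ((algebraMap (𝓞 F) (𝓞 K) (ω c'.1) : 𝓞 K) : K) = π (E c) (ω c'.1) := rfl
    rw [h4]
    field_simp
  have h3 : ‖∏ c : κ × ι, (ρ : ℂ) ^ ex c.2‖ ^ 2 = ρ ^ (d * (2 * ∑ c, ex c)) := by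
    have h4 : ∏ c : κ × ι, (ρ : ℂ) ^ ex c.2 = ((ρ : ℂ) ^ (∑ c, ex c)) ^ d := by
      rw [Fintype.prod_prod_type]
      have h5 : ∀ x : κ, ∏ y : ι, (ρ : ℂ) ^ ex (x, y).2 = (ρ : ℂ) ^ (∑ c, ex c) := fun x =>
        Finset.prod_pow_eq_pow_sum _ _ _
      rw [Finset.prod_congr rfl (fun x _ => h5 x), Finset.prod_const, Finset.card_univ, hcardκ]
    rw [h4, norm_pow, norm_pow, Complex.norm_real, Real.norm_eq_abs,
      abs_of_pos hρ0, ← pow_mul, ← pow_mul]
    congr 1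
    ring
  have h4 := rel_hadamard ω π (fun τ => by rw [hcardι, ← hn]; exact card_fiber τ) E m
  have h5 : ∏ σ, ∑ j, ‖m σ j‖ ^ 2 ≤ ((n : ℝ) ^ n) ^ d * (∏ σ, μ σ) ^ 2 := by
    have h6 : ((n : ℝ) ^ n) ^ d * (∏ σ, μ σ) ^ 2 = ∏ σ : K →+* ℂ, ((n : ℝ) * (μ σ) ^ 2) := by
      rw [Finset.prod_mul_distrib, Finset.prod_const, Finset.card_univ, Finset.prod_pow,
        Embeddings.card, hdn, ← pow_mul, mul_comm n d]
    rw [h6]
    refine Finset.prod_le_prod (fun σ _ => by positivity) (fun σ _ => ?_)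
    calc ∑ j, ‖m σ j‖ ^ 2 ≤ ∑ _j : ι, (μ σ) ^ 2 := by
          refine Finset.sum_le_sum fun j _ => ?_
          refine pow_le_pow_left₀ (norm_nonneg _) ?_ 2
          simp only [m]
          rw [norm_div, norm_pow, Complex.norm_real, Real.norm_eq_abs,
            abs_of_pos hρ0, div_le_iff₀ (by positivity), mul_comm]
          exact hbound _ _
      _ = _ := by
          rw [Finset.sum_const, Finset.card_univ, nsmul_eq_mul, hcardι]
  have hN : (0 : ℝ) < (I.absNorm : ℝ) := by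
    have : I.absNorm ≠ 0 := by
      rw [Ne, Ideal.absNorm_eq_zero_iff]
      intro h
      rw [h, Ideal.mem_bot] at hyI
      exact hy hyI
    exact_mod_cast Nat.pos_of_ne_zero this
  have hprod : ∏ σ, μ σ = (I.absNorm : ℝ) * mulHeight₁ ((x : K) / (y : K)) := prod_max_eq x y hy
  rw [h2, Matrix.det_mul_row, norm_mul, mul_pow, h3] at h1
  have h6 : (I.absNorm : ℝ) ^ 2 * |(discr K : ℝ)| ≤ ρ ^ (d * (2 * ∑ c, ex c)) *
      (|(discr F : ℝ)| ^ n * (((n : ℝ) ^ n) ^ d * (∏ σ, μ σ) ^ 2)) := by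
    refine h1.trans (mul_le_mul_of_nonneg_left ?_ (by positivity))
    refine h4.trans ?_
    rw [hcardι]
    exact mul_le_mul_of_nonneg_left h5 (by positivity)
  rw [hprod] at h6
  have h7 : |(discr K : ℝ)| ≤ ρ ^ (d * (2 * ∑ c, ex c)) *
      (|(discr F : ℝ)| ^ n * (((n : ℝ) ^ n) ^ d * mulHeight₁ ((x : K) / (y : K)) ^ 2)) := by
    have h5 : (0 : ℝ) < (I.absNorm : ℝ) ^ 2 := by positivity
    refine le_of_mul_le_mul_left ?_ h5
    calc (I.absNorm : ℝ) ^ 2 * |(discr K : ℝ)| ≤ _ := h6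
      _ = _ := by ring
  have hex : 2 * ∑ c, ex c + T * (T + 1) ≤ n * (n - 1) := by
    have h4 : ∑ c, ex c = 2 * ∑ b : Fin T, (b : ℕ) + ∑ j ∈ J, (j : ℕ) := by
      rw [Fintype.sum_sum_type, Fintype.sum_sum_type]
      simp only [ex, Sum.elim_inl, Sum.elim_inr]
      rw [Finset.sum_coe_sort J (fun j => (j : ℕ))]
      ring
    rw [h4]
    apply exponents J hJT
    rw [Fintype.card_sum, Fintype.card_fin] at hJc
    omega
  calc |(discr K : ℝ)| * ρ ^ (d * (T * (T + 1)))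
      ≤ (ρ ^ (d * (2 * ∑ c, ex c)) *
        (|(discr F : ℝ)| ^ n * (((n : ℝ) ^ n) ^ d * mulHeight₁ ((x : K) / (y : K)) ^ 2))) *
        ρ ^ (d * (T * (T + 1))) := mul_le_mul_of_nonneg_right h7 (by positivity)
    _ = ρ ^ (d * (2 * ∑ c, ex c + T * (T + 1))) *
        (|(discr F : ℝ)| ^ n * (((n : ℝ) ^ n) ^ d * mulHeight₁ ((x : K) / (y : K)) ^ 2)) := by
        rw [show d * (2 * ∑ c, ex c + T * (T + 1)) =
          d * (2 * ∑ c, ex c) + d * (T * (T + 1)) by ring, pow_add]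
        ring
    _ ≤ ρ ^ (d * (n * (n - 1))) *
        (|(discr F : ℝ)| ^ n * (((n : ℝ) ^ n) ^ d * mulHeight₁ ((x : K) / (y : K)) ^ 2)) := by
        refine mul_le_mul_of_nonneg_right
          (pow_le_pow_right₀ hρ1 (Nat.mul_le_mul_left d hex)) ?_
        positivity
    _ = _ := by
        have h8 : ρ ^ (d * (n * (n - 1))) = ((a : ℝ) ^ (n - 1)) ^ d := by
          rw [mul_comm d, pow_mul, pow_mul, hρn]
        rw [h8, mul_pow]
        ring

end Pool.Agent.Y730.RF
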