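import Mathlib
import Pool.Agent.Y730.RD.Lin
import Pool.Agent.Y730.RF.Step1F
import Pool.Agent.Y730.RF.LowerY

/-!
# Step 3 relative to a number field
-/

set_option autoImplicit false

open NumberField Module Height Polynomial

namespace Pool.Agent.Y730.RF

open Pool.Agent.Y730.RD (conjMat det_lower li_iff prod_max_eq det_basis_change)

section LA

variable {F K : Type*} [Field F] [Field K] [Algebra F K]

/-- a complement generated by multiples of powers of the generator, to the span of a family -/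
theorem exists_complement [FiniteDimensional F K] {n : ℕ} (hn : finrank F K = n) (θ : K)
    (hgen : LinearIndependent F (fun i : Fin n => θ ^ (i : ℕ))) (w : K) (hw : w ≠ 0)
    {ι₀ : Type} [Fintype ι₀] (v : ι₀ → K) :
    ∃ (J : Finset (Fin n)) (κ : Type) (_ : Fintype κ) (a : κ → ι₀),
      finrank F (Submodule.span F (Set.range v)) + J.card = n ∧
      Fintype.card κ + J.card = n ∧
      LinearIndependent F (Sum.elim (fun i => v (a i)) (fun j : J => θ ^ ((j : Fin n) : ℕ) * w)) ∧
      (∀ (f : ι₀ → F) (g : J → F), ∑ i, f i • v i + ∑ j : J, g j • (θ ^ ((j : Fin n) : ℕ) * w) = 0 →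
        ∑ i, f i • v i = 0 ∧ g = 0) := by
  classical
  obtain ⟨κ, a, ha, hspan, hli⟩ := exists_linearIndependent' F v
  have hfin : Finite κ := Finite.of_injective a ha
  have hft : Fintype κ := Fintype.ofFinite κ
  obtain ⟨J, hJ, hJli⟩ := ext_family hn θ hgen (v ∘ a) hli w hw
  have hrank : finrank F (Submodule.span F (Set.range v)) = Fintype.card κ := by
    rw [← hspan]
    exact finrank_span_eq_card hli
  refine ⟨J, κ, hft, a, by rw [hrank]; exact hJ, hJ, hJli, ?_⟩
  intro f g hfg
  have h1 : ∑ i, f i • v i ∈ Submodule.span F (Set.range (v ∘ a)) := by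
    rw [hspan]
    exact Submodule.sum_mem _ fun i _ => Submodule.smul_mem _ _ (Submodule.subset_span ⟨i, rfl⟩)
  obtain ⟨c, hc⟩ := (Submodule.mem_span_range_iff_exists_fun F).1 h1
  rw [← hc] at hfg
  rw [Fintype.linearIndependent_iff] at hJli
  have h2 := hJli (Sum.elim c g) (by
    rw [Fintype.sum_sum_type]
    simpa using hfg)
  refine ⟨?_, ?_⟩
  · rw [← hc]
    apply Finset.sum_eq_zero
    intro i _
    have := h2 (Sum.inl i)
    simp only [Sum.elim_inl] at this
    rw [this, zero_smul]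
  · funext j
    exact h2 (Sum.inr j)

end LA

variable {F K L : Type*} [Field F] [NumberField F] [Field K] [NumberField K] [Algebra F K]
  [Field L] [NumberField L] [Algebra F L]

/-- an embedding restricted to the integers, as an additive map -/
noncomputable def toC (σ : K →+* ℂ) : 𝓞 K →ₗ[ℤ] ℂ :=
  (σ.comp (algebraMap (𝓞 K) K)).toAddMonoidHom.toIntLinearMap

lemma toC_apply (σ : K →+* ℂ) (z : 𝓞 K) : toC σ z = σ z := rfl

lemma toC_smul (σ : K →+* ℂ) (a : 𝓞 F) (z : 𝓞 K) :
    toC σ (a • z) = (σ.comp (algebraMap F K)) a * toC σ z := by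
  rw [toC_apply, toC_apply, Algebra.smul_def]
  have h1 : ((algebraMap (𝓞 F) (𝓞 K) a * z : 𝓞 K) : K) = algebraMap F K a * (z : K) :=
    map_mul (algebraMap (𝓞 K) K) _ _
  rw [h1, map_mul]
  rfl

lemma smul_coe (a : 𝓞 F) (z : 𝓞 K) : ((a • z : 𝓞 K) : K) = (a : F) • (z : K) := by
  rw [Algebra.smul_def, Algebra.smul_def]
  exact map_mul (algebraMap (𝓞 K) K) _ _

/-- `v ↦ ∑ v_c η_c` -/
noncomputable def comb {ι : Type} [Fintype ι] (η : ι → 𝓞 K) : (ι → 𝓞 F) →ₗ[ℤ] 𝓞 K :=
  (Fintype.linearCombination (𝓞 F) η).restrictScalars ℤ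

lemma comb_apply {ι : Type} [Fintype ι] (η : ι → 𝓞 K) (v : ι → 𝓞 F) :
    comb η v = ∑ c, v c • η c := rfl

lemma comb_smul {ι : Type} [Fintype ι] (η : ι → 𝓞 K) (a : 𝓞 F) (v : ι → 𝓞 F) :
    comb η (a • v) = a • comb η v := (Fintype.linearCombination (𝓞 F) η).map_smul a v

lemma comb_single {ι : Type} [Fintype ι] [DecidableEq ι] (η : ι → 𝓞 K) (c : ι) :
    comb (F := F) η (Pi.single c 1) = η c := by
  rw [comb, LinearMap.restrictScalars_apply, Fintype.linearCombination_apply_single, one_smul]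

lemma comb_coe {ι : Type} [Fintype ι] (η : ι → 𝓞 K) (v : ι → 𝓞 F) :
    ((comb η v : 𝓞 K) : K) = ∑ c, (v c : F) • (η c : K) := by
  rw [comb_apply]
  refine (map_sum (algebraMap (𝓞 K) K) (fun c => v c • η c) Finset.univ).trans ?_
  exact Finset.sum_congr rfl fun c _ => smul_coe _ _

end Pool.Agent.Y730.RF
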