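import Mathlib
import Pool.Agent.Y730.RF.Step3F

/-!
# Step 3 relative to a number field: the determinant
-/

set_option autoImplicit false

open NumberField Module Height Polynomial

namespace Pool.Agent.Y730.RF

open Pool.Agent.Y730.RD (conjMat det_lower li_iff prod_max_eq det_basis_change)

variable {F K L : Type*} [Field F] [NumberField F] [Field K] [NumberField K] [Algebra F K]
  [Field L] [NumberField L] [Algebra F L]

/-- rows: embeddings of `L` and of `K` -/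
noncomputable def restr : ((L →+* ℂ) ⊕ (K →+* ℂ)) → (F →+* ℂ) :=
  Sum.elim (fun σ => σ.comp (algebraMap F L)) (fun σ => σ.comp (algebraMap F K))

lemma card_fiber_restr (τ : F →+* ℂ) :
    Nat.card {r : (L →+* ℂ) ⊕ (K →+* ℂ) // restr r = τ} = finrank F L + finrank F K := by
  have h1 : {r : (L →+* ℂ) ⊕ (K →+* ℂ) // restr r = τ} ≃
      {σ : L →+* ℂ // σ.comp (algebraMap F L) = τ} ⊕ {σ : K →+* ℂ // σ.comp (algebraMap F K) = τ} :=
    Equiv.subtypeSum
  rw [Nat.card_congr h1, Nat.card_sum, card_fiber, card_fiber]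

/-- the determinant inequality behind Step 3 -/
theorem det_ineq {N : ℕ} {ι : Type} [Fintype ι] [DecidableEq ι]
    (hι : Fintype.card ι = finrank F L + finrank F K) (η : ι → 𝓞 K)
    (tot : (ι → 𝓞 F) →ₗ[ℤ] 𝓞 K) (htot : tot = comb η)
    (evs : (L →+* ℂ) → (ι → 𝓞 F) →ₗ[ℤ] 𝓞 L)
    (hevs : ∀ σ (a : 𝓞 F) v, evs σ (a • v) = a • evs σ v)
    (hN : ∀ σ : L →+* ℂ, ∑ c, ‖σ (evs σ (Pi.single c 1))‖ ^ 2 ≤ N)
    (I : Ideal (𝓞 K)) (hηI : ∀ c, η c ∈ I)
    (hrank : finrank ℤ (LinearMap.range tot) = finrank ℚ K)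
    (ε : (ι → 𝓞 F) →ₗ[ℤ] 𝓞 L) (hεker : ∀ w, tot w = 0 → ε w = 0 → w = 0)
    (r : L) (hεr : ∀ w, tot w = 0 → ∃ t : 𝓞 L, (t : L) = (ε w : L) * r)
    (hg : ∃ g : (L →+* ℂ) → ℂ, (∀ σ, ‖g σ‖ = max 1 ‖σ r‖) ∧
      ∀ σ w, tot w = 0 → σ (evs σ w) = g σ * σ (ε w)) :
    |(discr L : ℝ)| * mulHeight₁ r ^ 2 * ((I.absNorm : ℝ) ^ 2 * |(discr K : ℝ)|) ≤
      |(discr F : ℝ)| ^ (finrank F L + finrank F K) *
        ((N : ℝ) ^ finrank ℚ L * ∏ σ : K →+* ℂ, ∑ c, ‖σ (η c)‖ ^ 2) := by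
  classical
  obtain ⟨g, hgn, hg⟩ := hg
  let κ := Free.ChooseBasisIndex ℤ (𝓞 F)
  let ω : Basis κ ℤ (𝓞 F) := RingOfIntegers.basis F
  have hcardκ : Fintype.card κ = finrank ℚ F := by
    rw [← Module.finrank_eq_card_basis ω, RingOfIntegers.rank]
  let bS : Basis (κ × ι) ℤ (ι → 𝓞 F) := ω.smulTower (Pi.basisFun (𝓞 F) ι)
  have hbS : ∀ p : κ × ι, bS p = ω p.1 • (Pi.single p.2 1 : ι → 𝓞 F) := by
    intro p
    simp [bS, Basis.smulTower_apply, Pi.basisFun_apply]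
  have hfree : Module.Free ℤ (ι → 𝓞 F) := Module.Free.of_basis bS
  have hfin : Module.Finite ℤ (ι → 𝓞 F) := Module.Finite.of_basis bS
  let W := LinearMap.ker tot
  let bW := Free.chooseBasis ℤ W
  let c := Free.chooseBasis ℤ (LinearMap.range tot)
  let Q := Free.ChooseBasisIndex ℤ (LinearMap.range tot)
  let ιW := Free.ChooseBasisIndex ℤ W
  let bQ : Basis Q ℤ ((ι → 𝓞 F) ⧸ W) := c.map tot.quotKerEquivRange.symm
  let B : Basis (ιW ⊕ Q) ℤ (ι → 𝓞 F) := Basis.sumQuot bW bQ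
  have hBl : ∀ b, B (Sum.inl b) = (bW b : ι → 𝓞 F) := fun b => Basis.sumQuot_inl bW bQ b
  have hBr : ∀ q, tot (B (Sum.inr q)) = (c q : 𝓞 K) := by
    intro q
    have h1 : (Submodule.Quotient.mk (B (Sum.inr q)) : (ι → 𝓞 F) ⧸ W) = bQ q :=
      Basis.sumQuot_inr bW bQ q
    have h2 : tot.quotKerEquivRange (Submodule.Quotient.mk (B (Sum.inr q))) = c q := by
      rw [h1]
      simp [bQ]
    rw [← h2]
    rfl
  have hBker : ∀ b, tot (B (Sum.inl b)) = 0 := by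
    intro b
    rw [hBl]
    exact (bW b).2
  have hdK : finrank ℚ K = finrank ℚ F * finrank F K := (finrank_mul_finrank ℚ F K).symm
  have hdL : finrank ℚ L = finrank ℚ F * finrank F L := (finrank_mul_finrank ℚ F L).symm
  have hcQ : Fintype.card Q = finrank ℚ K := by
    rw [← hrank]
    exact (Module.finrank_eq_card_basis c).symm
  have hcW : Fintype.card ιW = finrank ℚ L := by
    have h1 := Fintype.card_congr (B.indexEquiv bS)
    rw [Fintype.card_sum, Fintype.card_prod, hcardκ, hι, hcQ, hdK] at h1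
    rw [hdL]
    nlinarith
  let E₁ : ιW ≃ (L →+* ℂ) := Fintype.equivOfCardEq (by rw [hcW, Embeddings.card])
  let E₂ : Q ≃ (K →+* ℂ) := Fintype.equivOfCardEq (by rw [hcQ, Embeddings.card])
  let E' : ιW ⊕ Q ≃ (L →+* ℂ) ⊕ (K →+* ℂ) := Equiv.sumCongr E₁ E₂
  let gg : κ × ι ≃ ιW ⊕ Q := bS.indexEquiv B
  let E : κ × ι ≃ (L →+* ℂ) ⊕ (K →+* ℂ) := gg.trans E'
  -- functionals
  let ℓ : ((L →+* ℂ) ⊕ (K →+* ℂ)) → (ι → 𝓞 F) →ₗ[ℤ] ℂ :=
    Sum.elim (fun σ => toC σ ∘ₗ evs σ) (fun σ => toC σ ∘ₗ tot)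
  have hsemi : ∀ r' (a : 𝓞 F) v, ℓ r' (a • v) = (restr (F := F) r') a * ℓ r' v := by
    rintro (σ | σ) a v
    · show toC σ (evs σ (a • v)) = _
      rw [hevs, toC_smul]
      rfl
    · show toC σ (tot (a • v)) = _
      have h1 : tot (a • v) = a • tot v := by rw [htot, comb_smul]
      rw [h1, toC_smul]
      rfl
  let m : ((L →+* ℂ) ⊕ (K →+* ℂ)) → ι → ℂ := fun r' c' => ℓ r' (Pi.single c' 1)
  -- the two determinants
  have hdet := det_basis_change bS (B.reindex gg.symm) (fun i => ℓ (E i))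
  have hM : (Matrix.of fun i j => ℓ (E i) (bS j)) =
      (Matrix.of fun i j : κ × ι => (restr (F := F) (E i)) (ω j.1) * m (E i) j.2) := by
    ext i j
    simp only [Matrix.of_apply, hbS, hsemi, m]
  have hup := rel_hadamard ω (restr (F := F)) (fun τ => by rw [hι]; exact card_fiber_restr τ) E m
  rw [← hM, hdet, hι] at hup
  -- block form
  let εB : ιW → 𝓞 L := fun b => ε (B (Sum.inl b))
  have hM1 : (Matrix.of fun i j : ιW ⊕ Q => ℓ (E' i) (B j)) = Matrix.fromBlocks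
      (Matrix.of fun i b => g (E₁ i) * conjMat E₁ εB i b)
      (Matrix.of fun i q => ℓ (Sum.inl (E₁ i)) (B (Sum.inr q))) 0
      (conjMat E₂ (fun q => (c q : 𝓞 K))) := by
    ext (i | i) (j | j)
    · show (E₁ i) (evs (E₁ i) (B (Sum.inl j))) = g (E₁ i) * (E₁ i) (ε (B (Sum.inl j)))
      exact hg _ _ (hBker j)
    · rfl
    · show (E₂ i) (tot (B (Sum.inl j))) = 0
      rw [hBker]
      simp
    · show (E₂ i) (tot (B (Sum.inr j))) = (E₂ i) ((c j : 𝓞 K) : K)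
      rw [hBr]
  have hdet1 : ‖(Matrix.of fun i j => ℓ (E i) ((B.reindex gg.symm) j)).det‖ =
      (∏ σ : L →+* ℂ, max 1 ‖σ r‖) * ‖(conjMat E₁ εB).det‖ *
        ‖(conjMat E₂ (fun q => (c q : 𝓞 K))).det‖ := by
    have h1 : (Matrix.of fun i j => ℓ (E i) ((B.reindex gg.symm) j)) =
        (Matrix.of fun i j : ιW ⊕ Q => ℓ (E' i) (B j)).submatrix gg gg := by
      ext i j
      simp [E, Basis.reindex_apply]
    rw [h1, Matrix.det_submatrix_equiv_self, hM1, Matrix.det_fromBlocks_zero₂₁, norm_mul,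
      Matrix.det_mul_column, norm_mul, norm_prod]
    congr 2
    rw [← Equiv.prod_comp E₁]
    exact Finset.prod_congr rfl fun i _ => hgn _
  -- lower bounds
  have hcli : LinearIndependent ℤ (fun q => (c q : 𝓞 K)) :=
    c.linearIndependent.map' (Submodule.subtype _) (Submodule.ker_subtype _)
  have hcI : ∀ q, (c q : 𝓞 K) ∈ I := by
    intro q
    rw [← hBr q, htot, comb_apply]
    refine Ideal.sum_mem _ fun i _ => ?_
    rw [Algebra.smul_def]
    exact I.mul_mem_left _ (hηI i)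
  have hlowK := det_lower E₂ I (fun q => (c q : 𝓞 K)) hcI hcli
  have hεli : LinearIndependent ℤ εB := by
    rw [Fintype.linearIndependent_iff]
    intro z hz
    have h1 : ε (∑ b, z b • B (Sum.inl b)) = 0 := by
      rw [map_sum, ← hz]
      exact Finset.sum_congr rfl fun b _ => by rw [map_zsmul]
    have h2 : tot (∑ b, z b • B (Sum.inl b)) = 0 := by
      rw [map_sum]
      exact Finset.sum_eq_zero fun b _ => by rw [map_zsmul, hBker, smul_zero]
    have h3 := hεker _ h2 h1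
    have h4 : LinearIndependent ℤ (fun b => B (Sum.inl b)) :=
      B.linearIndependent.comp _ Sum.inl_injective
    exact Fintype.linearIndependent_iff.1 h4 z h3
  have hlowL := lower_height E₁ εB hεli r (fun b => hεr _ (hBker b))
  -- the upper bound
  have hrows : ∏ r', ∑ j, ‖m r' j‖ ^ 2 ≤
      (N : ℝ) ^ finrank ℚ L * ∏ σ : K →+* ℂ, ∑ c, ‖σ (η c)‖ ^ 2 := by
    rw [Fintype.prod_sum_type]
    refine mul_le_mul ?_ (le_of_eq ?_) (Finset.prod_nonneg fun _ _ => by positivity)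
      (by positivity)
    · calc ∏ σ : L →+* ℂ, ∑ j, ‖m (Sum.inl σ) j‖ ^ 2 ≤ ∏ _σ : L →+* ℂ, (N : ℝ) :=
            Finset.prod_le_prod (fun _ _ => by positivity) (fun σ _ => hN σ)
        _ = _ := by rw [Finset.prod_const, Finset.card_univ, Embeddings.card]
    · refine Finset.prod_congr rfl fun σ _ => Finset.sum_congr rfl fun j _ => ?_
      show ‖σ (tot (Pi.single j 1))‖ ^ 2 = _
      rw [htot, comb_single]
  rw [hdet1] at hup
  have h0 : 0 ≤ |(discr L : ℝ)| * mulHeight₁ r ^ 2 := by positivity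
  calc |(discr L : ℝ)| * mulHeight₁ r ^ 2 * ((I.absNorm : ℝ) ^ 2 * |(discr K : ℝ)|)
      ≤ ((∏ σ : L →+* ℂ, max 1 ‖σ r‖) ^ 2 * ‖(conjMat E₁ εB).det‖ ^ 2) *
        ‖(conjMat E₂ (fun q => (c q : 𝓞 K))).det‖ ^ 2 :=
        mul_le_mul hlowL hlowK (by positivity) (by positivity)
    _ = ((∏ σ : L →+* ℂ, max 1 ‖σ r‖) * ‖(conjMat E₁ εB).det‖ *
        ‖(conjMat E₂ (fun q => (c q : 𝓞 K))).det‖) ^ 2 := by ring
    _ ≤ _ := hup
    _ ≤ _ := mul_le_mul_of_nonneg_left hrows (by positivity)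

end Pool.Agent.Y730.RF
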