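import Mathlib
import Pool.Agent.Y730.RF.Step3M

/-!
# Step 3 relative to a number field: the inequality
-/

set_option autoImplicit false

open NumberField Module Height Polynomial

namespace Pool.Agent.Y730.RF

open Pool.Agent.Y730.RD (conjMat det_lower li_iff prod_max_eq det_basis_change)

variable {F K L : Type*} [Field F] [NumberField F] [Field K] [NumberField K] [Algebra F K]
  [Field L] [NumberField L] [Algebra F L]

set_option maxHeartbeats 1000000 in
/-- **Step 3** relative to a number field. -/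
theorem step3F {n S T e : ℕ} (hn : finrank F K = n) (hL : finrank F L = S) (θ : 𝓞 K) (ρ A : ℝ)
    (hρ1 : 1 ≤ ρ) (hA : ρ ^ n ≤ A) (hρ : ∀ σ : K →+* ℂ, ‖σ θ‖ = ρ)
    (hgen : LinearIndependent F (fun i : Fin n => (θ : K) ^ (i : ℕ)))
    (hgen' : ∀ f : F[X], f.natDegree < n → aeval (θ : K) f = 0 → f = 0)
    (x y : 𝓞 K) (hy : y ≠ 0) (P₀ P₁ : F[X]) (hP₀ : P₀ ≠ 0) (hP₁ : P₁ ≠ 0)
    (hrel : IsRelPrime P₀ P₁) (he : e = max P₀.natDegree P₁.natDegree)
    (hP : aeval (θ : K) P₀ * y = aeval (θ : K) P₁ * x) (hTe : S + e = T) (hT : T + e ≤ n)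
    (hS : 0 < S) (ζ : 𝓞 L) (hζ : ∀ σ : L →+* ℂ, ‖σ ζ‖ = 1)
    (hζgen : ∀ f : F[X], f.natDegree < S → aeval (ζ : L) f = 0 → f = 0)
    (hP₁ζ : aeval (ζ : L) P₁ ≠ 0) :
    |(discr L : ℝ)| * mulHeight₁ (aeval (ζ : L) P₀ / aeval (ζ : L) P₁) ^ 2 * |(discr K : ℝ)| ≤
      |(discr F : ℝ)| ^ (S + n) * ((T : ℝ) ^ finrank ℚ L *
        (((n + S : ℕ) : ℝ) * A ^ 2) ^ finrank ℚ K) * mulHeight₁ ((x : K) / (y : K)) ^ 2 := by
  classical
  have hfd : FiniteDimensional F K := FiniteDimensional.right ℚ F K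
  have hyK : (y : K) ≠ 0 := by exact_mod_cast hy
  have hρ0 : 0 < ρ := by linarith
  have hA0 : 0 < A := lt_of_lt_of_le (by positivity) hA
  set v : Fin T ⊕ Fin T → K := Sum.elim (fun b : Fin T => (θ : K) ^ (b : ℕ) * y)
      (fun b : Fin T => (θ : K) ^ (b : ℕ) * x) with hv
  obtain ⟨J, κ', hκ'f, a, hU, hκ', hli, hsep⟩ := exists_complement hn (θ : K) hgen (y : K) hyK v
  have hrk := finrank_pairs (θ : K) x y hyK hgen' P₀ P₁ hP₀ hP₁ hrel he hP hTe hT hS
  change finrank F (Submodule.span F (Set.range v)) + S = T + T at hrk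
  have hcardJ : T + T + J.card = S + n := by omega
  let ι : Type := (Fin T ⊕ Fin T) ⊕ J
  have hι : Fintype.card ι = finrank F L + finrank F K := by
    rw [Fintype.card_sum, Fintype.card_sum, Fintype.card_fin, Fintype.card_coe, hL, hn]
    exact hcardJ
  let η : ι → 𝓞 K := Sum.elim (Sum.elim (fun b : Fin T => θ ^ (b : ℕ) * y)
      (fun b : Fin T => θ ^ (b : ℕ) * x)) (fun j : J => θ ^ ((j : Fin n) : ℕ) * y)
  let tot : (ι → 𝓞 F) →ₗ[ℤ] 𝓞 K := comb η
  set I : Ideal (𝓞 K) := Ideal.span {x, y} with hI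
  have hxI : x ∈ I := Ideal.subset_span (by simp)
  have hyI : y ∈ I := Ideal.subset_span (by simp)
  have hηI : ∀ c, η c ∈ I := by
    rintro ((b | b) | j)
    · exact I.mul_mem_left _ hyI
    · exact I.mul_mem_left _ hxI
    · exact I.mul_mem_left _ hyI
  -- the rank of the image
  let ω := RingOfIntegers.basis F
  have hcardκ : Fintype.card (Free.ChooseBasisIndex ℤ (𝓞 F)) = finrank ℚ F := by
    rw [← Module.finrank_eq_card_basis ω, RingOfIntegers.rank]
  have hrank : finrank ℤ (LinearMap.range tot) = finrank ℚ K := by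
    apply le_antisymm
    · rw [← RingOfIntegers.rank K]
      exact Submodule.finrank_le _
    · let a' : κ' ⊕ J → ι := Sum.map a id
      have hli2 : LinearIndependent F (fun i => ((η (a' i) : 𝓞 K) : K)) := by
        convert hli using 1
        funext i
        rcases i with i | j
        · simp only [a', Sum.map_inl, Sum.elim_inl, η, hv]
          rcases a i with b | b
          · simp
          · simp
        · simp [a', η]
      have hli3 := li_products ω (fun i => η (a' i)) hli2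
      let fam : (Free.ChooseBasisIndex ℤ (𝓞 F)) × (κ' ⊕ J) → LinearMap.range tot := fun p =>
        ⟨algebraMap (𝓞 F) (𝓞 K) (ω p.1) * η (a' p.2), by
          refine ⟨ω p.1 • (Pi.single (a' p.2) 1 : ι → 𝓞 F), ?_⟩
          show comb η _ = _
          rw [comb_smul, comb_single, Algebra.smul_def]⟩
      have hli4 : LinearIndependent ℤ fam := by
        apply LinearIndependent.of_comp (Submodule.subtype _)
        exact hli3
      have h5 := hli4.fintype_card_le_finrank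
      rw [Fintype.card_prod, Fintype.card_sum, Fintype.card_coe, hκ', hcardκ] at h5
      rw [← finrank_mul_finrank ℚ F K, hn]
      exact h5
  -- evaluation at `ζ`
  let z₀ : ι → 𝓞 L := Sum.elim (Sum.elim (fun b : Fin T => ζ ^ (b : ℕ)) (fun _ => 0)) (fun _ => 0)
  let z₁ : ι → 𝓞 L := Sum.elim (Sum.elim (fun _ => 0) (fun b : Fin T => ζ ^ (b : ℕ))) (fun _ => 0)
  set r : L := aeval (ζ : L) P₀ / aeval (ζ : L) P₁ with hr
  let evs : (L →+* ℂ) → (ι → 𝓞 F) →ₗ[ℤ] 𝓞 L := fun σ => if ‖σ r‖ ≤ 1 then comb z₁ else comb z₀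
  have hevs : ∀ σ (a : 𝓞 F) v, evs σ (a • v) = a • evs σ v := by
    intro σ a v
    by_cases h : ‖σ r‖ ≤ 1
    · simp only [evs, if_pos h, comb_smul]
    · simp only [evs, if_neg h, comb_smul]
  have hN : ∀ σ : L →+* ℂ, ∑ c, ‖σ (evs σ (Pi.single c 1))‖ ^ 2 ≤ (T : ℝ) := by
    intro σ
    rw [Fintype.sum_sum_type, Fintype.sum_sum_type]
    by_cases h : ‖σ r‖ ≤ 1
    · simp [evs, if_pos h, comb_single, z₁, hζ]
    · simp [evs, if_neg h, comb_single, z₀, hζ]
  have hcoe0 : ∀ w : ι → 𝓞 F, ((comb z₀ w : 𝓞 L) : L) =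
      aeval (ζ : L) (pol (fun b : Fin T => (w (Sum.inl (Sum.inl b)) : F))) := by
    intro w
    rw [comb_coe, pol_aeval, Fintype.sum_sum_type, Fintype.sum_sum_type]
    simp [z₀]
  have hcoe1 : ∀ w : ι → 𝓞 F, ((comb z₁ w : 𝓞 L) : L) =
      aeval (ζ : L) (pol (fun b : Fin T => (w (Sum.inl (Sum.inr b)) : F))) := by
    intro w
    rw [comb_coe, pol_aeval, Fintype.sum_sum_type, Fintype.sum_sum_type]
    simp [z₁]
  have hTpos : 0 < T := by omega
  -- the structure of the kernel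
  have hker : ∀ w : ι → 𝓞 F, tot w = 0 → (∀ j, w (Sum.inr j) = 0) ∧ ∃ H : F[X], H.natDegree < S ∧
      pol (fun b : Fin T => (w (Sum.inl (Sum.inl b)) : F)) = H * P₀ ∧
      pol (fun b : Fin T => (w (Sum.inl (Sum.inr b)) : F)) = -(H * P₁) := by
    intro w hw
    have h1 : ∑ c, (w c : F) • ((η c : 𝓞 K) : K) = 0 := by
      rw [← comb_coe]
      have : comb η w = 0 := hw
      rw [this]
      rfl
    rw [Fintype.sum_sum_type] at h1
    have h2 := hsep (fun i => (w (Sum.inl i) : F)) (fun j => (w (Sum.inr j) : F)) (by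
      convert h1 using 2
      · refine Finset.sum_congr rfl fun i _ => ?_
        rcases i with b | b
        · simp [η, hv]
        · simp [η, hv]
      · refine Finset.sum_congr rfl fun j _ => ?_
        simp [η])
    refine ⟨fun j => ?_, ?_⟩
    · have h3 : (w (Sum.inr j) : F) = 0 := congrFun h2.2 j
      exact_mod_cast h3
    · refine ker_struct (θ : K) x y hyK hgen' P₀ P₁ hP₀ hP₁ hrel he hP hTe hT _ _
        (pol_degree hTpos _) (pol_degree hTpos _) ?_ hS
      rw [pol_aeval, pol_aeval, Finset.sum_mul, Finset.sum_mul]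
      have h3 := h2.1
      rw [Fintype.sum_sum_type] at h3
      simp only [hv, Sum.elim_inl, Sum.elim_inr] at h3
      simp only [smul_mul_assoc]
      exact h3
  have hεker : ∀ w, tot w = 0 → comb (K := L) z₁ w = 0 → w = 0 := by
    intro w hw h1
    obtain ⟨hJ0, H, hHS, hA0, hA1⟩ := hker w hw
    have h2 := hcoe1 w
    rw [h1, hA1, map_neg, map_mul] at h2
    have h3 : aeval (ζ : L) H = 0 := by
      have h4 : aeval (ζ : L) H * aeval (ζ : L) P₁ = 0 := by
        have : ((0 : 𝓞 L) : L) = 0 := rfl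
        rw [this] at h2
        exact neg_eq_zero.1 h2.symm
      exact (mul_eq_zero.1 h4).resolve_right hP₁ζ
    have h4 := hζgen H hHS h3
    rw [h4, zero_mul] at hA0 hA1
    rw [neg_zero] at hA1
    funext c
    rcases c with (b | b) | j
    · have h5 := pol_coeff (fun b : Fin T => (w (Sum.inl (Sum.inl b)) : F)) b
      rw [hA0, coeff_zero] at h5
      exact_mod_cast h5.symm
    · have h5 := pol_coeff (fun b : Fin T => (w (Sum.inl (Sum.inr b)) : F)) b
      rw [hA1, coeff_zero] at h5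
      exact_mod_cast h5.symm
    · exact hJ0 j
  have hrel' : ∀ w, tot w = 0 → ((comb (K := L) z₀ w : 𝓞 L) : L) =
      -(r * ((comb (K := L) z₁ w : 𝓞 L) : L)) := by
    intro w hw
    obtain ⟨-, H, -, hA0, hA1⟩ := hker w hw
    rw [hcoe0, hcoe1, hA0, hA1, map_neg, map_mul, map_mul, hr]
    field_simp
  have hεr : ∀ w, tot w = 0 → ∃ t : 𝓞 L, (t : L) = ((comb (K := L) z₁ w : 𝓞 L) : L) * r := by
    intro w hw
    refine ⟨-(comb z₀ w), ?_⟩
    have h1 : ((-(comb (F := F) z₀ w) : 𝓞 L) : L) = -((comb (K := L) z₀ w : 𝓞 L) : L) :=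
      map_neg (algebraMap (𝓞 L) L) _
    rw [h1, hrel' w hw]
    ring
  have hg : ∃ g : (L →+* ℂ) → ℂ, (∀ σ, ‖g σ‖ = max 1 ‖σ r‖) ∧
      ∀ σ w, tot w = 0 → σ (evs σ w) = g σ * σ (comb (K := L) z₁ w) := by
    refine ⟨fun σ => if ‖σ r‖ ≤ 1 then 1 else -σ r, fun σ => ?_, fun σ w hw => ?_⟩
    · by_cases h : ‖σ r‖ ≤ 1
      · simp only [if_pos h, norm_one, max_eq_left h]
      · simp only [if_neg h, norm_neg, max_eq_right (not_le.1 h).le]
    · by_cases h : ‖σ r‖ ≤ 1
      · simp only [evs, if_pos h, one_mul]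
      · simp only [evs, if_neg h]
        rw [hrel' w hw, map_neg, map_mul]
        ring
  have hmain := det_ineq hι η tot rfl evs hevs hN I hηI hrank (comb z₁) hεker r hεr hg
  -- the upper bound for the rows
  let μ : (K →+* ℂ) → ℝ := fun σ => max ‖σ x‖ ‖σ y‖
  have hμ : ∀ σ, 0 ≤ μ σ := fun σ => le_max_of_le_left (norm_nonneg _)
  have hpowA : ∀ b : ℕ, b < n → ρ ^ b ≤ A := fun b hb =>
    (pow_le_pow_right₀ hρ1 hb.le).trans hA
  have hrow : ∏ σ : K →+* ℂ, ∑ c, ‖σ (η c)‖ ^ 2 ≤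
      (((n + S : ℕ) : ℝ) * A ^ 2) ^ finrank ℚ K * (∏ σ, μ σ) ^ 2 := by
    have h6 : (((n + S : ℕ) : ℝ) * A ^ 2) ^ finrank ℚ K * (∏ σ, μ σ) ^ 2 =
        ∏ σ : K →+* ℂ, ((((n + S : ℕ) : ℝ) * A ^ 2) * (μ σ) ^ 2) := by
      rw [Finset.prod_mul_distrib, Finset.prod_const, Finset.card_univ, Finset.prod_pow,
        Embeddings.card]
    rw [h6]
    refine Finset.prod_le_prod (fun σ _ => by positivity) (fun σ _ => ?_)
    have hb : ∀ c, ‖σ (η c)‖ ^ 2 ≤ A ^ 2 * μ σ ^ 2 := by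
      intro c
      rw [← mul_pow]
      refine pow_le_pow_left₀ (norm_nonneg _) ?_ 2
      rcases c with (b | b) | j
      · simp only [η, Sum.elim_inl, map_mul, map_pow, norm_mul, norm_pow, hρ]
        exact mul_le_mul (hpowA _ (by omega)) (le_max_right _ _) (norm_nonneg _) hA0.le
      · simp only [η, Sum.elim_inl, Sum.elim_inr, map_mul, map_pow, norm_mul, norm_pow, hρ]
        exact mul_le_mul (hpowA _ (by omega)) (le_max_left _ _) (norm_nonneg _) hA0.le
      · simp only [η, Sum.elim_inr, map_mul, map_pow, norm_mul, norm_pow, hρ]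
        exact mul_le_mul (hpowA _ (Fin.is_lt _)) (le_max_right _ _) (norm_nonneg _) hA0.le
    calc ∑ c, ‖σ (η c)‖ ^ 2 ≤ ∑ _c : ι, A ^ 2 * μ σ ^ 2 := Finset.sum_le_sum fun c _ => hb c
      _ = ((n + S : ℕ) : ℝ) * A ^ 2 * μ σ ^ 2 := by
          rw [Finset.sum_const, Finset.card_univ, nsmul_eq_mul, hι, hL, hn, mul_assoc, add_comm S n]
  have hNI : (0 : ℝ) < (I.absNorm : ℝ) := by
    have : I.absNorm ≠ 0 := by
      rw [Ne, Ideal.absNorm_eq_zero_iff]
      intro h
      rw [h, Ideal.mem_bot] at hyI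
      exact hy hyI
    exact_mod_cast Nat.pos_of_ne_zero this
  have hprod : ∏ σ, μ σ = (I.absNorm : ℝ) * mulHeight₁ ((x : K) / (y : K)) := prod_max_eq x y hy
  rw [hprod] at hrow
  have h5 : (0 : ℝ) < (I.absNorm : ℝ) ^ 2 := by positivity
  refine le_of_mul_le_mul_left ?_ h5
  rw [hL, hn] at hmain
  calc (I.absNorm : ℝ) ^ 2 * (|(discr L : ℝ)| * mulHeight₁ r ^ 2 * |(discr K : ℝ)|)
      = |(discr L : ℝ)| * mulHeight₁ r ^ 2 * ((I.absNorm : ℝ) ^ 2 * |(discr K : ℝ)|) := by ring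
    _ ≤ _ := hmain
    _ ≤ |(discr F : ℝ)| ^ (S + n) * ((T : ℝ) ^ finrank ℚ L *
        ((((n + S : ℕ) : ℝ) * A ^ 2) ^ finrank ℚ K *
          ((I.absNorm : ℝ) * mulHeight₁ ((x : K) / (y : K))) ^ 2)) := by
        refine mul_le_mul_of_nonneg_left ?_ (by positivity)
        exact mul_le_mul_of_nonneg_left hrow (by positivity)
    _ = _ := by ring

end Pool.Agent.Y730.RF
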