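import Mathlib
import Pool.Agent.Y730.RD.Large
import Pool.Agent.Y730.RF.Step3G

/-!
# Small points of `F(a^{1/n})` over a number field `F`
-/

set_option autoImplicit false

open NumberField Module Height Polynomial

namespace Pool.Agent.Y730.RF

open Pool.Agent.Y730.RD (log_facts)

lemma gen_polyF {F R : Type*} [Field F] [CommRing R] [Algebra F R] {n : ℕ} (θ : R)
    (hgen : LinearIndependent F (fun i : Fin n => θ ^ (i : ℕ))) (f : F[X])
    (hf : f.natDegree < n) (h0 : aeval θ f = 0) : f = 0 := by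
  rw [aeval_eq_sum_range' hf, ← Fin.sum_univ_eq_sum_range (fun i => f.coeff i • θ ^ i) n] at h0
  rw [Fintype.linearIndependent_iff] at hgen
  have h1 := hgen (fun i => f.coeff i) h0
  ext i
  rw [coeff_zero]
  by_cases hi : i < n
  · exact h1 ⟨i, hi⟩
  · exact coeff_eq_zero_of_natDegree_lt (by omega)

/-- the last step: a quotient of polynomials with monomial value at a root of unity of large
order is a monomial -/
lemma monomial_end {F K L : Type*} [Field F] [Field K] [Algebra F K] [Field L] [Algebra F L]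
    {s e : ℕ} (hs : 2 * e + 4 < s) (ζ : L) (hζs : ζ ^ s = 1)
    (hζgen : ∀ f : F[X], f.natDegree < s - 1 → aeval ζ f = 0 → f = 0)
    (P₀ P₁ : F[X]) (hP₀ : P₀ ≠ 0) (hP₁ : P₁ ≠ 0) (hrel : IsRelPrime P₀ P₁)
    (h0 : P₀.natDegree ≤ e) (h1 : P₁.natDegree ≤ e) (c : F) (j : ℕ)
    (hj : aeval ζ P₀ / aeval ζ P₁ = algebraMap F L c * ζ ^ j) (θ α : K)
    (hα : α = aeval θ P₀ / aeval θ P₁) (hθ₀ : aeval θ P₀ ≠ 0) (hθ₁ : aeval θ P₁ ≠ 0) :
    c ≠ 0 ∧ ∃ i, i ≤ e ∧ (α = algebraMap F K c * θ ^ i ∨ α * θ ^ i = algebraMap F K c) := by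
  have hζ0 : ζ ≠ 0 := by
    rintro rfl
    rw [zero_pow (by omega)] at hζs
    exact zero_ne_one hζs
  have hP₀ζ : aeval ζ P₀ ≠ 0 := fun h => hP₀ (hζgen P₀ (by omega) h)
  have hP₁ζ : aeval ζ P₁ ≠ 0 := fun h => hP₁ (hζgen P₁ (by omega) h)
  have hc : c ≠ 0 := by
    rintro rfl
    rw [map_zero, zero_mul] at hj
    exact div_ne_zero hP₀ζ hP₁ζ hj
  have hjmod : ζ ^ j = ζ ^ (j % s) := by
    conv_lhs => rw [← Nat.div_add_mod j s, pow_add, pow_mul, hζs, one_pow, one_mul]
  rw [hjmod] at hj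
  set l := j % s with hl
  have hls : l < s := Nat.mod_lt _ (by omega)
  refine ⟨hc, ?_⟩
  have hj' : aeval ζ P₀ = algebraMap F L c * ζ ^ l * aeval ζ P₁ := by
    rw [← hj, div_mul_cancel₀ _ hP₁ζ]
  by_cases h2 : 2 * l ≤ s
  · -- `P₀ = c X^l P₁`
    have hpoly : P₀ - C c * X ^ l * P₁ = 0 := by
      apply hζgen
      · refine lt_of_le_of_lt (natDegree_sub_le _ _) (max_lt (by omega) ?_)
        have h3 : (C c * X ^ l * P₁).natDegree ≤ l + P₁.natDegree :=
          natDegree_mul_le.trans (Nat.add_le_add_right (natDegree_C_mul_X_pow_le c l) _)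
        omega
      · rw [map_sub, map_mul, map_mul, map_pow, aeval_X, aeval_C, hj']
        ring
    have hP : P₀ = C c * X ^ l * P₁ := sub_eq_zero.1 hpoly
    have hdeg : P₀.natDegree = l + P₁.natDegree := by
      rw [hP, natDegree_mul (mul_ne_zero (C_ne_zero.2 hc) (pow_ne_zero _ X_ne_zero)) hP₁,
        natDegree_C_mul_X_pow _ _ hc]
    refine ⟨l, by omega, Or.inl ?_⟩
    rw [hα, hP, map_mul, map_mul, map_pow, aeval_X, aeval_C, mul_div_assoc, div_self hθ₁, mul_one]
  · -- `X^(s-l) P₀ = c P₁`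
    have hpow : ζ ^ (s - l) * ζ ^ l = 1 := by
      rw [← pow_add, Nat.sub_add_cancel hls.le, hζs]
    have hpoly : X ^ (s - l) * P₀ - C c * P₁ = 0 := by
      apply hζgen
      · have h3 : (C c * P₁).natDegree ≤ P₁.natDegree := natDegree_C_mul_le c P₁
        have h4 : (X ^ (s - l) * P₀).natDegree ≤ (s - l) + P₀.natDegree :=
          natDegree_mul_le.trans (Nat.add_le_add_right (natDegree_X_pow_le _) _)
        exact lt_of_le_of_lt (natDegree_sub_le _ _) (max_lt (by omega) (by omega))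
      · rw [map_sub, map_mul, map_mul, map_pow, aeval_X, aeval_C, hj']
        linear_combination (algebraMap F L c) * aeval ζ P₁ * hpow
    have hP : X ^ (s - l) * P₀ = C c * P₁ := sub_eq_zero.1 hpoly
    have hdeg : (s - l) + P₀.natDegree = P₁.natDegree := by
      have := congrArg natDegree hP
      rw [natDegree_mul (pow_ne_zero _ X_ne_zero) hP₀, natDegree_X_pow,
        natDegree_C_mul hc] at this
      exact this
    refine ⟨s - l, by omega, Or.inr ?_⟩
    have h5 := congrArg (aeval θ) hP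
    rw [map_mul, map_mul, map_pow, aeval_X, aeval_C] at h5
    rw [hα, div_mul_eq_mul_div, mul_comm, h5, mul_div_assoc, div_self hθ₁, mul_one]

end Pool.Agent.Y730.RF
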