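import Mathlib
import Pool.Agent.Y730.RF.MainF

/-!
# Small points of `F(a^{1/n})` over a number field `F`: the main step
-/

set_option autoImplicit false

open NumberField Module Height Polynomial

namespace Pool.Agent.Y730.RF

open Pool.Agent.Y730.RD (log_facts)

variable {F K L : Type*} [Field F] [NumberField F] [Field K] [NumberField K] [Algebra F K]
  [Field L] [NumberField L] [Algebra F L]

lemma log_small {s n : ℝ} (hs : 0 < s) (hsn : 3 * s ≤ n) (hn : 100 ≤ n) :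
    Real.log s ≤ 0.053 * n := by
  have h1 : Real.log s = Real.log (s / 8) + 3 * Real.log 2 := by
    have h2 : (s : ℝ) = s / 8 * 2 ^ 3 := by ring
    conv_lhs => rw [h2]
    rw [Real.log_mul (by positivity) (by positivity), Real.log_pow]
    push_cast
    ring
  have h3 := Real.log_le_sub_one_of_pos (show (0 : ℝ) < s / 8 by positivity)
  have h4 := log_facts.2.1
  rw [h1]
  linarith

/-- powers of elements of small height are represented by polynomials of degree `< n / 3` -/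
theorem dependent {n a : ℕ} (hn : finrank F K = n) (hn100 : 100 ≤ n) (ha : 2 ≤ a) (θ : 𝓞 K)
    (ρ : ℝ) (hρ1 : 1 ≤ ρ) (hρn : ρ ^ n = a) (hρ : ∀ σ : K →+* ℂ, ‖σ θ‖ = ρ)
    (hgen : LinearIndependent F (fun i : Fin n => (θ : K) ^ (i : ℕ)))
    (Λ : ℝ) (hΛ : 1 ≤ Λ) (hΛ' : 40 * Real.log Λ ≤ n * Real.log a)
    (hD : |(discr F : ℝ)| ^ n * ((n : ℝ) ^ n * (a : ℝ) ^ (n - 1)) ^ finrank ℚ F ≤
      |(discr K : ℝ)| * (Λ ^ 2) ^ finrank ℚ F)
    (x y : 𝓞 K) (hy : y ≠ 0)
    (hH : 1000 * Real.log (mulHeight₁ ((x : K) / (y : K))) ≤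
      21.2 * (Real.log a * (finrank ℚ F * n))) :
    ¬ LinearIndependent F (Sum.elim (fun b : Fin (n / 3) => (θ : K) ^ (b : ℕ) * x)
      (fun b : Fin (n / 3) => (θ : K) ^ (b : ℕ) * y)) := by
  intro hli
  obtain ⟨hl2, hl2', hl3⟩ := log_facts
  set T := n / 3 with hT
  set d := finrank ℚ F with hd
  have hd0 : (0 : ℝ) < d := by exact_mod_cast (finrank_pos : 0 < finrank ℚ F)
  have hn0 : 0 < n := by omega
  have hnr : (0 : ℝ) < n := by exact_mod_cast hn0
  have ha0 : (0 : ℝ) < a := by positivity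
  set La := Real.log a with hLa
  have hL2 : 0.6931 < La := by
    have : Real.log 2 ≤ La := Real.log_le_log (by norm_num) (by exact_mod_cast ha)
    linarith
  have hρ0 : 0 < ρ := by linarith
  have hlogρ : n * Real.log ρ = La := by
    rw [← Real.log_pow, hρn]
  have hT10 : (n : ℝ) ^ 2 ≤ 10 * (T * (T + 1) : ℕ) := by
    have h1 : n ≤ 3 * T + 2 := by omega
    have h2 : n ^ 2 ≤ 10 * (T * (T + 1)) := by nlinarith
    exact_mod_cast h2
  have h1 := step1 hn θ ρ hρ1 hρn hρ hgen x y hy hli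
  set H := mulHeight₁ ((x : K) / (y : K)) with hHdef
  have hH1 : 1 ≤ H := one_le_mulHeight₁ _
  have hH0 : 0 < H := by linarith
  set lH := Real.log H with hlH
  have hdF : (0 : ℝ) < |(discr F : ℝ)| := by
    rw [abs_pos]
    exact_mod_cast NumberField.discr_ne_zero F
  set Dc := |(discr F : ℝ)| ^ n * ((n : ℝ) ^ n * (a : ℝ) ^ (n - 1)) ^ d with hDc
  have hDc0 : 0 < Dc := by positivity
  have h3 : ρ ^ (d * (T * (T + 1))) ≤ (Λ ^ 2) ^ d * H ^ 2 := by
    refine le_of_mul_le_mul_left ?_ hDc0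
    calc Dc * ρ ^ (d * (T * (T + 1))) ≤ (|(discr K : ℝ)| * (Λ ^ 2) ^ d) * ρ ^ (d * (T * (T + 1))) :=
          mul_le_mul_of_nonneg_right hD (by positivity)
      _ = (|(discr K : ℝ)| * ρ ^ (d * (T * (T + 1)))) * (Λ ^ 2) ^ d := by ring
      _ ≤ (Dc * H ^ 2) * (Λ ^ 2) ^ d := mul_le_mul_of_nonneg_right h1 (by positivity)
      _ = _ := by ring
  have h4 := Real.log_le_log (by positivity) h3
  rw [Real.log_mul (by positivity) (by positivity), Real.log_pow, Real.log_pow, Real.log_pow,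
    Real.log_pow, ← hlH] at h4
  set lΛ := Real.log Λ with hlΛ
  have hTr : (0 : ℝ) ≤ (T * (T + 1) : ℕ) := Nat.cast_nonneg _
  set TT : ℝ := ((T * (T + 1) : ℕ) : ℝ) with hTT
  have h5 : ((d * (T * (T + 1)) : ℕ) : ℝ) = d * TT := by
    rw [hTT]
    push_cast
    ring
  rw [h5] at h4
  push_cast at h4
  -- `d TT log ρ ≤ d (2 lΛ) + 2 lH`
  have h6 : d * TT * La ≤ n * (d * (2 * lΛ) + 2 * lH) := by
    calc d * TT * La = n * (d * TT * Real.log ρ) := by rw [← hlogρ]; ring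
      _ ≤ _ := mul_le_mul_of_nonneg_left h4 hnr.le
  have h7 : d * (n : ℝ) ^ 2 * La ≤ 10 * (d * TT * La) := by
    have : d * La * (n : ℝ) ^ 2 ≤ d * La * (10 * TT) :=
      mul_le_mul_of_nonneg_left hT10 (by positivity)
    linarith
  have h8 : d * ((n : ℝ) * La) ≤ 10 * (d * (2 * lΛ) + 2 * lH) := by
    refine le_of_mul_le_mul_left ?_ hnr
    linarith
  have h9 : d * (40 * lΛ) ≤ d * (n * La) := mul_le_mul_of_nonneg_left hΛ' hd0.le
  have h10 : 0 < d * ((n : ℝ) * La) := by positivity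
  linarith

/-- **Main step.** -/
theorem mainG {n a s : ℕ} (hn : finrank F K = n) (hn100 : 100 ≤ n) (ha : 2 ≤ a) (θ : 𝓞 K)
    (hθ : θ ^ n = a) (hgen : LinearIndependent F (fun i : Fin n => (θ : K) ^ (i : ℕ)))
    (Λ : ℝ) (hΛ : 1 ≤ Λ) (hΛ' : 40 * Real.log Λ ≤ n * Real.log a)
    (hD : |(discr F : ℝ)| ^ n * ((n : ℝ) ^ n * (a : ℝ) ^ (n - 1)) ^ finrank ℚ F ≤
      |(discr K : ℝ)| * (Λ ^ 2) ^ finrank ℚ F)
    (hs1 : n < 6 * s) (hs2 : 3 * s ≤ n) (hL : finrank F L = s - 1)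
    (ζ : 𝓞 L) (hζ : ζ ^ s = 1)
    (hζgen : ∀ f : F[X], f.natDegree < s - 1 → aeval (ζ : L) f = 0 → f = 0)
    (hDL : |(discr F : ℝ)| ^ (s - 1) * ((s : ℝ) ^ (s - 2)) ^ finrank ℚ F ≤ |(discr L : ℝ)|)
    (c₀ : ℝ) (hc₀ : 0 < c₀) (hc₁ : c₀ ≤ 1)
    (hstar : ∀ δ : L, δ ≠ 0 → Real.log (mulHeight₁ δ) < c₀ * finrank ℚ L →
      ∃ (c : F) (j : ℕ), δ = algebraMap F L c * (ζ : L) ^ j)
    (α : K) (hα : α ≠ 0) (hH : 4000 * Real.log (mulHeight₁ α) < c₀ * finrank ℚ K) :
    ∃ c : F, c ≠ 0 ∧ ∃ i : ℕ, 249 * (i * Real.log a) ≤ c₀ * n ∧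
      (α = algebraMap F K c * (θ : K) ^ i ∨ α * (θ : K) ^ i = algebraMap F K c) := by
  classical
  obtain ⟨hl2, hl2', hl3⟩ := log_facts
  have ha0 : (0 : ℝ) < a := by positivity
  have hn0 : 0 < n := by omega
  have hnr : (0 : ℝ) < n := by exact_mod_cast hn0
  have hn100r : (100 : ℝ) ≤ n := by exact_mod_cast hn100
  set La := Real.log a with hLa
  have hL2 : 0.6931 < La := by
    have : Real.log 2 ≤ La := Real.log_le_log (by norm_num) (by exact_mod_cast ha)
    linarith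
  set d := finrank ℚ F with hd
  have hd0 : (0 : ℝ) < d := by exact_mod_cast (finrank_pos : 0 < finrank ℚ F)
  have hdK : finrank ℚ K = d * n := by rw [← finrank_mul_finrank ℚ F K, hn]
  have hdL : finrank ℚ L = d * (s - 1) := by rw [← finrank_mul_finrank ℚ F L, hL]
  -- the absolute value of `θ`
  set ρ : ℝ := (a : ℝ) ^ ((n : ℝ)⁻¹) with hρdef
  have hρn : ρ ^ n = a := Real.rpow_inv_natCast_pow ha0.le hn0.ne'
  have hρ1 : 1 ≤ ρ := Real.one_le_rpow (by exact_mod_cast (by omega : 1 ≤ a)) (by positivity)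
  have hρ0 : 0 < ρ := by linarith
  have hρ : ∀ σ : K →+* ℂ, ‖σ θ‖ = ρ := by
    intro σ
    have h1 : ‖σ θ‖ ^ n = ρ ^ n := by
      rw [hρn, ← norm_pow, ← map_pow]
      have h2 : ((θ : K)) ^ n = ((a : ℕ) : K) := by
        have := congrArg (algebraMap (𝓞 K) K) hθ
        simpa using this
      rw [h2, map_natCast]
      simp
    exact (pow_left_inj₀ (norm_nonneg _) hρ0.le hn0.ne').1 h1
  have hζnorm : ∀ σ : L →+* ℂ, ‖σ ζ‖ = 1 := by
    intro σ
    have h1 : ‖σ ζ‖ ^ s = 1 := by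
      rw [← norm_pow, ← map_pow]
      have h2 : ((ζ : L)) ^ s = 1 := by
        have := congrArg (algebraMap (𝓞 L) L) hζ
        simpa using this
      rw [h2, map_one, norm_one]
    exact (pow_eq_one_iff_of_nonneg (norm_nonneg _) (by omega)).1 h1
  have hgen' := gen_polyF (θ : K) hgen
  -- numerator and denominator
  obtain ⟨x, y, hy, hxy⟩ := IsFractionRing.div_surjective (A := 𝓞 K) α
  have hy0 : y ≠ 0 := nonZeroDivisors.ne_zero hy
  have hyK : (y : K) ≠ 0 := by exact_mod_cast hy0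
  have hx0 : x ≠ 0 := by
    rintro rfl
    rw [map_zero, zero_div] at hxy
    exact hα hxy.symm
  have hxK : (x : K) ≠ 0 := by exact_mod_cast hx0
  have hxy' : (x : K) / (y : K) = α := hxy
  set H := mulHeight₁ α with hHdef
  have hH1 : 1 ≤ H := one_le_mulHeight₁ α
  have hH0 : 0 < H := by linarith
  set lH := Real.log H with hlH
  have hlH0 : 0 ≤ lH := Real.log_nonneg hH1
  rw [hdK] at hH
  push_cast at hH
  -- parameters
  set k := ⌈83 * La / c₀⌉₊ with hk
  have hk1 : 83 * La / c₀ ≤ k := Nat.le_ceil _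
  have hk1' : 83 * La ≤ k * c₀ := (div_le_iff₀ hc₀).1 hk1
  have hk2 : (k : ℝ) * c₀ ≤ 84.5 * La := by
    have h1 := Nat.ceil_lt_add_one (a := 83 * La / c₀) (by positivity)
    rw [← hk] at h1
    have h2 : (k : ℝ) * c₀ ≤ (83 * La / c₀ + 1) * c₀ := mul_le_mul_of_nonneg_right h1.le hc₀.le
    have h3 : (83 * La / c₀ + 1) * c₀ = 83 * La + c₀ := by field_simp
    rw [h3] at h2
    linarith
  have hkr0 : (0 : ℝ) ≤ k := Nat.cast_nonneg _
  have hk57 : 57 < k := by
    have h1 : 83 * La ≤ k := hk1'.trans (mul_le_of_le_one_right hkr0 hc₁)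
    have : (57 : ℝ) < k := by linarith
    exact_mod_cast this
  set T := n / 3 with hT
  -- dependence of the powers
  have hjH : ∀ j : ℕ, j ≤ k → 1000 * (j * lH) ≤ 21.2 * (La * (d * n)) := by
    intro j hjk
    have hjk' : (j : ℝ) ≤ k := by exact_mod_cast hjk
    have h1 : (j : ℝ) * lH ≤ k * (c₀ * (d * n) / 4000) := by
      have h2 : lH ≤ c₀ * (d * n) / 4000 := by linarith
      exact mul_le_mul hjk' h2 hlH0 hkr0
    have h3 : (k : ℝ) * (c₀ * (d * n) / 4000) = (k * c₀) * (d * n) / 4000 := by ring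
    have h4 : (k * c₀) * (d * n) ≤ (84.5 * La) * (d * n) :=
      mul_le_mul_of_nonneg_right hk2 (by positivity)
    have h5 : 0 < La * (d * n) := by positivity
    linarith
  have hpowxy : ∀ j : ℕ, ((x ^ j : 𝓞 K) : K) / ((y ^ j : 𝓞 K) : K) = α ^ j := by
    intro j
    rw [← hxy', div_pow]
    push_cast
    rfl
  have hdep : ∀ j, 1 ≤ j → j ≤ k → ∃ P₀ P₁ : F[X], Rep (θ : K) T ((x : K) ^ j) ((y : K) ^ j) P₀ P₁ := by
    intro j hj1 hjk
    apply rep_of_dependent (θ : K) hgen' (by omega) _ _ (pow_ne_zero _ hxK) (pow_ne_zero _ hyK)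
    have h1 := dependent hn hn100 ha θ ρ hρ1 hρn hρ hgen Λ hΛ hΛ' hD (x ^ j) (y ^ j)
      (pow_ne_zero _ hy0) (by
        rw [hpowxy, mulHeight₁_pow, ← hHdef, Real.log_pow]
        exact hjH j hjk)
    have h2 : ((x ^ j : 𝓞 K) : K) = (x : K) ^ j := map_pow (algebraMap (𝓞 K) K) x j
    have h3 : ((y ^ j : 𝓞 K) : K) = (y : K) ^ j := map_pow (algebraMap (𝓞 K) K) y j
    rw [h2, h3] at h1
    exact h1
  obtain ⟨P₀, P₁, hP⟩ := hdep 1 le_rfl (by omega)
  rw [pow_one, pow_one] at hP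
  have hboot := boot (k := k) (θ : K) hgen' (by omega : 3 * T ≤ n) (x : K) (y : K) hxK hyK hdep
    P₀ P₁ hP k (by omega) le_rfl
  obtain ⟨hP₀, hP₁, hrel, -, -, hPe⟩ := hP
  set e := max P₀.natDegree P₁.natDegree with he
  have hke : k * e < n / 3 := hboot
  have he57 : 57 * e ≤ k * e := Nat.mul_le_mul_right _ hk57.le
  have he0 : P₀.natDegree ≤ e := le_max_left _ _
  have he1 : P₁.natDegree ≤ e := le_max_right _ _
  have hP₀ζ : aeval (ζ : L) P₀ ≠ 0 := fun h => hP₀ (hζgen P₀ (by omega) h)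
  have hP₁ζ : aeval (ζ : L) P₁ ≠ 0 := fun h => hP₁ (hζgen P₁ (by omega) h)
  -- step 3
  have hmaxdeg : k * e = max (P₀ ^ k).natDegree (P₁ ^ k).natDegree := by
    rw [natDegree_pow, natDegree_pow, he, Nat.mul_max_mul_left]
  have h3 := step3F (S := s - 1) (T := s - 1 + k * e) (e := k * e) hn hL θ ρ (a : ℝ) hρ1 hρn.le hρ
    hgen hgen' (x ^ k) (y ^ k) (pow_ne_zero _ hy0) (P₀ ^ k) (P₁ ^ k) (pow_ne_zero _ hP₀)
    (pow_ne_zero _ hP₁) hrel.pow hmaxdeg
    (by
      have h2 : ((x ^ k : 𝓞 K) : K) = (x : K) ^ k := map_pow (algebraMap (𝓞 K) K) x k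
      have h3 : ((y ^ k : 𝓞 K) : K) = (y : K) ^ k := map_pow (algebraMap (𝓞 K) K) y k
      rw [h2, h3, map_pow, map_pow, ← mul_pow, ← mul_pow, hPe])
    rfl (by omega) (by omega) ζ hζnorm hζgen (by rw [map_pow]; exact pow_ne_zero _ hP₁ζ)
  set R : L := aeval (ζ : L) P₀ / aeval (ζ : L) P₁ with hR
  have hRk : aeval (ζ : L) (P₀ ^ k) / aeval (ζ : L) (P₁ ^ k) = R ^ k := by
    rw [map_pow, map_pow, ← div_pow]
  rw [hRk, mulHeight₁_pow, hpowxy, mulHeight₁_pow, ← hHdef, hdK, hdL] at h3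
  set HR := mulHeight₁ R with hHR
  have hHR1 : 1 ≤ HR := one_le_mulHeight₁ R
  have hHR0 : 0 < HR := by linarith
  set lR := Real.log HR with hlR
  have hsr : (0 : ℝ) < s := by exact_mod_cast (by omega : 0 < s)
  have hdF : (0 : ℝ) < |(discr F : ℝ)| := by
    rw [abs_pos]
    exact_mod_cast NumberField.discr_ne_zero F
  have hdKp : (0 : ℝ) < |(discr K : ℝ)| := by
    rw [abs_pos]
    exact_mod_cast NumberField.discr_ne_zero K
  have hdLp : (0 : ℝ) < |(discr L : ℝ)| := by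
    rw [abs_pos]
    exact_mod_cast NumberField.discr_ne_zero L
  have hΛ0 : 0 < Λ := by linarith
  set lF := Real.log |(discr F : ℝ)| with hlF
  set lK := Real.log |(discr K : ℝ)| with hlK
  set lL := Real.log |(discr L : ℝ)| with hlL
  set lΛ := Real.log Λ with hlΛ
  have hT0 : (0 : ℝ) < (s - 1 + k * e : ℕ) := by
    exact_mod_cast (by omega : 0 < s - 1 + k * e)
  have hns0 : (0 : ℝ) < (n + (s - 1) : ℕ) := by
    exact_mod_cast (by omega : 0 < n + (s - 1))
  set lT := Real.log (s - 1 + k * e : ℕ) with hlT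
  set lN := Real.log (n + (s - 1) : ℕ) with hlN
  have hc2 : lL + 2 * (k * lR) + lK ≤ ((s - 1 + n : ℕ) : ℝ) * lF +
      (d * (s - 1 : ℕ) * lT + d * n * (lN + 2 * La)) + 2 * (k * lH) := by
    have := Real.log_le_log (by positivity) h3
    rw [Real.log_mul (by positivity) (by positivity), Real.log_mul (by positivity) (by positivity),
      Real.log_mul (by positivity) (by positivity), Real.log_mul (by positivity) (by positivity),
      Real.log_mul (by positivity) (by positivity),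
      Real.log_pow, Real.log_pow, Real.log_pow, Real.log_pow, Real.log_pow, Real.log_pow,
      Real.log_pow, Real.log_mul (by positivity) (by positivity), Real.log_pow] at this
    rw [← hlL, ← hlK, ← hlF, ← hlT, ← hlN, ← hLa] at this
    push_cast at this ⊢
    linarith
  have hc3 : (n : ℝ) * lF + d * (n * Real.log n + ((n - 1 : ℕ) : ℝ) * La) ≤ lK + d * (2 * lΛ) := by
    have := Real.log_le_log (by positivity) hD
    rw [Real.log_mul (by positivity) (by positivity), Real.log_mul (by positivity) (by positivity),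
      Real.log_pow, Real.log_pow, Real.log_mul (by positivity) (by positivity), Real.log_pow,
      Real.log_pow, Real.log_pow, Real.log_pow] at this
    push_cast at this
    linarith
  have hc4 : ((s - 1 : ℕ) : ℝ) * lF + d * (((s - 2 : ℕ) : ℝ) * Real.log s) ≤ lL := by
    have := Real.log_le_log (by positivity) hDL
    rw [Real.log_mul (by positivity) (by positivity), Real.log_pow, Real.log_pow,
      Real.log_pow] at this
    exact this
  have hn1 : ((n - 1 : ℕ) : ℝ) = n - 1 := by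
    rw [Nat.cast_sub (by omega), Nat.cast_one]
  have hs1' : ((s - 1 : ℕ) : ℝ) = s - 1 := by
    rw [Nat.cast_sub (by omega), Nat.cast_one]
  have hs2' : ((s - 2 : ℕ) : ℝ) = s - 2 := by
    rw [Nat.cast_sub (by omega)]
    push_cast
    ring
  have hsn : ((s - 1 + n : ℕ) : ℝ) = (s - 1) + n := by
    rw [Nat.cast_add, hs1']
  rw [hn1] at hc3
  rw [hs1', hs2'] at hc4
  rw [hs1', hsn] at hc2
  -- elementary estimates
  have he1' : lT ≤ 2 * Real.log 2 + Real.log s := by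
    have h4 : lT ≤ Real.log (4 * s) := by
      apply Real.log_le_log hT0
      exact_mod_cast (by omega : s - 1 + k * e ≤ 4 * s)
    rw [Real.log_mul (by norm_num) hsr.ne', show (4 : ℝ) = 2 ^ 2 by norm_num, Real.log_pow] at h4
    push_cast at h4
    linarith
  have he2' : lN ≤ Real.log 2 / 2 + Real.log n := by
    have h4 : lN ≤ Real.log (4 / 3 * n) := by
      apply Real.log_le_log hns0
      have h5 : 3 * (n + (s - 1)) ≤ 4 * n := by omega
      have h6 : (3 : ℝ) * ((n + (s - 1) : ℕ) : ℝ) ≤ 4 * n := by exact_mod_cast h5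
      linarith
    rw [Real.log_mul (by norm_num) hnr.ne'] at h4
    have h5 : 2 * Real.log (4 / 3) ≤ Real.log 2 := by
      have h6 : Real.log ((4 / 3 : ℝ) ^ 2) ≤ Real.log 2 :=
        Real.log_le_log (by positivity) (by norm_num)
      rw [Real.log_pow] at h6
      push_cast at h6
      exact h6
    linarith
  have hs3 : 3 * (s : ℝ) ≤ n := by exact_mod_cast hs2
  have hlogs := log_small hsr hs3 hn100r
  have hkH := hjH k le_rfl
  -- `2 k lR ≤ d (…) + 2 k lH`
  have hd1 : (s - 1 : ℝ) * lT - (s - 2) * Real.log s ≤ n / 3 * (2 * Real.log 2) + 0.053 * n := by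
    have h4 : (s - 1 : ℝ) * lT ≤ (s - 1) * (2 * Real.log 2 + Real.log s) := by
      apply mul_le_mul_of_nonneg_left he1'
      have : (1 : ℝ) ≤ s := by exact_mod_cast (by omega : 1 ≤ s)
      linarith
    have h5 : (s : ℝ) * (2 * Real.log 2) ≤ n / 3 * (2 * Real.log 2) :=
      mul_le_mul_of_nonneg_right (by linarith) (by linarith)
    linarith
  have hd2 : (n : ℝ) * lN - n * Real.log n ≤ n * (Real.log 2 / 2) := by
    have := mul_le_mul_of_nonneg_left he2' hnr.le
    linarith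
  have hd3 : 2 * (k * lR) ≤ d * (((s - 1 : ℝ) * lT - (s - 2) * Real.log s) +
      (n * lN - n * Real.log n) + (n + 1) * La + 2 * lΛ) + 2 * (k * lH) := by
    linarith
  have hd4 : ((s - 1 : ℝ) * lT - (s - 2) * Real.log s) +
      (n * lN - n * Real.log n) + (n + 1) * La + 2 * lΛ ≤ 2.31 * (n * La) := by
    have h4 : (n + 1 : ℝ) * La ≤ 1.01 * n * La :=
      mul_le_mul_of_nonneg_right (by linarith) (by linarith)
    have h5 : (n : ℝ) * Real.log 2 ≤ n * 0.6932 := mul_le_mul_of_nonneg_left hl2'.le hnr.le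
    have h6 : (n : ℝ) * 0.6931 ≤ n * La := mul_le_mul_of_nonneg_left hL2.le hnr.le
    linarith
  have hd5 : 2 * (k * lR) ≤ 2.36 * (d * (n * La)) := by
    have h4 := mul_le_mul_of_nonneg_left hd4 hd0.le
    have h5 : 0 < d * (n * La) := by positivity
    linarith
  -- the height of `R` is small
  have hlR0 : 0 ≤ lR := Real.log_nonneg hHR1
  have hd6 : lR < c₀ * finrank ℚ L := by
    rw [hdL]
    push_cast
    rw [hs1']
    have h4 : (n : ℝ) / 7 ≤ s - 1 := by
      have h5 : n ≤ 7 * (s - 1) := by omega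
      have h6 : (n : ℝ) ≤ 7 * ((s - 1 : ℕ) : ℝ) := by exact_mod_cast h5
      rw [hs1'] at h6
      linarith
    -- `83 La lR ≤ k c₀ lR ≤ 1.18 d n La c₀`
    have h5 : 83 * La * lR ≤ (k * c₀) * lR := mul_le_mul_of_nonneg_right hk1' hlR0
    have h6 : (k * c₀) * lR ≤ 1.18 * (d * (n * La)) * c₀ := by
      have : (k * lR) * c₀ ≤ 1.18 * (d * (n * La)) * c₀ :=
        mul_le_mul_of_nonneg_right (by linarith) hc₀.le
      linarith
    have h7 : 83 * lR ≤ 1.18 * (d * n * c₀) := by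
      have hLa0 : 0 < La := by linarith
      refine le_of_mul_le_mul_left ?_ hLa0
      linarith
    have h8 : d * c₀ * (n / 7) ≤ d * c₀ * (s - 1) := mul_le_mul_of_nonneg_left h4 (by positivity)
    have h9 : 0 < d * n * c₀ := by positivity
    linarith
  obtain ⟨c, j, hcj⟩ := hstar R (div_ne_zero hP₀ζ hP₁ζ) hd6
  have hθ₀ : aeval (θ : K) P₀ ≠ 0 := fun h => hP₀ (hgen' P₀ (by omega) h)
  have hθ₁ : aeval (θ : K) P₁ ≠ 0 := fun h => hP₁ (hgen' P₁ (by omega) h)
  have hαR : α = aeval (θ : K) P₀ / aeval (θ : K) P₁ := by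
    rw [← hxy', div_eq_div_iff hyK hθ₁, mul_comm, ← hPe]
  have hζs : (ζ : L) ^ s = 1 := by
    have := congrArg (algebraMap (𝓞 L) L) hζ
    simpa using this
  obtain ⟨hc, i, hie, hi⟩ := monomial_end (e := e) (s := s) (by omega) (ζ : L) hζs hζgen P₀ P₁ hP₀ hP₁
    hrel he0 he1 c j hcj (θ : K) α hαR hθ₀ hθ₁
  refine ⟨c, hc, i, ?_, hi⟩
  have h4 : 3 * (k * i) ≤ n := by
    have := Nat.mul_le_mul_left k hie
    omega
  have h5 : (3 : ℝ) * (k * i) ≤ n := by exact_mod_cast h4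
  have h6 : (3 * (k * i)) * c₀ ≤ n * c₀ := mul_le_mul_of_nonneg_right h5 hc₀.le
  have h7 : (i : ℝ) * (83 * La) ≤ i * (k * c₀) :=
    mul_le_mul_of_nonneg_left hk1' (Nat.cast_nonneg i)
  linarith

end Pool.Agent.Y730.RF
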