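import Mathlib

/-!
# Ramification lemmas
-/

set_option autoImplicit false

open NumberField Module Polynomial

namespace Pool.Agent.Y730.RF

variable {F M : Type*} [Field F] [NumberField F] [Field M] [NumberField M] [Algebra F M]

/-- ramification in a radical extension -/
theorem ram (x : 𝓞 M) (hx : IntermediateField.adjoin F {(x : M)} = ⊤) {k : ℕ} (hk : 0 < k)
    (b : 𝓞 F) (hxb : x ^ k = algebraMap (𝓞 F) (𝓞 M) b) {D : ℕ} (hbD : b ∣ (D : 𝓞 F))
    {q : ℕ} (hq : q.Prime) (hqM : (q : ℤ) ∣ discr M) : (q : ℤ) ∣ discr F ∨ q ∣ k * D := by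
  by_cases hD0 : D = 0
  · right
    rw [hD0, mul_zero]
    exact dvd_zero q
  have hx' : Algebra.adjoin F {algebraMap (𝓞 M) M x} = ⊤ := by
    have h1 := IntermediateField.adjoin_simple_toSubalgebra_of_isAlgebraic (F := F)
      (α := (x : M)) (Algebra.IsAlgebraic.isAlgebraic _)
    rw [hx] at h1
    exact h1.symm
  have hder := aeval_derivative_mem_differentIdeal (𝓞 F) F M x hx'
  set f := minpoly (𝓞 F) x with hf
  have hint : IsIntegral (𝓞 F) x := Algebra.IsIntegral.isIntegral x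
  obtain ⟨g, hg⟩ : f ∣ X ^ k - C b := by
    apply minpoly.isIntegrallyClosed_dvd hint
    rw [map_sub, map_pow, aeval_X, aeval_C, hxb, sub_self]
  have hmem : ((k * D : ℕ) : 𝓞 M) ∈ differentIdeal (𝓞 F) (𝓞 M) := by
    have h1 : ((k : ℕ) : 𝓞 M) * x ^ (k - 1) = aeval x (derivative f) * aeval x g := by
      have h2 := congrArg (fun p => aeval x (derivative p)) hg
      simp only [derivative_sub, derivative_mul, derivative_C, derivative_X_pow, sub_zero,
        map_mul, map_add, map_pow, aeval_X, map_natCast] at h2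
      rw [hf, minpoly.aeval, zero_mul, add_zero, ← hf] at h2
      exact h2
    have h3 : ((k : ℕ) : 𝓞 M) * x ^ (k - 1) ∈ differentIdeal (𝓞 F) (𝓞 M) := by
      rw [h1]
      exact Ideal.mul_mem_right _ _ hder
    obtain ⟨e, he⟩ := hbD
    have h4 : ((k * D : ℕ) : 𝓞 M) = algebraMap (𝓞 F) (𝓞 M) e * x *
        (((k : ℕ) : 𝓞 M) * x ^ (k - 1)) := by
      have h5 : (D : 𝓞 M) = x ^ k * algebraMap (𝓞 F) (𝓞 M) e := by
        rw [hxb, ← map_mul, ← he, map_natCast]
      have h6 : x ^ k = x * x ^ (k - 1) := by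
        rw [← pow_succ']
        congr 1
        omega
      push_cast
      rw [h5, h6]
      ring
    rw [h4]
    exact Ideal.mul_mem_left _ _ h3
  have h1 := natAbs_discr_eq_absNorm_differentIdeal_mul_natAbs_discr_pow F (𝓞 F) M (𝓞 M)
  rw [← Int.dvd_natAbs, Int.natCast_dvd_natCast] at hqM
  rw [h1, hq.dvd_mul] at hqM
  rcases hqM with h | h
  · right
    have h2 : Ideal.absNorm (differentIdeal (𝓞 F) (𝓞 M)) ∣
        Ideal.absNorm (Ideal.span {((k * D : ℕ) : 𝓞 M)}) :=
      Ideal.absNorm_dvd_absNorm_of_le ((Ideal.span_singleton_le_iff_mem _).2 hmem)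
    rw [Ideal.absNorm_span_natCast] at h2
    exact hq.dvd_of_dvd_pow (h.trans h2)
  · left
    have h2 := hq.dvd_of_dvd_pow h
    rwa [← Int.natCast_dvd_natCast, Int.dvd_natAbs] at h2

/-- an unramified prime exactly dividing `a` -/
theorem eisenstein {p a : ℕ} (hp : p.Prime) (hpF : ¬ (p : ℤ) ∣ discr F) (hpa : p ∣ a)
    (hpa2 : ¬ p ^ 2 ∣ a) {n : ℕ} (hn : 0 < n) : Irreducible (X ^ n - C (a : F) : F[X]) := by
  -- a prime ideal above `p`
  have hpZ : Prime (p : ℤ) := Nat.prime_iff_prime_int.1 hp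
  have hmax : (Ideal.span {(p : ℤ)}).IsMaximal :=
    PrincipalIdealRing.isMaximal_of_irreducible hpZ.irreducible
  obtain ⟨P, hPmax, hPover⟩ := Ideal.exists_maximal_ideal_liesOver_of_isIntegral (S := 𝓞 F)
    (Ideal.span {(p : ℤ)})
  have hpP : (p : 𝓞 F) ∈ P := by
    have h1 : (p : ℤ) ∈ Ideal.span {(p : ℤ)} := Ideal.mem_span_singleton_self _
    rw [hPover.over, Ideal.mem_comap] at h1
    simpa using h1
  have hPprime : P.IsPrime := hPmax.isPrime
  have hp0 : (Ideal.span {(p : ℤ)}) ≠ ⊥ := by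
    rw [Ne, Ideal.span_singleton_eq_bot]
    exact hpZ.ne_zero
  have hPnat : ∀ m : ℕ, (m : 𝓞 F) ∈ P → p ∣ m := by
    intro m hm
    have h1 : (m : ℤ) ∈ Ideal.span {(p : ℤ)} := by
      rw [hPover.over, Ideal.mem_comap]
      simpa using hm
    rw [Ideal.mem_span_singleton] at h1
    exact_mod_cast h1
  have hpP2 : (p : 𝓞 F) ∉ P ^ 2 := by
    intro h
    have h1 : P ^ 2 ∣ (Ideal.span {(p : ℤ)}).map (algebraMap ℤ (𝓞 F)) := by
      rw [Ideal.dvd_iff_le, Ideal.map_span, Set.image_singleton, Ideal.span_singleton_le_iff_mem]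
      simpa using h
    have h2 := pow_sub_one_dvd_differentIdeal ℤ P 2 hp0 h1
    rw [show 2 - 1 = 1 from rfl, pow_one] at h2
    have h3 := Ideal.absNorm_dvd_absNorm_of_le (Ideal.dvd_iff_le.1 h2)
    rw [absNorm_differentIdeal F] at h3
    have h4 : p ∣ Ideal.absNorm P := hPnat _ (Ideal.absNorm_mem P)
    apply hpF
    rw [← Int.dvd_natAbs, Int.natCast_dvd_natCast]
    exact h4.trans h3
  obtain ⟨a', rfl⟩ := hpa
  have ha' : ¬ p ∣ a' := fun h => hpa2 (by rw [pow_two]; exact Nat.mul_dvd_mul_left p h)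
  have haP2 : ((p * a' : ℕ) : 𝓞 F) ∉ P ^ 2 := by
    intro h
    push_cast at h
    have h1 : (a' : 𝓞 F) ∉ P := fun h => ha' (hPnat _ h)
    -- `P ^ 2 ∣ (p) (a')` and `P ∤ (a')`
    have h3 : P ^ 2 ∣ Ideal.span {(p : 𝓞 F)} * Ideal.span {(a' : 𝓞 F)} := by
      rw [Ideal.span_singleton_mul_span_singleton, Ideal.dvd_iff_le,
        Ideal.span_singleton_le_iff_mem]
      exact h
    have hP0 : P ≠ ⊥ := by
      rintro rfl
      rw [Ideal.mem_bot] at hpP
      exact hp.ne_zero (by exact_mod_cast hpP)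
    have hPp : Prime P := Ideal.prime_of_isPrime hP0 hPprime
    have h4 : ¬ P ∣ Ideal.span {(a' : 𝓞 F)} := by
      rw [Ideal.dvd_iff_le, Ideal.span_singleton_le_iff_mem]
      exact h1
    have h5 := hPp.pow_dvd_of_dvd_mul_right 2 h4 h3
    apply hpP2
    rw [Ideal.dvd_iff_le, Ideal.span_singleton_le_iff_mem] at h5
    exact h5
  set f : (𝓞 F)[X] := X ^ n - C ((p * a' : ℕ) : 𝓞 F) with hf
  have hmonic : f.Monic := monic_X_pow_sub_C _ hn.ne'
  have hdeg : f.natDegree = n := natDegree_X_pow_sub_C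
  have hE : f.IsEisensteinAt P := by
    refine ⟨?_, ?_, ?_⟩
    · rw [hmonic.leadingCoeff]
      exact fun h => hPprime.ne_top ((Ideal.eq_top_iff_one P).2 h)
    · intro m hm
      rw [hdeg] at hm
      rw [hf, coeff_sub, coeff_X_pow, if_neg (by omega), zero_sub, coeff_C]
      split_ifs
      · rw [neg_mem_iff]
        push_cast
        exact Ideal.mul_mem_right _ _ hpP
      · simp
    · rw [hf, coeff_sub, coeff_X_pow, if_neg (by omega), zero_sub, coeff_C_zero, neg_mem_iff]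
      exact haP2
  have hirr : Irreducible f := hE.irreducible hPprime hmonic.isPrimitive (by omega)
  have h1 := (hmonic.irreducible_iff_irreducible_map_fraction_map (K := F)).1 hirr
  have h2 : f.map (algebraMap (𝓞 F) F) = X ^ n - C ((p * a' : ℕ) : F) := by
    rw [hf, Polynomial.map_sub, Polynomial.map_pow, map_X, map_C, map_natCast]
  rw [h2] at h1
  exact h1

end Pool.Agent.Y730.RF
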