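import Mathlib
import Pool.Agent.Y730.RF.Ram

/-!
# Discriminants of composita (abstract version)
-/

set_option autoImplicit false

open NumberField Module Polynomial IntermediateField

namespace Pool.Agent.Y730.RF

section

variable {K₁ K₂ L : Type*} [Field K₁] [NumberField K₁] [Field K₂] [NumberField K₂]
  [Field L] [NumberField L] (f₁ : K₁ →ₐ[ℚ] L) (f₂ : K₂ →ₐ[ℚ] L)

/-- the discriminant of a compositum -/
theorem disc_sup_abs (htop : f₁.fieldRange ⊔ f₂.fieldRange = ⊤)
    (hdeg : finrank ℚ L = finrank ℚ K₁ * finrank ℚ K₂)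
    (hc : IsCoprime (discr K₁) (discr K₂)) :
    (discr L).natAbs =
      (discr K₁).natAbs ^ finrank ℚ K₂ * (discr K₂).natAbs ^ finrank ℚ K₁ := by
  have e1 : K₁ ≃ₐ[ℚ] f₁.fieldRange := AlgEquiv.ofInjectiveField f₁
  have e2 : K₂ ≃ₐ[ℚ] f₂.fieldRange := AlgEquiv.ofInjectiveField f₂
  have d1 := NumberField.discr_eq_discr_of_algEquiv K₁ e1
  have d2 := NumberField.discr_eq_discr_of_algEquiv K₂ e2
  have r1 := e1.toLinearEquiv.finrank_eq
  have r2 := e2.toLinearEquiv.finrank_eq
  have hld : f₁.fieldRange.LinearDisjoint f₂.fieldRange := by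
    apply LinearDisjoint.of_finrank_sup
    rw [htop, IntermediateField.finrank_top', hdeg, r1, r2]
  have h := natAbs_discr_eq_natAbs_discr_pow_mul_natAbs_discr_pow L
    f₁.fieldRange f₂.fieldRange hld htop (isCoprime_differentIdeal_of_isCoprime_discr _ (by
      rw [← d1, ← d2]
      exact hc))
  rw [h, ← d1, ← d2, r1, r2]

/-- linear disjointness from coprime discriminants -/
theorem deg_of_galois_abs (htop : f₁.fieldRange ⊔ f₂.fieldRange = ⊤) [IsGalois ℚ K₂]
    (hc : IsCoprime (discr K₁) (discr K₂)) :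
    finrank ℚ L = finrank ℚ K₁ * finrank ℚ K₂ := by
  have e1 : K₁ ≃ₐ[ℚ] f₁.fieldRange := AlgEquiv.ofInjectiveField f₁
  have e2 : K₂ ≃ₐ[ℚ] f₂.fieldRange := AlgEquiv.ofInjectiveField f₂
  have d1 := NumberField.discr_eq_discr_of_algEquiv K₁ e1
  have d2 := NumberField.discr_eq_discr_of_algEquiv K₂ e2
  have r1 := e1.toLinearEquiv.finrank_eq
  have r2 := e2.toLinearEquiv.finrank_eq
  have hgal : IsGalois ℚ f₂.fieldRange := IsGalois.of_algEquiv e2
  have h := linearDisjoint_of_isGalois_isCoprime_discr L f₂.fieldRange f₁.fieldRange (by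
      rw [← d1, ← d2]
      exact hc.symm)
  have h2 := h.symm.finrank_sup
  rw [htop, IntermediateField.finrank_top'] at h2
  rw [h2, r1, r2]

end

end Pool.Agent.Y730.RF
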