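import Mathlib
import Pool.Agent.H58P.Ht
import Pool.Agent.Y730.RF.SupAbs

/-!
# Discriminants of composita
-/

set_option autoImplicit false

open NumberField Module Polynomial IntermediateField

namespace Pool.Agent.Y730.RF

open Pool.Agent.H58P (Qb ht)

lemma nf_of_fd (F : IntermediateField ℚ Qb) [FiniteDimensional ℚ F] : NumberField F := { }

section

variable (F G : IntermediateField ℚ Qb) [FiniteDimensional ℚ F] [FiniteDimensional ℚ G]

instance nfF : NumberField F := nf_of_fd F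

instance fdS : FiniteDimensional ℚ ↥(F ⊔ G) := IntermediateField.finiteDimensional_sup F G

/-- inclusions, for the canonical `ℚ`-algebra structures -/
noncomputable def inc {F K : IntermediateField ℚ Qb} (h : F ≤ K) :
    @AlgHom ℚ F K _ _ _ DivisionRing.toRatAlgebra DivisionRing.toRatAlgebra :=
  RingHom.toRatAlgHom (IntermediateField.inclusion h).toRingHom

lemma inc_coe {F K : IntermediateField ℚ Qb} (h : F ≤ K) (x : F) : ((inc h x : K) : Qb) = x := rfl

lemma inc_top : @Eq (@IntermediateField ℚ ↥(F ⊔ G) _ _ DivisionRing.toRatAlgebra)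
    ((inc (le_sup_left : F ≤ F ⊔ G)).fieldRange ⊔ (inc (le_sup_right : G ≤ F ⊔ G)).fieldRange)
    ⊤ := by
  rw [eq_top_iff]
  intro x _
  set T := ((inc (le_sup_left : F ≤ F ⊔ G)).fieldRange ⊔
    (inc (le_sup_right : G ≤ F ⊔ G)).fieldRange) with hT
  let v : @AlgHom ℚ ↥(F ⊔ G) Qb _ _ _ DivisionRing.toRatAlgebra _ :=
    @RingHom.toRatAlgHom _ _ _ _ DivisionRing.toRatAlgebra _ (F ⊔ G).val.toRingHom
  have hle : F ⊔ G ≤ @IntermediateField.map ℚ ↥(F ⊔ G) Qb _ _ _ DivisionRing.toRatAlgebra _ v T := by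
    apply sup_le
    · intro y hy
      refine ⟨inc le_sup_left ⟨y, hy⟩, ?_, rfl⟩
      have : (inc (le_sup_left : F ≤ F ⊔ G)).fieldRange ≤ T := le_sup_left
      exact this ⟨⟨y, hy⟩, rfl⟩
    · intro y hy
      refine ⟨inc le_sup_right ⟨y, hy⟩, ?_, rfl⟩
      have : (inc (le_sup_right : G ≤ F ⊔ G)).fieldRange ≤ T := le_sup_right
      exact this ⟨⟨y, hy⟩, rfl⟩
  obtain ⟨y, hy, hyx⟩ := hle x.2
  have : y = x := Subtype.ext hyx
  rw [← this]
  exact hy

/-- the discriminant of a compositum -/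
theorem disc_sup (hFG : finrank ℚ ↥(F ⊔ G) = finrank ℚ F * finrank ℚ G)
    (hc : IsCoprime (discr F) (discr G)) :
    (discr ↥(F ⊔ G)).natAbs =
      (discr F).natAbs ^ finrank ℚ G * (discr G).natAbs ^ finrank ℚ F :=
  disc_sup_abs (inc le_sup_left) (inc le_sup_right) (inc_top F G) hFG hc

/-- the degree of a compositum -/
theorem deg_of_galois [IsGalois ℚ G] (hc : IsCoprime (discr F) (discr G)) :
    finrank ℚ ↥(F ⊔ G) = finrank ℚ F * finrank ℚ G :=
  @deg_of_galois_abs F G ↥(F ⊔ G) _ _ _ _ _ _ (inc le_sup_left) (inc le_sup_right) (inc_top F G)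
    (by
      convert (inferInstance : IsGalois ℚ G)) hc

end

end Pool.Agent.Y730.RF
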