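import Mathlib
import Pool.Agent.H58P.Ht
import Pool.Agent.Y730.RF.Sup

/-!
# Simple extensions of number fields inside `AlgebraicClosure ℚ`
-/

set_option autoImplicit false

open NumberField Module Polynomial IntermediateField

namespace Pool.Agent.Y730.RF

open Pool.Agent.H58P (Qb ht)

section abs

variable {F K : Type*} [Field F] [NumberField F] [Field K] [NumberField K] [Algebra F K]

lemma pow_li (x : K) (hx : IntermediateField.adjoin F {x} = ⊤) :
    LinearIndependent F (fun i : Fin (finrank F K) => x ^ (i : ℕ)) := by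
  have hint : IsIntegral F x := Algebra.IsIntegral.isIntegral x
  have h1 : (minpoly F x).natDegree = finrank F K := by
    rw [← IntermediateField.adjoin.finrank hint, hx, IntermediateField.finrank_top']
  rw [← h1]
  exact linearIndependent_pow x

lemma finrank_of_irr {n a : ℕ} (hn : 0 < n) (x : K) (hx : IntermediateField.adjoin F {x} = ⊤)
    (hxa : x ^ n = (a : K)) (hirr : Irreducible (X ^ n - C (a : F) : F[X])) :
    finrank F K = n := by
  have hint : IsIntegral F x := Algebra.IsIntegral.isIntegral x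
  have h1 : (minpoly F x).natDegree = finrank F K := by
    rw [← IntermediateField.adjoin.finrank hint, hx, IntermediateField.finrank_top']
  have h2 : X ^ n - C (a : F) = minpoly F x := by
    apply minpoly.eq_of_irreducible_of_monic hirr
    · rw [map_sub, map_pow, aeval_X, aeval_C, hxa, map_natCast, sub_self]
    · exact monic_X_pow_sub_C _ hn.ne'
  rw [← h1, ← h2, natDegree_X_pow_sub_C]

end abs

lemma ram_pow_one {G : Type*} [Field G] [NumberField G] (x : 𝓞 G)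
    (hx : IntermediateField.adjoin ℚ {(x : G)} = ⊤) {k : ℕ} (hk : 0 < k)
    (D : ℕ) (hxb : x ^ k = (D : 𝓞 G)) {q : ℕ} (hq : q.Prime) (hqM : (q : ℤ) ∣ discr G) :
    q ∣ k * D := by
  rcases ram (F := ℚ) (M := G) x hx hk (D : 𝓞 ℚ) (by rw [hxb, map_natCast]) (dvd_refl _) hq hqM
    with h | h
  · rw [Rat.numberField_discr] at h
    have h2 : q ∣ 1 := by exact_mod_cast h
    exact absurd (Nat.dvd_one.1 h2) hq.one_lt.ne'
  · exact h

/-- the algebra structure given by an inclusion -/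
@[reducible] noncomputable def supAlg (F G : IntermediateField ℚ Qb) : Algebra F ↥(F ⊔ G) :=
  (IntermediateField.inclusion (le_sup_left : F ≤ F ⊔ G)).toRingHom.toAlgebra

attribute [local instance] supAlg

lemma mem_sup_adjoin (F : IntermediateField ℚ Qb) (x : Qb) : x ∈ F ⊔ ℚ⟮x⟯ :=
  (le_sup_right : ℚ⟮x⟯ ≤ F ⊔ ℚ⟮x⟯) (mem_adjoin_simple_self ℚ x)

lemma adj_top (F : IntermediateField ℚ Qb) (x : Qb) :
    IntermediateField.adjoin F {(⟨x, mem_sup_adjoin F x⟩ : ↥(F ⊔ ℚ⟮x⟯))} = ⊤ := by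
  rw [eq_top_iff]
  intro y _
  set T := IntermediateField.adjoin F {(⟨x, mem_sup_adjoin F x⟩ : ↥(F ⊔ ℚ⟮x⟯))} with hT
  let T' : Subfield Qb := T.toSubfield.map (F ⊔ ℚ⟮x⟯).val.toRingHom
  let T'' : IntermediateField ℚ Qb := T'.toIntermediateField (fun q => by
    have : algebraMap ℚ Qb q = (q : Qb) := by simp
    rw [this]
    exact SubfieldClass.ratCast_mem T' q)
  have hle : F ⊔ ℚ⟮x⟯ ≤ T'' := by
    apply sup_le
    · intro z hz
      exact ⟨algebraMap F ↥(F ⊔ ℚ⟮x⟯) ⟨z, hz⟩, T.algebraMap_mem _, rfl⟩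
    · rw [adjoin_simple_le_iff]
      exact ⟨⟨x, mem_sup_adjoin F x⟩, mem_adjoin_simple_self F _, rfl⟩
  obtain ⟨z, hz, hzy⟩ := hle y.2
  have : z = y := Subtype.ext hzy
  rw [← this]
  exact hz

section

variable (F : IntermediateField ℚ Qb) [FiniteDimensional ℚ F]

instance fdx (x : Qb) : FiniteDimensional ℚ ℚ⟮x⟯ :=
  IntermediateField.adjoin.finiteDimensional (Pool.Agent.H58P.qb_isIntegral x)

omit [FiniteDimensional ℚ F] in
lemma adj_top_rat (x : Qb) :
    @Eq (@IntermediateField ℚ ↥ℚ⟮x⟯ _ _ DivisionRing.toRatAlgebra)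
      (@IntermediateField.adjoin ℚ _ ↥ℚ⟮x⟯ _ DivisionRing.toRatAlgebra
        {AdjoinSimple.gen ℚ x}) ⊤ := by
  rw [eq_top_iff]
  intro y _
  set T := @IntermediateField.adjoin ℚ _ ↥ℚ⟮x⟯ _ DivisionRing.toRatAlgebra
        {AdjoinSimple.gen ℚ x} with hT
  let T' : Subfield Qb := T.toSubfield.map (ℚ⟮x⟯).val.toRingHom
  let T'' : IntermediateField ℚ Qb := T'.toIntermediateField (fun q => by
    have : algebraMap ℚ Qb q = (q : Qb) := by simp
    rw [this]
    exact SubfieldClass.ratCast_mem T' q)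
  have hle : ℚ⟮x⟯ ≤ T'' := by
    rw [adjoin_simple_le_iff]
    exact ⟨AdjoinSimple.gen ℚ x, mem_adjoin_simple_self ℚ _, rfl⟩
  obtain ⟨z, hz, hzy⟩ := hle y.2
  have : z = y := Subtype.ext hzy
  rw [← this]
  exact hz

lemma tower (F G : IntermediateField ℚ Qb) [FiniteDimensional ℚ F] [FiniteDimensional ℚ G] :
    finrank ℚ ↥(F ⊔ G) = finrank ℚ F * finrank F ↥(F ⊔ G) :=
  (finrank_mul_finrank ℚ F ↥(F ⊔ G)).symm

/-- integral elements as elements of the ring of integers -/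
def toInt (F : IntermediateField ℚ Qb) (x : Qb) (hx : x ∈ F) (hxi : IsIntegral ℤ x) : 𝓞 F :=
  ⟨⟨x, hx⟩, by
    have h := (isIntegral_algHom_iff (F.val.restrictScalars ℤ) Subtype.val_injective
      (x := (⟨x, hx⟩ : F))).1 hxi
    exact h⟩

lemma toInt_coe (F : IntermediateField ℚ Qb) (x : Qb) (hx : x ∈ F) (hxi : IsIntegral ℤ x) :
    ((toInt F x hx hxi : F) : Qb) = x := rfl

lemma int_ext {F : IntermediateField ℚ Qb} {x y : 𝓞 F} (h : ((x : F) : Qb) = ((y : F) : Qb)) :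
    x = y := RingOfIntegers.coe_injective (Subtype.ext h)

/-- ramification in radical extensions inside `Qb` -/
lemma ram_sup {x : Qb} (hxi : IsIntegral ℤ x) {k : ℕ} (hk : 0 < k)
    (b : Qb) (hb : b ∈ F) (hbi : IsIntegral ℤ b) (hxb : x ^ k = b) {D : ℕ} (b' : Qb)
    (hbi' : IsIntegral ℤ b') (hbD : b * b' = D) (hb0 : b ≠ 0)
    {q : ℕ} (hq : q.Prime) (hqM : (q : ℤ) ∣ discr ↥(F ⊔ ℚ⟮x⟯)) : (q : ℤ) ∣ discr F ∨ q ∣ k * D := by
  have hb' : b' ∈ F := by
    have : b' = D / b := by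
      rw [eq_div_iff hb0, mul_comm, hbD]
    rw [this]
    exact F.div_mem (_root_.natCast_mem F D) hb
  refine ram (F := F) (M := ↥(F ⊔ ℚ⟮x⟯)) (toInt _ x (mem_sup_adjoin F x) hxi) (adj_top F x) hk
    (toInt F b hb hbi) ?_ (D := D) ⟨toInt F b' hb' hbi', ?_⟩ hq hqM
  · apply int_ext
    exact hxb
  · apply int_ext
    have h1 : ((((D : 𝓞 F) : F)) : Qb) = D := by simp
    rw [h1]
    exact hbD.symm

/-- primes dividing the discriminant of `ℚ(x)`, `x ^ k = D` -/
lemma ram_rat {x : Qb} {k : ℕ} (hk : 0 < k) {D : ℕ} (hxb : x ^ k = D)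
    {q : ℕ} (hq : q.Prime) (hqM : (q : ℤ) ∣ discr ↥ℚ⟮x⟯) : q ∣ k * D := by
  have hxi : IsIntegral ℤ x := by
    apply IsIntegral.of_pow hk
    rw [hxb]
    exact isIntegral_algebraMap (R := ℤ) (x := (D : ℤ)) |> fun h => by simpa using h
  refine ram_pow_one (toInt ℚ⟮x⟯ x (mem_adjoin_simple_self ℚ x) hxi) (adj_top_rat x) hk D ?_ hq hqM
  apply int_ext
  have h1 : ((((D : 𝓞 ℚ⟮x⟯) : ℚ⟮x⟯)) : Qb) = D := by simp
  rw [h1]
  exact hxb

end

end Pool.Agent.Y730.RF
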