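import Mathlib
import Pool.Agent.H58P.Ht
import Pool.Agent.Y730.RD.Final
import Pool.Agent.Y730.RF.Fld

/-!
# Cyclotomic and radical extensions: degrees and discriminants
-/

set_option autoImplicit false

open NumberField Module Polynomial IntermediateField

namespace Pool.Agent.Y730.RF

open Pool.Agent.H58P (Qb ht)

attribute [local instance] supAlg

/-- all primes dividing the discriminant divide `N` -/
def DiscOk (F : IntermediateField ℚ Qb) [FiniteDimensional ℚ F] (N : ℕ) : Prop :=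
  ∀ q : ℕ, q.Prime → (q : ℤ) ∣ discr F → q ∣ N

lemma cop_disc {F G : Type*} [Field F] [NumberField F] [Field G] [NumberField G] {N M : ℕ}
    (hF : ∀ q : ℕ, q.Prime → (q : ℤ) ∣ discr F → q ∣ N)
    (hG : ∀ q : ℕ, q.Prime → (q : ℤ) ∣ discr G → q ∣ M) (h : Nat.Coprime N M) :
    IsCoprime (discr F) (discr G) := by
  rw [Int.isCoprime_iff_gcd_eq_one]
  apply Nat.Coprime.gcd_eq_one
  apply Nat.coprime_of_dvd
  intro q hq h1 h2
  have h3 := hF q hq (Int.natCast_dvd.2 h1)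
  have h4 := hG q hq (Int.natCast_dvd.2 h2)
  exact Nat.not_coprime_of_dvd_of_dvd hq.one_lt h3 h4 h

section

variable {m : ℕ} {ζ : Qb}

lemma cyc_ext (hm : 0 < m) (hζ : IsPrimitiveRoot ζ m) : IsCyclotomicExtension {m} ℚ ℚ⟮ζ⟯ := by
  have : NeZero m := ⟨hm.ne'⟩
  have : Algebra.IsIntegral ℚ Qb := ⟨Pool.Agent.H58P.qb_isIntegral⟩
  exact hζ.intermediateField_adjoin_isCyclotomicExtension ℚ

lemma cyc_gal (hm : 0 < m) (hζ : IsPrimitiveRoot ζ m) : IsGalois ℚ ℚ⟮ζ⟯ := by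
  have : NeZero m := ⟨hm.ne'⟩
  have := cyc_ext hm hζ
  exact IsCyclotomicExtension.isGalois {m} ℚ ℚ⟮ζ⟯

lemma cyc_finrank (hm : 0 < m) (hζ : IsPrimitiveRoot ζ m) : finrank ℚ ℚ⟮ζ⟯ = m.totient := by
  have : NeZero m := ⟨hm.ne'⟩
  have := cyc_ext hm hζ
  exact IsCyclotomicExtension.finrank (n := m) ℚ⟮ζ⟯ (cyclotomic.irreducible_rat hm)

lemma cyc_disc (hm : 0 < m) (hζ : IsPrimitiveRoot ζ m) {q : ℕ} (hq : q.Prime)
    (h : (q : ℤ) ∣ discr ↥ℚ⟮ζ⟯) : q ∣ m := by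
  have := ram_rat (D := 1) hm (by rw [hζ.pow_eq_one]; simp) hq h
  rwa [mul_one] at this

variable (F : IntermediateField ℚ Qb) [FiniteDimensional ℚ F] {N : ℕ}

lemma cyc_cop (hF : DiscOk F N) (hm : 0 < m) (hζ : IsPrimitiveRoot ζ m) (hmN : Nat.Coprime m N) :
    IsCoprime (discr F) (discr ↥ℚ⟮ζ⟯) :=
  cop_disc hF (fun q hq => cyc_disc hm hζ hq) hmN.symm

lemma cyc_sup (hF : DiscOk F N) (hm : 0 < m) (hζ : IsPrimitiveRoot ζ m) (hmN : Nat.Coprime m N) :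
    finrank ℚ ↥(F ⊔ ℚ⟮ζ⟯) = finrank ℚ F * m.totient := by
  have := cyc_gal hm hζ
  rw [deg_of_galois F ℚ⟮ζ⟯ (cyc_cop F hF hm hζ hmN), cyc_finrank hm hζ]

lemma cyc_sup_disc (hF : DiscOk F N) (hm : 0 < m) (hζ : IsPrimitiveRoot ζ m) :
    DiscOk (F ⊔ ℚ⟮ζ⟯) (N * m) := by
  intro q hq h
  have hζi : IsIntegral ℤ ζ := hζ.isIntegral hm
  rcases ram_sup F hζi hm 1 (one_mem F) isIntegral_one hζ.pow_eq_one (D := 1) 1 isIntegral_one
    (by simp) one_ne_zero hq h with h1 | h1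
  · exact (hF q hq h1).mul_right _
  · rw [mul_one] at h1
    exact h1.mul_left _

/-- the discriminant of `F(ξ)`, `ξ` of prime order -/
lemma disc_s {s : ℕ} (hs : s.Prime) {ξ : Qb} (hξ : IsPrimitiveRoot ξ s) (hF : DiscOk F N)
    (hsN : Nat.Coprime s N) :
    |(discr F : ℝ)| ^ (s - 1) * ((s : ℝ) ^ (s - 2)) ^ finrank ℚ F ≤
      |(discr ↥(F ⊔ ℚ⟮ξ⟯) : ℝ)| := by
  have h1 := disc_sup F ℚ⟮ξ⟯ (by rw [cyc_sup F hF hs.pos hξ hsN, cyc_finrank hs.pos hξ])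
    (cyc_cop F hF hs.pos hξ hsN)
  rw [cyc_finrank hs.pos hξ, Nat.totient_prime hs] at h1
  have : Fact s.Prime := ⟨hs⟩
  have h2 := cyc_ext hs.pos hξ
  have h3 := @IsCyclotomicExtension.Rat.discr_prime s ↥ℚ⟮ξ⟯ _ _ _ (by convert h2)
  have h4 : (discr ↥ℚ⟮ξ⟯).natAbs = s ^ (s - 2) := by
    rw [h3, Int.natAbs_mul, Int.natAbs_pow, Int.natAbs_pow]
    simp
  rw [h4] at h1
  have h5 : (((discr ↥(F ⊔ ℚ⟮ξ⟯)).natAbs : ℕ) : ℝ) = |(discr ↥(F ⊔ ℚ⟮ξ⟯) : ℝ)| := by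
    rw [Nat.cast_natAbs, Int.cast_abs]
  have h6 : (((discr ↥F).natAbs : ℕ) : ℝ) = |(discr F : ℝ)| := by
    rw [Nat.cast_natAbs, Int.cast_abs]
  rw [← h5, ← h6, h1]
  push_cast
  exact le_rfl

end

section

open Pool.Agent.Y730.RD

variable (F : IntermediateField ℚ Qb) [FiniteDimensional ℚ F] {N : ℕ}

lemma rat_finrank {a n : ℕ} (ha : Squarefree a) (ha2 : 2 ≤ a) (hn : 0 < n) {θ : Qb}
    (hθ : θ ^ n = a) : finrank ℚ ℚ⟮θ⟯ = n := by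
  rw [IntermediateField.adjoin.finrank (Pool.Agent.H58P.qb_isIntegral θ),
    minpoly_rat ha ha2 hn θ hθ, natDegree_X_pow_sub_C]

lemma rad_finrank {a n : ℕ} (ha : Squarefree a) (ha2 : 2 ≤ a) (hn : 0 < n) {θ : Qb}
    (hθ : θ ^ n = a) (hF : DiscOk F N) (haN : Nat.Coprime a N) :
    finrank F ↥(F ⊔ ℚ⟮θ⟯) = n := by
  obtain ⟨p, hp, hpa, hpa2⟩ := exists_prime_exact ha ha2
  refine finrank_of_irr (a := a) hn ⟨θ, mem_sup_adjoin F θ⟩ (adj_top F θ) ?_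
    (eisenstein hp ?_ hpa hpa2 hn)
  · apply Subtype.ext
    push_cast
    exact hθ
  · intro h
    exact Nat.not_coprime_of_dvd_of_dvd hp.one_lt hpa (hF p hp h) haN

lemma rad_sup {a n : ℕ} (ha : Squarefree a) (ha2 : 2 ≤ a) (hn : 0 < n) {θ : Qb}
    (hθ : θ ^ n = a) (hF : DiscOk F N) (haN : Nat.Coprime a N) :
    finrank ℚ ↥(F ⊔ ℚ⟮θ⟯) = finrank ℚ F * finrank ℚ ℚ⟮θ⟯ := by
  rw [tower F ℚ⟮θ⟯, rad_finrank F ha ha2 hn hθ hF haN, rat_finrank ha ha2 hn hθ]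

lemma rad_sup_disc {a n : ℕ} (ha2 : 2 ≤ a) (hn : 0 < n) {θ : Qb}
    (hθ : θ ^ n = a) (hF : DiscOk F N) : DiscOk (F ⊔ ℚ⟮θ⟯) (N * (n * a)) := by
  intro q hq h
  have hai : IsIntegral ℤ (a : Qb) := by
    simpa using (isIntegral_algebraMap (R := ℤ) (A := Qb) (x := (a : ℤ)))
  have hθi : IsIntegral ℤ θ := IsIntegral.of_pow hn (by rw [hθ]; exact hai)
  rcases ram_sup F hθi hn (a : Qb) (_root_.natCast_mem F a) hai hθ (D := a) 1 isIntegral_one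
    (by simp) (by
      have : a ≠ 0 := by omega
      exact_mod_cast this) hq h with h1 | h1
  · exact (hF q hq h1).mul_right _
  · exact h1.mul_left _

lemma rad_disc {a n : ℕ} (hn : 0 < n) {θ : Qb} (hθ : θ ^ n = a) {q : ℕ} (hq : q.Prime)
    (h : (q : ℤ) ∣ discr ↥ℚ⟮θ⟯) : q ∣ n * a :=
  ram_rat hn hθ hq h

/-- the loss at the Wieferich primes -/
noncomputable def lossW (a n : ℕ) : ℝ := ∏ p ∈ wiefPrimes a n, (p : ℝ) ^ (n / p)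

lemma lossW_one_le {a n : ℕ} (hn : 0 < n) : 1 ≤ lossW a n := by
  calc (1 : ℝ) = ∏ p ∈ wiefPrimes a n, (1 : ℝ) := by simp
      _ ≤ _ := Finset.prod_le_prod (fun _ _ => zero_le_one) (fun p hp => by
        have h3 := ((mem_wiefPrimes hn).1 hp).1.one_lt
        exact one_le_pow₀ (by exact_mod_cast h3.le))

lemma lossW_log {a n : ℕ} (hadm : Admissible a n) :
    40 * Real.log (lossW a n) ≤ n * Real.log a := by
  obtain ⟨hn, h1, h2⟩ := hadm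
  rw [lossW, Real.log_prod (fun p hp => by
      have h3 := ((mem_wiefPrimes hn).1 hp).1.pos
      positivity)]
  have h3 : ∑ p ∈ wiefPrimes a n, Real.log ((p : ℝ) ^ (n / p)) =
      n * ∑ p ∈ wiefPrimes a n, Real.log p / p := by
    rw [Finset.mul_sum]
    refine Finset.sum_congr rfl fun p hp => ?_
    obtain ⟨h4, h5, -, -⟩ := (mem_wiefPrimes hn).1 hp
    have h6 : (p : ℝ) ≠ 0 := by exact_mod_cast h4.ne_zero
    rw [Real.log_pow, Nat.cast_div h5 h6]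
    ring
  rw [h3]
  calc 40 * ((n : ℝ) * ∑ p ∈ wiefPrimes a n, Real.log p / p) =
      n * (40 * ∑ p ∈ wiefPrimes a n, Real.log p / p) := by ring
    _ ≤ n * Real.log a := mul_le_mul_of_nonneg_left h2 (Nat.cast_nonneg n)

/-- the discriminant of `F(θ)` -/
lemma disc_theta {a n : ℕ} (ha : Squarefree a) (ha2 : 2 ≤ a) (hadm : Admissible a n) {θ : Qb}
    (hθ : θ ^ n = a) (hF : DiscOk F N) (hnaN : Nat.Coprime (n * a) N) :
    |(discr F : ℝ)| ^ n * ((n : ℝ) ^ n * (a : ℝ) ^ (n - 1)) ^ finrank ℚ F ≤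
      |(discr ↥(F ⊔ ℚ⟮θ⟯) : ℝ)| * (lossW a n ^ 2) ^ finrank ℚ F := by
  obtain ⟨hn, hw1, hw2⟩ := id hadm
  have haN : Nat.Coprime a N := Nat.Coprime.coprime_mul_left hnaN
  have h1 := disc_sup F ℚ⟮θ⟯ (rad_sup F ha ha2 hn hθ hF haN)
    (cop_disc hF (fun q hq => rad_disc hn hθ hq) hnaN.symm)
  have hfr := rat_finrank ha ha2 hn hθ
  rw [hfr] at h1
  let g : ℚ⟮θ⟯ := AdjoinSimple.gen ℚ θ
  have hg : g ^ n = ((a : ℕ) : ℚ⟮θ⟯) := by
    apply Subtype.ext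
    push_cast
    exact hθ
  let ϑ : 𝓞 ℚ⟮θ⟯ := ⟨g, theta_integral hn g hg⟩
  have hϑ : ϑ ^ n = ((a : ℕ) : 𝓞 ℚ⟮θ⟯) := by
    apply RingOfIntegers.coe_injective
    rw [map_pow, map_natCast]
    exact hg
  have hD := disc_bound (K := ↥ℚ⟮θ⟯) ha ha2 hn hfr ϑ hϑ (wiefPrimes a n)
    (fun p hp => by
      obtain ⟨h3, h4, h5, h6⟩ := (mem_wiefPrimes hn).1 hp
      exact ⟨h3, (hw1 p hp).1, h4, (hw1 p hp).2, h5, h6⟩)
    (fun p hp hpn hpa hpW hw => hpW ((mem_wiefPrimes hn).2 ⟨hp, hpn, hpa, hw⟩))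
  have h5 : (((discr ↥(F ⊔ ℚ⟮θ⟯)).natAbs : ℕ) : ℝ) = |(discr ↥(F ⊔ ℚ⟮θ⟯) : ℝ)| := by
    rw [Nat.cast_natAbs, Int.cast_abs]
  have h6 : (((discr ↥F).natAbs : ℕ) : ℝ) = |(discr F : ℝ)| := by
    rw [Nat.cast_natAbs, Int.cast_abs]
  have h7 : (((discr ↥ℚ⟮θ⟯).natAbs : ℕ) : ℝ) = |(discr ↥ℚ⟮θ⟯ : ℝ)| := by
    rw [Nat.cast_natAbs, Int.cast_abs]
  rw [← h5, ← h6, h1]
  push_cast
  rw [mul_assoc, ← mul_pow, h7]
  exact mul_le_mul_of_nonneg_left (pow_le_pow_left₀ (by positivity) hD _) (by positivity)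

end

end Pool.Agent.Y730.RF
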