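import Mathlib
import Pool.Agent.Y730.RF.Cyc

/-!
# Elements of `F(ξ)` having a power in `F`
-/

set_option autoImplicit false

open NumberField Module Polynomial IntermediateField

namespace Pool.Agent.Y730.RF

open Pool.Agent.H58P (Qb ht)

attribute [local instance] supAlg

variable (F : IntermediateField ℚ Qb) [FiniteDimensional ℚ F] {N : ℕ}

lemma natCast_int (D : ℕ) : IsIntegral ℤ (D : Qb) := by
  simpa using (isIntegral_algebraMap (R := ℤ) (A := Qb) (x := (D : ℤ)))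

/-- the prime-to-`s` part -/
lemma rou_one {s : ℕ} (hs : s.Prime) {ξ : Qb} (hξ : IsPrimitiveRoot ξ s) (hF : DiscOk F N)
    (hsN : Nat.Coprime s N) (D : ℕ) (hsD : ¬ s ∣ D) (η : Qb) (hη : η ∈ F ⊔ ℚ⟮ξ⟯) (hη0 : η ≠ 0)
    (k : ℕ) (hk : 0 < k) (hsk : ¬ s ∣ k) (γ : Qb) (hγ : η ^ k = γ) (hγF : γ ∈ F)
    (hγi : IsIntegral ℤ (D * γ)) (hγi' : IsIntegral ℤ (D * γ⁻¹)) : η ∈ F := by
  have hD0 : (D : Qb) ≠ 0 := by
    have : D ≠ 0 := by
      rintro rfl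
      exact hsD (dvd_zero s)
    exact_mod_cast this
  have hγ0 : γ ≠ 0 := by
    rw [← hγ]
    exact pow_ne_zero _ hη0
  set x : Qb := D * η with hx
  obtain ⟨l, rfl⟩ : ∃ l, k = l + 1 := ⟨k - 1, by omega⟩
  have hxk : x ^ (l + 1) = D ^ l * (D * γ) := by
    rw [hx, mul_pow, hγ]
    ring
  have hbi : IsIntegral ℤ ((D : Qb) ^ l * (D * γ)) := ((natCast_int D).pow l).mul hγi
  have hxi : IsIntegral ℤ x := IsIntegral.of_pow (Nat.succ_pos l) (by rw [hxk]; exact hbi)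
  have hbF : (D : Qb) ^ l * (D * γ) ∈ F :=
    mul_mem (pow_mem (_root_.natCast_mem F D) _) (mul_mem (_root_.natCast_mem F D) hγF)
  have hM : DiscOk (F ⊔ ℚ⟮x⟯) (N * ((l + 1) * D ^ (l + 2))) := by
    intro q hq h
    rcases ram_sup F hxi (Nat.succ_pos l) _ hbF hbi hxk (D := D ^ (l + 2)) (D * γ⁻¹) hγi' (by
        push_cast
        field_simp
        ring) (mul_ne_zero (pow_ne_zero _ hD0) (mul_ne_zero hD0 hγ0)) hq h with h1 | h1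
    · exact (hF q hq h1).mul_right _
    · exact h1.mul_left _
  have hcop : Nat.Coprime s (N * ((l + 1) * D ^ (l + 2))) := by
    apply Nat.Coprime.mul_right hsN
    apply Nat.Coprime.mul_right
    · exact (Nat.Prime.coprime_iff_not_dvd hs).2 hsk
    · exact Nat.Coprime.pow_right _ ((Nat.Prime.coprime_iff_not_dvd hs).2 hsD)
  have h1 := cyc_sup (F ⊔ ℚ⟮x⟯) hM hs.pos hξ hcop
  have h2 := cyc_sup F hF hs.pos hξ hsN
  have hxL : x ∈ F ⊔ ℚ⟮ξ⟯ := mul_mem (_root_.natCast_mem _ D) hη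
  have hle : F ⊔ ℚ⟮x⟯ ≤ F ⊔ ℚ⟮ξ⟯ := by
    apply sup_le le_sup_left
    rw [adjoin_simple_le_iff]
    exact hxL
  have heq : (F ⊔ ℚ⟮x⟯) ⊔ ℚ⟮ξ⟯ = F ⊔ ℚ⟮ξ⟯ := by
    apply le_antisymm
    · exact sup_le hle le_sup_right
    · exact sup_le (le_sup_left.trans le_sup_left) le_sup_right
  have h3 : finrank ℚ ↥((F ⊔ ℚ⟮x⟯) ⊔ ℚ⟮ξ⟯) = finrank ℚ ↥(F ⊔ ℚ⟮ξ⟯) := by rw [heq]
  rw [h1, h2, Nat.totient_prime hs] at h3
  have h4 : finrank ℚ ↥(F ⊔ ℚ⟮x⟯) = finrank ℚ ↥F :=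
    Nat.eq_of_mul_eq_mul_right (by have := hs.two_le; omega) h3
  have h5 : F = F ⊔ ℚ⟮x⟯ := IntermediateField.eq_of_le_of_finrank_eq le_sup_left h4.symm
  have h6 : x ∈ F := by
    rw [h5]
    exact mem_sup_adjoin F x
  have h7 : η = x / D := by
    rw [hx, mul_div_cancel_left₀ _ hD0]
  rw [h7]
  exact F.div_mem h6 (_root_.natCast_mem F D)

/-- **Elements of `F(ξ)` having a power in `F`.** -/
theorem rou {s : ℕ} (hs : s.Prime) {ξ : Qb} (hξ : IsPrimitiveRoot ξ s) (hF : DiscOk F N)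
    (hsN : Nat.Coprime s N) (D : ℕ) (hsD : ¬ s ∣ D) (δ : Qb) (hδ : δ ∈ F ⊔ ℚ⟮ξ⟯) (hδ0 : δ ≠ 0)
    (k : ℕ) (hk : 0 < k) (γ : Qb) (hγ : δ ^ k = γ) (hγF : γ ∈ F)
    (hγi : IsIntegral ℤ (D * γ)) (hγi' : IsIntegral ℤ (D * γ⁻¹)) :
    ∃ κ ∈ F, ∃ j : ℕ, δ = κ * ξ ^ j := by
  obtain ⟨t, k', hsk', rfl⟩ := Nat.exists_eq_pow_mul_and_not_dvd hk.ne' s hs.one_lt.ne'
  have hk' : 0 < k' := Nat.pos_of_mul_pos_left hk |> fun h => by
    rcases Nat.eq_zero_or_pos k' with h0 | h0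
    · rw [h0] at hsk'
      exact absurd (dvd_zero s) hsk'
    · exact h0
  set η := δ ^ s ^ t with hη
  have hη0 : η ≠ 0 := pow_ne_zero _ hδ0
  have hηF : η ∈ F := rou_one F hs hξ hF hsN D hsD η (pow_mem hδ _) hη0 k' hk' hsk' γ
    (by rw [hη, ← pow_mul, hγ]) hγF hγi hγi'
  have h2 := cyc_sup F hF hs.pos hξ hsN
  have hs1 : 0 < s - 1 := by have := hs.two_le; omega
  have hfr0 : 0 < finrank ℚ F := finrank_pos
  have hfr : finrank F ↥(F ⊔ ℚ⟮ξ⟯) = s - 1 := by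
    have h3 := tower F ℚ⟮ξ⟯
    rw [h2, Nat.totient_prime hs] at h3
    exact (Nat.eq_of_mul_eq_mul_left hfr0 h3).symm
  -- the norm of `δ`
  let δL : ↥(F ⊔ ℚ⟮ξ⟯) := ⟨δ, hδ⟩
  let ηF : F := ⟨η, hηF⟩
  set ν : F := Algebra.norm F δL with hν
  have h3 : ν ^ s ^ t = ηF ^ (s - 1) := by
    rw [hν, ← map_pow]
    have h4 : δL ^ s ^ t = algebraMap F ↥(F ⊔ ℚ⟮ξ⟯) ηF := Subtype.ext rfl
    rw [h4, Algebra.norm_algebraMap, hfr]
  have h4 : (ν : Qb) ^ s ^ t = η ^ (s - 1) := congrArg Subtype.val h3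
  have hcop : Nat.Coprime (s - 1) (s ^ t) := by
    apply Nat.Coprime.pow_right
    apply Nat.Coprime.symm
    rw [Nat.Prime.coprime_iff_not_dvd hs]
    intro h
    have := Nat.le_of_dvd hs1 h
    omega
  obtain ⟨u, v, huv⟩ := Nat.isCoprime_iff_coprime.2 hcop
  set κ : Qb := (ν : Qb) ^ u * η ^ v with hκ
  have hκF : κ ∈ F := mul_mem (zpow_mem ν.2 _) (zpow_mem hηF _)
  have hκpow : κ ^ s ^ t = η := by
    have e1 : ((ν : Qb) ^ u) ^ s ^ t = η ^ (((s - 1 : ℕ) : ℤ) * u) := by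
      rw [← zpow_natCast, ← zpow_mul, mul_comm u, zpow_mul, zpow_natCast, h4, zpow_mul, zpow_natCast]
    have e2 : (η ^ v) ^ s ^ t = η ^ (((s ^ t : ℕ) : ℤ) * v) := by
      rw [← zpow_natCast, ← zpow_mul, mul_comm v]
    rw [hκ, mul_pow, e1, e2, ← zpow_add₀ hη0]
    have e3 : ((s - 1 : ℕ) : ℤ) * u + ((s ^ t : ℕ) : ℤ) * v = 1 := by
      rw [mul_comm _ u, mul_comm _ v]
      exact huv
    rw [e3, zpow_one]
  have hκ0 : κ ≠ 0 := by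
    intro h
    rw [h, zero_pow (pow_pos hs.pos t).ne'] at hκpow
    exact hη0 hκpow.symm
  set ω := δ / κ with hω
  have hω1 : ω ^ s ^ t = 1 := by
    rw [hω, div_pow, hκpow, ← hη, div_self hη0]
  have hωL : ω ∈ F ⊔ ℚ⟮ξ⟯ := IntermediateField.div_mem _ hδ ((le_sup_left : F ≤ F ⊔ ℚ⟮ξ⟯) hκF)
  obtain ⟨i, hit, hi⟩ := (Nat.dvd_prime_pow hs).1 (orderOf_dvd_of_pow_eq_one hω1)
  have hprim : IsPrimitiveRoot ω (s ^ i) := by
    rw [← hi]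
    exact IsPrimitiveRoot.orderOf ω
  have hi1 : i ≤ 1 := by
    by_contra hcon
    push Not at hcon
    have h5 := cyc_sup F hF (pow_pos hs.pos i) hprim (Nat.Coprime.pow_left _ hsN)
    have hle : F ⊔ ℚ⟮ω⟯ ≤ F ⊔ ℚ⟮ξ⟯ := by
      apply sup_le le_sup_left
      rw [adjoin_simple_le_iff]
      exact hωL
    have h6 : finrank ℚ ↥(F ⊔ ℚ⟮ω⟯) ≤ finrank ℚ ↥(F ⊔ ℚ⟮ξ⟯) :=
      IntermediateField.finrank_le_of_le_right hle
    rw [h5, h2, Nat.totient_prime hs, Nat.totient_prime_pow hs (by omega)] at h6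
    have h7 := Nat.le_of_mul_le_mul_left h6 hfr0
    have h8 : s ^ 1 ≤ s ^ (i - 1) := Nat.pow_le_pow_right hs.pos (by omega)
    rw [pow_one] at h8
    have h9 : s * (s - 1) ≤ s ^ (i - 1) * (s - 1) := Nat.mul_le_mul_right _ h8
    have h10 : s * (s - 1) ≤ 1 * (s - 1) := by omega
    have := Nat.le_of_mul_le_mul_right h10 hs1
    have := hs.two_le
    omega
  have hωs : ω ^ s = 1 := by
    have h5 : s ^ i ∣ s := by
      conv_rhs => rw [← pow_one s]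
      exact pow_dvd_pow s hi1
    obtain ⟨c, hc⟩ := h5
    rw [hc, pow_mul, hprim.pow_eq_one, one_pow]
  have : NeZero s := ⟨hs.ne_zero⟩
  obtain ⟨j, -, hj⟩ := hξ.eq_pow_of_pow_eq_one hωs
  refine ⟨κ, hκF, j, ?_⟩
  rw [hj, hω, mul_div_cancel₀ _ hκ0]

end Pool.Agent.Y730.RF
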