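import Mathlib
import Pool.Agent.Y730.RF.Rou
import Pool.Agent.Y730.RF.MainG

/-!
# Adjoining the roots of one integer
-/

set_option autoImplicit false

open NumberField Module Polynomial IntermediateField Height

namespace Pool.Agent.Y730.RF

open Pool.Agent.H58P (Qb ht)
open Pool.Agent.Y730.RD (Admissible exists_prime_exact height_rel)

attribute [local instance] supAlg

/-- `β` lies in the division group of `Γ` -/
def InDiv (Γ : Subgroup Qbˣ) (β : Qb) : Prop := ∃ n : ℕ, 0 < n ∧ ∃ g ∈ Γ, β ^ n = (g : Qb)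

/-- the elements of `Γ` are units outside the primes dividing `D` -/
def UnitsAway (Γ : Subgroup Qbˣ) (D : ℕ) : Prop :=
  D ≠ 0 ∧ ∀ g ∈ Γ, ∃ e : ℕ, IsIntegral ℤ ((D : Qb) ^ e * (g : Qb)) ∧
    IsIntegral ℤ ((D : Qb) ^ e * (g : Qb)⁻¹)

/-- the induction hypothesis -/
structure Good (Γ : Subgroup Qbˣ) (c : ℝ) (F : IntermediateField ℚ Qb) [FiniteDimensional ℚ F]
    (N : ℕ) : Prop where
  mem : ∀ g ∈ Γ, (g : Qb) ∈ F
  disc : DiscOk F N
  units : ∃ D, UnitsAway Γ D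
  small : ∀ m : ℕ, 0 < m → Nat.Coprime m N → ∀ ζ : Qb, IsPrimitiveRoot ζ m →
    ∀ α ∈ F ⊔ ℚ⟮ζ⟯, α ≠ 0 → NumberField.absLogHeight₁ α < c → InDiv Γ α

/-- a natural number as a unit -/
noncomputable def natUnit (a : ℕ) (ha : 2 ≤ a) : Qbˣ :=
  Units.mk0 (a : Qb) (by
    have : a ≠ 0 := by omega
    exact_mod_cast this)

lemma exists_prim (m : ℕ) (hm : 0 < m) : ∃ ζ : Qb, IsPrimitiveRoot ζ m := by
  have : NeZero ((m : ℕ) : Qb) := ⟨by exact_mod_cast hm.ne'⟩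
  obtain ⟨ζ, hζ⟩ := IsAlgClosed.exists_root (cyclotomic m Qb) (by
    rw [degree_cyclotomic]
    exact_mod_cast (Nat.totient_pos.2 hm).ne')
  exact ⟨ζ, isRoot_cyclotomic_iff.1 hζ⟩

lemma unitsAway_sup {Γ : Subgroup Qbˣ} {D : ℕ} (h : UnitsAway Γ D) {a : ℕ} (ha : 2 ≤ a) :
    UnitsAway (Γ ⊔ Subgroup.zpowers (natUnit a ha)) (D * a) := by
  obtain ⟨hD, h⟩ := h
  refine ⟨Nat.mul_ne_zero hD (by omega), fun g hg => ?_⟩
  obtain ⟨x, hx, y, hy, rfl⟩ := Subgroup.mem_sup.1 hg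
  obtain ⟨z, rfl⟩ := Subgroup.mem_zpowers_iff.1 hy
  obtain ⟨e, he1, he2⟩ := h x hx
  have ha0 : (a : Qb) ≠ 0 := by
    have : a ≠ 0 := by omega
    exact_mod_cast this
  have hz1 : IsIntegral ℤ ((a : Qb) ^ (z.natAbs : ℤ) * (a : Qb) ^ z) := by
    rw [← zpow_add₀ ha0]
    have h1 : 0 ≤ (z.natAbs : ℤ) + z := by omega
    obtain ⟨k, hk⟩ := Int.eq_ofNat_of_zero_le h1
    rw [hk, zpow_natCast]
    exact (natCast_int a).pow k
  have hz2 : IsIntegral ℤ ((a : Qb) ^ (z.natAbs : ℤ) * (a : Qb) ^ (-z)) := by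
    rw [← zpow_add₀ ha0]
    have h1 : 0 ≤ (z.natAbs : ℤ) + -z := by omega
    obtain ⟨k, hk⟩ := Int.eq_ofNat_of_zero_le h1
    rw [hk, zpow_natCast]
    exact (natCast_int a).pow k
  rw [zpow_natCast] at hz1 hz2
  refine ⟨e + z.natAbs, ?_, ?_⟩
  · have e1 : (((D * a : ℕ) : Qb)) ^ (e + z.natAbs) * ((x * natUnit a ha ^ z : Qbˣ) : Qb) =
        ((D : Qb) ^ e * (x : Qb)) * ((D : Qb) ^ z.natAbs * (a : Qb) ^ e) *
          ((a : Qb) ^ z.natAbs * (a : Qb) ^ z) := by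
      rw [Units.val_mul, Units.val_zpow_eq_zpow_val]
      have : ((natUnit a ha : Qbˣ) : Qb) = a := rfl
      rw [this]
      push_cast
      ring
    rw [e1]
    exact (he1.mul (((natCast_int D).pow _).mul ((natCast_int a).pow _))).mul hz1
  · have e1 : (((D * a : ℕ) : Qb)) ^ (e + z.natAbs) * ((x * natUnit a ha ^ z : Qbˣ) : Qb)⁻¹ =
        ((D : Qb) ^ e * (x : Qb)⁻¹) * ((D : Qb) ^ z.natAbs * (a : Qb) ^ e) *
          ((a : Qb) ^ z.natAbs * (a : Qb) ^ (-z)) := by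
      rw [Units.val_mul, Units.val_zpow_eq_zpow_val, mul_inv]
      have : ((natUnit a ha : Qbˣ) : Qb) = a := rfl
      rw [this, ← zpow_neg]
      push_cast
      ring
    rw [e1]
    exact (he2.mul (((natCast_int D).pow _).mul ((natCast_int a).pow _))).mul hz2

/-- the auxiliary prime -/
lemma exists_aux {B n p : ℕ} (hB : 0 < B) (hn : 0 < n) (hp : p.Prime) :
    ∃ j s : ℕ, s.Prime ∧ 100 ≤ n * p ^ j ∧ n * p ^ j < 6 * s ∧ 3 * s ≤ n * p ^ j ∧ ¬ s ∣ B := by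
  set j := 6 * B + 100 with hj
  have h1 : j < 2 ^ j := Nat.lt_two_pow_self
  have h2 : 2 ^ j ≤ p ^ j := Nat.pow_le_pow_left hp.two_le j
  have h3 : 1 * p ^ j ≤ n * p ^ j := Nat.mul_le_mul_right _ hn
  set n' := n * p ^ j with hn'
  have h4 : 6 * B + 100 < n' := by omega
  obtain ⟨s, hs, hs1, hs2⟩ := Nat.exists_prime_lt_and_le_two_mul (n' / 6) (by omega)
  refine ⟨j, s, hs, by omega, by omega, by omega, fun h => ?_⟩
  have := Nat.le_of_dvd hB h
  omega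

lemma height_nat {K : Type*} [Field K] [NumberField K] (φ : K →+* Qb) {a : ℕ} (ha : 2 ≤ a) :
    Real.log (mulHeight₁ (a : K)) = finrank ℚ K * Real.log a := by
  have hK0 : (0 : ℝ) < finrank ℚ K := by exact_mod_cast (finrank_pos : 0 < finrank ℚ K)
  have : NeZero a := ⟨by omega⟩
  have h1 := height_rel φ (a : K)
  have h2 := height_rel (algebraMap ℚ Qb) (a : ℚ)
  rw [map_natCast] at h1 h2
  rw [h2, Rat.mulHeight₁_natCast, finrank_self, Nat.cast_one, div_one, eq_div_iff hK0.ne'] at h1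
  rw [← h1, mul_comm]

end Pool.Agent.Y730.RF
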