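import Mathlib
import Pool.Agent.Y730.RF.StepF

/-!
# Adjoining the roots of one integer: the induction step
-/

set_option autoImplicit false

open NumberField Module Polynomial IntermediateField Height

namespace Pool.Agent.Y730.RF

open Pool.Agent.H58P (Qb ht)
open Pool.Agent.Y730.RD (Admissible exists_prime_exact height_rel)

attribute [local instance] supAlg

/-- small elements of `F(ζ)(ξ)` -/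
lemma star {Γ : Subgroup Qbˣ} {c : ℝ} {F : IntermediateField ℚ Qb}
    [FiniteDimensional ℚ F] {N : ℕ} (hG : Good Γ c F N) {m : ℕ} (hm : 0 < m)
    (hmN : Nat.Coprime m N) {ζ : Qb} (hζ : IsPrimitiveRoot ζ m) {D : ℕ} (hD : UnitsAway Γ D)
    {s : ℕ} (hs : s.Prime) (hsD : ¬ s ∣ D) (hsN : ¬ s ∣ N) (hsm : ¬ s ∣ m)
    {ξ : Qb} (hξ : IsPrimitiveRoot ξ s) (ξ' : 𝓞 ↥((F ⊔ ℚ⟮ζ⟯) ⊔ ℚ⟮ξ⟯))
    (hξ' : ((ξ' : ↥((F ⊔ ℚ⟮ζ⟯) ⊔ ℚ⟮ξ⟯)) : Qb) = ξ)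
    (δ : ↥((F ⊔ ℚ⟮ζ⟯) ⊔ ℚ⟮ξ⟯)) (hδ0 : δ ≠ 0)
    (hδ : Real.log (mulHeight₁ δ) < c * finrank ℚ ↥((F ⊔ ℚ⟮ζ⟯) ⊔ ℚ⟮ξ⟯)) :
    ∃ (κ : ↥(F ⊔ ℚ⟮ζ⟯)) (j : ℕ), δ = algebraMap ↥(F ⊔ ℚ⟮ζ⟯) ↥((F ⊔ ℚ⟮ζ⟯) ⊔ ℚ⟮ξ⟯) κ *
      (ξ' : ↥((F ⊔ ℚ⟮ζ⟯) ⊔ ℚ⟮ξ⟯)) ^ j := by
  have hK0 : (0 : ℝ) < finrank ℚ ↥((F ⊔ ℚ⟮ζ⟯) ⊔ ℚ⟮ξ⟯) := by
    exact_mod_cast (finrank_pos : 0 < finrank ℚ ↥((F ⊔ ℚ⟮ζ⟯) ⊔ ℚ⟮ξ⟯))
  have hδQ0 : (δ : Qb) ≠ 0 := fun h => hδ0 (Subtype.ext h)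
  have hms : 0 < m * s := Nat.mul_pos hm hs.pos
  obtain ⟨ω, hω⟩ := exists_prim (m * s) hms
  have : NeZero (m * s) := ⟨hms.ne'⟩
  have hζω : ζ ∈ ℚ⟮ω⟯ := by
    obtain ⟨i, -, hi⟩ := hω.eq_pow_of_pow_eq_one (ξ := ζ) (by rw [pow_mul, hζ.pow_eq_one, one_pow])
    rw [← hi]
    exact pow_mem (mem_adjoin_simple_self ℚ ω) i
  have hξω : ξ ∈ ℚ⟮ω⟯ := by
    obtain ⟨i, -, hi⟩ := hω.eq_pow_of_pow_eq_one (ξ := ξ) (by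
      rw [mul_comm, pow_mul, hξ.pow_eq_one, one_pow])
    rw [← hi]
    exact pow_mem (mem_adjoin_simple_self ℚ ω) i
  have hle : (F ⊔ ℚ⟮ζ⟯) ⊔ ℚ⟮ξ⟯ ≤ F ⊔ ℚ⟮ω⟯ := by
    apply sup_le (sup_le le_sup_left _) _
    · exact ((adjoin_simple_le_iff).2 hζω).trans le_sup_right
    · exact ((adjoin_simple_le_iff).2 hξω).trans le_sup_right
  have hsN' : Nat.Coprime s N := (Nat.Prime.coprime_iff_not_dvd hs).2 hsN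
  have hh : NumberField.absLogHeight₁ (δ : Qb) < c := by
    have h1 := height_rel (algebraMap ↥((F ⊔ ℚ⟮ζ⟯) ⊔ ℚ⟮ξ⟯) Qb) δ
    have h2 : (algebraMap ↥((F ⊔ ℚ⟮ζ⟯) ⊔ ℚ⟮ξ⟯) Qb) δ = δ := rfl
    rw [h2] at h1
    rw [h1, div_lt_iff₀ hK0]
    exact hδ
  obtain ⟨k, hk, g, hg, hgk⟩ := hG.small (m * s) hms (Nat.Coprime.mul_left hmN hsN') ω hω
    (δ : Qb) (hle δ.2) hδQ0 hh
  obtain ⟨hD0, hDg⟩ := hD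
  obtain ⟨e, he1, he2⟩ := hDg g hg
  have hgF : (g : Qb) ∈ F ⊔ ℚ⟮ζ⟯ := (le_sup_left : F ≤ F ⊔ ℚ⟮ζ⟯) (hG.mem g hg)
  have hsNm : Nat.Coprime s (N * m) :=
    Nat.Coprime.mul_right hsN' ((Nat.Prime.coprime_iff_not_dvd hs).2 hsm)
  obtain ⟨κ, hκ, j, hj⟩ := rou (F ⊔ ℚ⟮ζ⟯) hs hξ (cyc_sup_disc F hG.disc hm hζ) hsNm (D ^ e)
    (fun h => hsD (hs.dvd_of_dvd_pow h)) (δ : Qb) δ.2 hδQ0 k hk (g : Qb) hgk hgF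
    (by push_cast; exact he1) (by push_cast; exact he2)
  refine ⟨⟨κ, hκ⟩, j, ?_⟩
  apply Subtype.ext
  have e1 : (((algebraMap ↥(F ⊔ ℚ⟮ζ⟯) ↥((F ⊔ ℚ⟮ζ⟯) ⊔ ℚ⟮ξ⟯) ⟨κ, hκ⟩ *
      (ξ' : ↥((F ⊔ ℚ⟮ζ⟯) ⊔ ℚ⟮ξ⟯)) ^ j : ↥((F ⊔ ℚ⟮ζ⟯) ⊔ ℚ⟮ξ⟯))) : Qb) =
      κ * ((ξ' : ↥((F ⊔ ℚ⟮ζ⟯) ⊔ ℚ⟮ξ⟯)) : Qb) ^ j := rfl
  rw [e1, hξ']
  exact hj

lemma coe_alg {K : IntermediateField ℚ Qb} (x : K) : (algebraMap K Qb) x = (x : Qb) := rfl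

lemma coe_supAlg (F G : IntermediateField ℚ Qb) (x : F) :
    ((algebraMap F ↥(F ⊔ G) x : ↥(F ⊔ G)) : Qb) = (x : Qb) := rfl

/-- the height of `κ` -/
lemma kappa_height {E K : Type*} [Field E] [Field K] [NumberField K] [Algebra E K]
    (φ : K →+* Qb) {a n' : ℕ} (ha : 2 ≤ a) (hn' : 0 < n') (T A : K) (hT0 : T ≠ 0)
    (hTn : T ^ n' = (a : K)) (κ : E) (i : ℕ)
    (hκ : A = algebraMap E K κ * T ^ i ∨ A * T ^ i = algebraMap E K κ) {c : ℝ} (hc : 0 < c)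
    (hh : Real.log (mulHeight₁ A) < c / 4000 * finrank ℚ K)
    (hi : 249 * (i * Real.log a) ≤ c * n') :
    NumberField.absLogHeight₁ (φ (algebraMap E K κ)) < c := by
  have hK0 : (0 : ℝ) < finrank ℚ K := by exact_mod_cast (finrank_pos : 0 < finrank ℚ K)
  have hTh : n' * Real.log (mulHeight₁ T) = finrank ℚ K * Real.log a := by
    rw [← Real.log_pow, ← mulHeight₁_pow, hTn]
    exact height_nat φ ha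
  set κ' : K := algebraMap E K κ with hκ'
  have hκh : Real.log (mulHeight₁ κ') ≤ Real.log (mulHeight₁ A) + i * Real.log (mulHeight₁ T) := by
    have h1 : mulHeight₁ κ' ≤ mulHeight₁ A * mulHeight₁ T ^ i := by
      rcases hκ with h | h
      · have h2 : κ' = A * (T ^ i)⁻¹ := by
          rw [eq_mul_inv_iff_mul_eq₀ (pow_ne_zero _ hT0)]
          exact h.symm
        calc mulHeight₁ κ' ≤ mulHeight₁ A * mulHeight₁ (T ^ i)⁻¹ := by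
              rw [h2]
              exact mulHeight₁_mul_le _ _
          _ = _ := by rw [mulHeight₁_inv, mulHeight₁_pow]
      · calc mulHeight₁ κ' ≤ mulHeight₁ A * mulHeight₁ (T ^ i) := by
              rw [← h]
              exact mulHeight₁_mul_le _ _
          _ = _ := by rw [mulHeight₁_pow]
    have h2 := Real.log_le_log (mulHeight₁_pos _) h1
    rwa [Real.log_mul (mulHeight₁_ne_zero _) (pow_ne_zero _ (mulHeight₁_ne_zero _)),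
      Real.log_pow] at h2
  have hn'r : (0 : ℝ) < n' := by exact_mod_cast hn'
  rw [height_rel φ κ', div_lt_iff₀ hK0]
  set dK : ℝ := (finrank ℚ K : ℝ) with hdK
  have h3 : n' * (i * Real.log (mulHeight₁ T)) = dK * (i * Real.log a) := by
    calc n' * (i * Real.log (mulHeight₁ T)) = i * (n' * Real.log (mulHeight₁ T)) := by ring
      _ = _ := by rw [hTh]; ring
  have h4 : dK * (249 * (i * Real.log a)) ≤ dK * (c * n') := mul_le_mul_of_nonneg_left hi hK0.le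
  have h5 : 249 * (i * Real.log (mulHeight₁ T)) ≤ c * dK := by
    refine le_of_mul_le_mul_left ?_ hn'r
    calc n' * (249 * (i * Real.log (mulHeight₁ T))) =
        249 * (n' * (i * Real.log (mulHeight₁ T))) := by ring
      _ = dK * (249 * (i * Real.log a)) := by rw [h3]; ring
      _ ≤ dK * (c * n') := h4
      _ = n' * (c * dK) := by ring
  have h6 : 0 < c * dK := mul_pos hc hK0
  have h7 : c / 4000 * dK = (c * dK) / 4000 := by ring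
  rw [h7] at hh
  linarith

lemma inDiv_end {Γ : Subgroup Qbˣ} {a : ℕ} (ha2 : 2 ≤ a) {n' : ℕ} (hn' : 0 < n') {α κ θ' : Qb}
    (hθN : θ' ^ n' = (a : Qb)) {i : ℕ} (hκ : InDiv Γ κ)
    (h : α = κ * θ' ^ i ∨ α * θ' ^ i = κ) :
    InDiv (Γ ⊔ Subgroup.zpowers (natUnit a ha2)) α := by
  have haQ0 : (a : Qb) ≠ 0 := by
    have : a ≠ 0 := by omega
    exact_mod_cast this
  obtain ⟨k, hk, g, hg, hgk⟩ := hκ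
  have hu : ((natUnit a ha2 : Qbˣ) : Qb) = a := rfl
  refine ⟨k * n', Nat.mul_pos hk hn', ?_⟩
  have hgn : g ^ n' ∈ Γ ⊔ Subgroup.zpowers (natUnit a ha2) :=
    pow_mem ((le_sup_left : Γ ≤ Γ ⊔ Subgroup.zpowers (natUnit a ha2)) hg) _
  have hum : natUnit a ha2 ^ (i * k) ∈ Γ ⊔ Subgroup.zpowers (natUnit a ha2) :=
    pow_mem ((le_sup_right : Subgroup.zpowers (natUnit a ha2) ≤ _)
      (Subgroup.mem_zpowers _)) _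
  have hθpow : (θ' ^ i) ^ (k * n') = (a : Qb) ^ (i * k) := by
    rw [← pow_mul, ← hθN, ← pow_mul]
    congr 1
    ring
  have hκpow : κ ^ (k * n') = (g : Qb) ^ n' := by
    rw [pow_mul, hgk]
  rcases h with h1 | h1
  · refine ⟨g ^ n' * natUnit a ha2 ^ (i * k), mul_mem hgn hum, ?_⟩
    rw [h1, mul_pow, hθpow, hκpow, Units.val_mul, Units.val_pow_eq_pow_val,
      Units.val_pow_eq_pow_val, hu]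
  · refine ⟨g ^ n' * (natUnit a ha2 ^ (i * k))⁻¹, mul_mem hgn (inv_mem hum), ?_⟩
    have h2 : α ^ (k * n') * (a : Qb) ^ (i * k) = (g : Qb) ^ n' := by
      rw [← hθpow, ← mul_pow, h1, hκpow]
    rw [Units.val_mul, Units.val_inv_eq_inv_val, Units.val_pow_eq_pow_val,
      Units.val_pow_eq_pow_val, hu, eq_mul_inv_iff_mul_eq₀ (pow_ne_zero _ haQ0)]
    exact h2

set_option maxHeartbeats 400000 in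
/-- the induction step, for small points -/
theorem step_small {Γ : Subgroup Qbˣ} {c : ℝ} (hc : 0 < c) (hc1 : c ≤ 1)
    {F : IntermediateField ℚ Qb} [FiniteDimensional ℚ F] {N : ℕ} (hG : Good Γ c F N)
    {a n : ℕ} (ha : Squarefree a) (ha2 : 2 ≤ a) (hadm : Admissible a n)
    (hcop : Nat.Coprime (n * a) N) {θ : Qb} (hθ : θ ^ n = a)
    {m : ℕ} (hm : 0 < m) (hmN : Nat.Coprime m (N * (n * a))) {ζ : Qb} (hζ : IsPrimitiveRoot ζ m)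
    {α : Qb} (hα : α ∈ (F ⊔ ℚ⟮θ⟯) ⊔ ℚ⟮ζ⟯) (hα0 : α ≠ 0)
    (hh : NumberField.absLogHeight₁ α < c / 4000) :
    InDiv (Γ ⊔ Subgroup.zpowers (natUnit a ha2)) α := by
  have hn : 0 < n := hadm.1
  have hN0 : N ≠ 0 := by
    rintro rfl
    rw [Nat.coprime_zero_right] at hcop
    have := Nat.eq_one_of_mul_eq_one_left hcop
    omega
  obtain ⟨p, hp, hpa, hpa2⟩ := exists_prime_exact ha ha2
  obtain ⟨D, hD⟩ := hG.units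
  have hB : 0 < N * m * D := by
    have h1 := hD.1
    positivity
  obtain ⟨j, s, hs, h100, hs1, hs2, hsB⟩ := exists_aux hB hn hp
  have hsN : ¬ s ∣ N := fun h => hsB ((h.mul_right m).mul_right D)
  have hsm : ¬ s ∣ m := fun h => hsB ((h.mul_left N).mul_right D)
  have hsD : ¬ s ∣ D := fun h => hsB (h.mul_left _)
  set n' := n * p ^ j with hn'
  have hn'0 : 0 < n' := by omega
  have hadm' : Admissible a n' := hadm.mul hp hpa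
  obtain ⟨θ', hθ'⟩ := IsAlgClosed.exists_pow_nat_eq θ (pow_pos hp.pos j)
  have hθN : θ' ^ n' = (a : Qb) := by
    rw [hn', mul_comm, pow_mul, hθ', hθ]
  -- coprimality
  have hmN1 : Nat.Coprime m N := Nat.Coprime.coprime_mul_right_right hmN
  have hmna : Nat.Coprime m (n * a) := Nat.Coprime.coprime_mul_left_right hmN
  have hnaNm : Nat.Coprime (n * a) (N * m) := Nat.Coprime.mul_right hcop hmna.symm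
  have haNm : Nat.Coprime a (N * m) := Nat.Coprime.coprime_mul_left hnaNm
  have hpNm : Nat.Coprime p (N * m) := Nat.Coprime.coprime_dvd_left hpa haNm
  have hn'aNm : Nat.Coprime (n' * a) (N * m) := by
    have : n' * a = (n * a) * p ^ j := by rw [hn']; ring
    rw [this]
    exact Nat.Coprime.mul_left hnaNm (Nat.Coprime.pow_left _ hpNm)
  have hF₂ : DiscOk (F ⊔ ℚ⟮ζ⟯) (N * m) := cyc_sup_disc F hG.disc hm hζ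
  have hsNm : Nat.Coprime s (N * m) :=
    (Nat.Prime.coprime_iff_not_dvd hs).2 (fun h => by
      rcases (hs.dvd_mul).1 h with h | h
      · exact hsN h
      · exact hsm h)
  -- the field `K`
  have hfr := rad_finrank (F ⊔ ℚ⟮ζ⟯) ha ha2 hn'0 hθN hF₂ haNm
  have hθi : IsIntegral ℤ θ' := IsIntegral.of_pow hn'0 (by rw [hθN]; exact natCast_int a)
  set ϑ : 𝓞 ↥((F ⊔ ℚ⟮ζ⟯) ⊔ ℚ⟮θ'⟯) := toInt _ θ' (mem_sup_adjoin (F ⊔ ℚ⟮ζ⟯) θ') hθi with hϑ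
  have hϑn : ϑ ^ n' = (a : 𝓞 ↥((F ⊔ ℚ⟮ζ⟯) ⊔ ℚ⟮θ'⟯)) := by
    apply int_ext
    have h1 : ((((a : 𝓞 ↥((F ⊔ ℚ⟮ζ⟯) ⊔ ℚ⟮θ'⟯)) : ↥((F ⊔ ℚ⟮ζ⟯) ⊔ ℚ⟮θ'⟯))) : Qb) = a := by simp
    rw [h1]
    exact hθN
  have hgen : LinearIndependent ↥(F ⊔ ℚ⟮ζ⟯)
      (fun i : Fin n' => (ϑ : ↥((F ⊔ ℚ⟮ζ⟯) ⊔ ℚ⟮θ'⟯)) ^ (i : ℕ)) := by
    have h1 := pow_li (F := ↥(F ⊔ ℚ⟮ζ⟯)) (K := ↥((F ⊔ ℚ⟮ζ⟯) ⊔ ℚ⟮θ'⟯))
      ⟨θ', mem_sup_adjoin (F ⊔ ℚ⟮ζ⟯) θ'⟩ (adj_top (F ⊔ ℚ⟮ζ⟯) θ')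
    rw [hfr] at h1
    exact h1
  have hDisc := disc_theta (F ⊔ ℚ⟮ζ⟯) ha ha2 hadm' hθN hF₂ hn'aNm
  -- the field `L`
  obtain ⟨ξ, hξ⟩ := exists_prim s hs.pos
  have hfrL : finrank ↥(F ⊔ ℚ⟮ζ⟯) ↥((F ⊔ ℚ⟮ζ⟯) ⊔ ℚ⟮ξ⟯) = s - 1 := by
    have h3 := tower (F ⊔ ℚ⟮ζ⟯) ℚ⟮ξ⟯
    rw [cyc_sup (F ⊔ ℚ⟮ζ⟯) hF₂ hs.pos hξ hsNm, Nat.totient_prime hs] at h3
    exact (Nat.eq_of_mul_eq_mul_left finrank_pos h3).symm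
  have hξi : IsIntegral ℤ ξ := hξ.isIntegral hs.pos
  set ξ' : 𝓞 ↥((F ⊔ ℚ⟮ζ⟯) ⊔ ℚ⟮ξ⟯) := toInt _ ξ (mem_sup_adjoin (F ⊔ ℚ⟮ζ⟯) ξ) hξi with hξ'
  have hξs : ξ' ^ s = 1 := by
    apply int_ext
    have h1 : ((((1 : 𝓞 ↥((F ⊔ ℚ⟮ζ⟯) ⊔ ℚ⟮ξ⟯)) : ↥((F ⊔ ℚ⟮ζ⟯) ⊔ ℚ⟮ξ⟯))) : Qb) = 1 := by simp
    rw [h1]
    exact hξ.pow_eq_one
  have hgenL : LinearIndependent ↥(F ⊔ ℚ⟮ζ⟯)
      (fun i : Fin (s - 1) => (ξ' : ↥((F ⊔ ℚ⟮ζ⟯) ⊔ ℚ⟮ξ⟯)) ^ (i : ℕ)) := by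
    have h1 := pow_li (F := ↥(F ⊔ ℚ⟮ζ⟯)) (K := ↥((F ⊔ ℚ⟮ζ⟯) ⊔ ℚ⟮ξ⟯))
      ⟨ξ, mem_sup_adjoin (F ⊔ ℚ⟮ζ⟯) ξ⟩ (adj_top (F ⊔ ℚ⟮ζ⟯) ξ)
    rw [hfrL] at h1
    exact h1
  have hζgen := gen_polyF (ξ' : ↥((F ⊔ ℚ⟮ζ⟯) ⊔ ℚ⟮ξ⟯)) hgenL
  have hDL := disc_s (F ⊔ ℚ⟮ζ⟯) hs hξ hF₂ hsNm
  -- `α` as an element of `K`
  have hθK : θ ∈ (F ⊔ ℚ⟮ζ⟯) ⊔ ℚ⟮θ'⟯ := by
    rw [← hθ']
    exact pow_mem (mem_sup_adjoin _ θ') _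
  have hαK : α ∈ (F ⊔ ℚ⟮ζ⟯) ⊔ ℚ⟮θ'⟯ := by
    have hle : (F ⊔ ℚ⟮θ⟯) ⊔ ℚ⟮ζ⟯ ≤ (F ⊔ ℚ⟮ζ⟯) ⊔ ℚ⟮θ'⟯ := by
      apply sup_le (sup_le _ _) _
      · exact le_sup_left.trans le_sup_left
      · rw [adjoin_simple_le_iff]
        exact hθK
      · exact le_sup_right.trans le_sup_left
    exact hle hα
  set A : ↥((F ⊔ ℚ⟮ζ⟯) ⊔ ℚ⟮θ'⟯) := ⟨α, hαK⟩ with hA
  have hA0 : A ≠ 0 := fun h => hα0 (congrArg Subtype.val h)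
  have hK0 : (0 : ℝ) < finrank ℚ ↥((F ⊔ ℚ⟮ζ⟯) ⊔ ℚ⟮θ'⟯) := by
    exact_mod_cast (finrank_pos : 0 < finrank ℚ ↥((F ⊔ ℚ⟮ζ⟯) ⊔ ℚ⟮θ'⟯))
  have hAh := height_rel (algebraMap ↥((F ⊔ ℚ⟮ζ⟯) ⊔ ℚ⟮θ'⟯) Qb) A
  have hAα : (algebraMap ↥((F ⊔ ℚ⟮ζ⟯) ⊔ ℚ⟮θ'⟯) Qb) A = α := rfl
  rw [hAα] at hAh
  rw [hAh, div_lt_iff₀ hK0] at hh
  obtain ⟨κ, hκ0, i, hi, hκ⟩ := mainG (L := ↥((F ⊔ ℚ⟮ζ⟯) ⊔ ℚ⟮ξ⟯)) hfr h100 ha2 ϑ hϑn hgen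
    (lossW a n') (lossW_one_le hn'0) (lossW_log hadm') hDisc hs1 hs2 hfrL ξ' hξs hζgen hDL c hc hc1
    (fun δ hδ0 hδ => star hG hm hmN1 hζ hD hs hsD hsN hsm hξ ξ' rfl δ hδ0 hδ) A hA0 (by linarith)
  -- the height of `κ`
  have haQ0 : (a : Qb) ≠ 0 := by
    have : a ≠ 0 := by omega
    exact_mod_cast this
  have hθ'0 : θ' ≠ 0 := by
    rintro rfl
    rw [zero_pow hn'0.ne'] at hθN
    exact haQ0 hθN.symm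
  have hT0 : (ϑ : ↥((F ⊔ ℚ⟮ζ⟯) ⊔ ℚ⟮θ'⟯)) ≠ 0 := fun h => hθ'0 (congrArg Subtype.val h)
  have hTn : (ϑ : ↥((F ⊔ ℚ⟮ζ⟯) ⊔ ℚ⟮θ'⟯)) ^ n' = (a : ↥((F ⊔ ℚ⟮ζ⟯) ⊔ ℚ⟮θ'⟯)) := by
    have := congrArg (algebraMap (𝓞 ↥((F ⊔ ℚ⟮ζ⟯) ⊔ ℚ⟮θ'⟯)) ↥((F ⊔ ℚ⟮ζ⟯) ⊔ ℚ⟮θ'⟯)) hϑn
    rw [map_pow, map_natCast] at this
    exact this
  have hκh := kappa_height (E := ↥(F ⊔ ℚ⟮ζ⟯)) (algebraMap ↥((F ⊔ ℚ⟮ζ⟯) ⊔ ℚ⟮θ'⟯) Qb) ha2 hn'0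
    (ϑ : ↥((F ⊔ ℚ⟮ζ⟯) ⊔ ℚ⟮θ'⟯)) A hT0 hTn κ i hκ hc hh hi
  rw [coe_alg, coe_supAlg] at hκh
  have hκQ0 : (κ : Qb) ≠ 0 := fun h => hκ0 (Subtype.ext h)
  refine inDiv_end ha2 hn'0 hθN (i := i) (κ := (κ : Qb))
    (hG.small m hm hmN1 ζ hζ (κ : Qb) κ.2 hκQ0 hκh) ?_
  rcases hκ with h | h
  · left
    have h1 := congrArg (algebraMap ↥((F ⊔ ℚ⟮ζ⟯) ⊔ ℚ⟮θ'⟯) Qb) h
    rw [map_mul, map_pow, coe_alg, coe_alg, coe_supAlg, coe_alg] at h1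
    exact h1
  · right
    have h1 := congrArg (algebraMap ↥((F ⊔ ℚ⟮ζ⟯) ⊔ ℚ⟮θ'⟯) Qb) h
    rw [map_mul, map_pow, coe_alg, coe_alg, coe_alg, coe_supAlg] at h1
    exact h1

/-- **The induction step.** -/
theorem step {Γ : Subgroup Qbˣ} {c : ℝ} (hc : 0 < c) (hc1 : c ≤ 1)
    {F : IntermediateField ℚ Qb} [FiniteDimensional ℚ F] {N : ℕ} (hG : Good Γ c F N)
    {a n : ℕ} (ha : Squarefree a) (ha2 : 2 ≤ a) (hadm : Admissible a n)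
    (hcop : Nat.Coprime (n * a) N) {θ : Qb} (hθ : θ ^ n = a) :
    Good (Γ ⊔ Subgroup.zpowers (natUnit a ha2)) (c / 4000) (F ⊔ ℚ⟮θ⟯) (N * (n * a)) where
  mem g hg := by
    obtain ⟨x, hx, y, hy, rfl⟩ := Subgroup.mem_sup.1 hg
    obtain ⟨z, rfl⟩ := Subgroup.mem_zpowers_iff.1 hy
    rw [Units.val_mul, Units.val_zpow_eq_zpow_val]
    have hu : ((natUnit a ha2 : Qbˣ) : Qb) = a := rfl
    rw [hu]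
    exact mul_mem ((le_sup_left : F ≤ F ⊔ ℚ⟮θ⟯) (hG.mem x hx))
      (zpow_mem (_root_.natCast_mem _ a) z)
  disc := rad_sup_disc F ha2 hadm.1 hθ hG.disc
  units := by
    obtain ⟨D, hD⟩ := hG.units
    exact ⟨D * a, unitsAway_sup hD ha2⟩
  small m hm hmN ζ hζ α hα hα0 hh :=
    step_small hc hc1 hG ha ha2 hadm hcop hθ hm hmN hζ hα hα0 hh

end Pool.Agent.Y730.RF
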