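import Mathlib
import Pool.Agent.Results.MP_f61260_nt.SmoothRoots
import Pool.Agent.Y730.RF.StepG

/-!
# The base of the induction
-/

set_option autoImplicit false

open NumberField Module Polynomial IntermediateField Height

namespace Pool.Agent.Y730.RF

open Pool.Agent.H58P (Qb ht)
open Pool.Agent.Results.MP_f61260_nt.SmoothRoots (InDivisionGroup smoothRootField)

/-- multiplying by an integer -/
lemma exists_denom (x : Qb) : ∃ d : ℕ, d ≠ 0 ∧ IsIntegral ℤ ((d : Qb) * x) := by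
  have hx : IsAlgebraic ℤ x := by
    have h1 : IsAlgebraic ℚ x := (Pool.Agent.H58P.qb_isIntegral x).isAlgebraic
    exact (IsFractionRing.isAlgebraic_iff ℤ ℚ Qb).2 h1
  obtain ⟨y, hy, hyx⟩ := hx.exists_integral_multiple
  refine ⟨y.natAbs, Int.natAbs_ne_zero.2 hy, ?_⟩
  rw [zsmul_eq_mul] at hyx
  rcases Int.natAbs_eq y with h | h
  · rw [h] at hyx
    simpa using hyx
  · rw [h] at hyx
    have := hyx.neg
    simpa using this

lemma exists_denom2 (g : Qbˣ) : ∃ d : ℕ, d ≠ 0 ∧ IsIntegral ℤ ((d : Qb) * (g : Qb)) ∧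
    IsIntegral ℤ ((d : Qb) * (g : Qb)⁻¹) := by
  obtain ⟨d1, h1, h2⟩ := exists_denom (g : Qb)
  obtain ⟨d2, h3, h4⟩ := exists_denom (g : Qb)⁻¹
  refine ⟨d1 * d2, Nat.mul_ne_zero h1 h3, ?_, ?_⟩
  · have e : ((d1 * d2 : ℕ) : Qb) * (g : Qb) = (d2 : Qb) * ((d1 : Qb) * g) := by
      push_cast
      ring
    rw [e]
    exact (natCast_int d2).mul h2
  · have e : ((d1 * d2 : ℕ) : Qb) * (g : Qb)⁻¹ = (d1 : Qb) * ((d2 : Qb) * (g : Qb)⁻¹) := by
      push_cast
      ring
    rw [e]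
    exact (natCast_int d1).mul h4

/-- finitely generated groups consist of units outside finitely many primes -/
lemma exists_unitsAway {Γ : Subgroup Qbˣ} (hΓ : Γ.FG) : ∃ D, UnitsAway Γ D := by
  classical
  obtain ⟨S, hS⟩ := hΓ
  choose d hd0 hd1 hd2 using exists_denom2
  set D := ∏ g ∈ S, d g with hD
  have hD0 : D ≠ 0 := Finset.prod_ne_zero_iff.2 fun g _ => hd0 g
  refine ⟨D, hD0, fun g hg => ?_⟩
  rw [← hS] at hg
  induction hg using Subgroup.closure_induction with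
  | mem x hx =>
    obtain ⟨e, he⟩ := Finset.dvd_prod_of_mem d hx
    have he' : (D : Qb) = e * d x := by
      rw [hD, he]
      push_cast
      ring
    refine ⟨1, ?_, ?_⟩
    · rw [pow_one, he', mul_assoc]
      exact (natCast_int e).mul (hd1 x)
    · rw [pow_one, he', mul_assoc]
      exact (natCast_int e).mul (hd2 x)
  | one => exact ⟨0, by simpa using isIntegral_one, by simpa using isIntegral_one⟩
  | mul x y _ _ hx hy =>
    obtain ⟨e1, h1, h2⟩ := hx
    obtain ⟨e2, h3, h4⟩ := hy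
    refine ⟨e1 + e2, ?_, ?_⟩
    · have e : (D : Qb) ^ (e1 + e2) * ((x * y : Qbˣ) : Qb) =
          ((D : Qb) ^ e1 * x) * ((D : Qb) ^ e2 * y) := by
        rw [Units.val_mul]
        ring
      rw [e]
      exact h1.mul h3
    · have e : (D : Qb) ^ (e1 + e2) * ((x * y : Qbˣ) : Qb)⁻¹ =
          ((D : Qb) ^ e1 * (x : Qb)⁻¹) * ((D : Qb) ^ e2 * (y : Qb)⁻¹) := by
        rw [Units.val_mul, mul_inv]
        ring
      rw [e]
      exact h2.mul h4
  | inv x _ hx =>
    obtain ⟨e1, h1, h2⟩ := hx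
    refine ⟨e1, ?_, ?_⟩
    · rw [Units.val_inv_eq_inv_val]
      exact h2
    · rw [Units.val_inv_eq_inv_val, inv_inv]
      exact h1

/-- the base of the induction -/
theorem base (K : IntermediateField ℚ Qb) (hK : FiniteDimensional ℚ K)
    (Γ : Subgroup Qbˣ) (hΓ : Γ.FG) (P₀ : Finset ℕ) (hP₀ : ∀ p ∈ P₀, p.Prime) :
    ∃ c : ℝ, 0 < c ∧ c ≤ 1 ∧ ∀ F : IntermediateField ℚ Qb, ∀ _ : FiniteDimensional ℚ F,
      F ≤ smoothRootField K Γ P₀ → (∀ g ∈ Γ, (g : Qb) ∈ F) →
        Good Γ c F (discr F).natAbs := by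
  obtain ⟨c, hc, h⟩ := Pool.Agent.Results.MP_f61260_nt.SmoothRoots.result K hK Γ hΓ P₀ hP₀ 1
  refine ⟨min c 1, lt_min hc one_pos, min_le_right _ _, fun F hF hFle hΓF => ?_⟩
  refine ⟨hΓF, ?_, exists_unitsAway hΓ, ?_⟩
  · intro q hq h1
    exact Int.natCast_dvd.1 h1
  · intro m hm _ ζ hζ α hα hα0 hh
    by_contra hnd
    have h1 : c ≤ NumberField.absLogHeight₁ α := by
      refine h α hα0 hnd ?_
      have hmem : α ∈ smoothRootField K Γ P₀ := by
        have hle : F ⊔ ℚ⟮ζ⟯ ≤ smoothRootField K Γ P₀ := by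
          apply sup_le hFle
          rw [adjoin_simple_le_iff]
          refine (le_sup_right : _ ≤ smoothRootField K Γ P₀) (subset_adjoin _ _ ?_)
          exact Or.inl ⟨m, hm, hζ.pow_eq_one⟩
        exact hle hα
      have h2 := minpoly.eq_X_sub_C (B := Qb) (⟨α, hmem⟩ : smoothRootField K Γ P₀)
      have h3 : minpoly (smoothRootField K Γ P₀) α = X - C (⟨α, hmem⟩ : smoothRootField K Γ P₀) := h2
      rw [h3, natDegree_X_sub_C]
    have h2 := min_le_left c 1
    linarith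

end Pool.Agent.Y730.RF
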