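import Mathlib
import Pool.Agent.Y730.RF.Base

/-!
# Adjoining the roots of several integers
-/

set_option autoImplicit false

open NumberField Module Polynomial IntermediateField Height

namespace Pool.Agent.Y730.RF

open Pool.Agent.H58P (Qb ht)
open Pool.Agent.Y730.RD (Admissible)

lemma InDiv.mono {Γ Γ' : Subgroup Qbˣ} (h : Γ ≤ Γ') {β : Qb} (hβ : InDiv Γ β) : InDiv Γ' β := by
  obtain ⟨n, hn, g, hg, h1⟩ := hβ
  exact ⟨n, hn, g, h hg, h1⟩

/-- iteration of the induction step -/
theorem iterate {ι : Type*} (a : ι → ℕ) (ha2 : ∀ i, 2 ≤ a i) (ha : ∀ i, Squarefree (a i))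
    {Γ : Subgroup Qbˣ} {c : ℝ} (hc : 0 < c) (hc1 : c ≤ 1)
    {F : IntermediateField ℚ Qb} [hF : FiniteDimensional ℚ F] {N : ℕ} (hG : Good Γ c F N)
    (n : ι → ℕ) (θ : ι → Qb) (hadm : ∀ i, Admissible (a i) (n i))
    (hθ : ∀ i, θ i ^ n i = (a i : Qb)) (hcopN : ∀ i, Nat.Coprime (n i * a i) N)
    (hcop : ∀ i j, i ≠ j → Nat.Coprime (n i * a i) (n j * a j)) (s : Finset ι) :
    ∃ (E : IntermediateField ℚ Qb) (_ : FiniteDimensional ℚ E) (Γ' : Subgroup Qbˣ),
      F ≤ E ∧ (∀ i ∈ s, θ i ∈ E) ∧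
      Γ' ≤ Γ ⊔ Subgroup.closure (Set.range fun i => natUnit (a i) (ha2 i)) ∧
      Good Γ' (c / 4000 ^ s.card) E (N * ∏ i ∈ s, (n i * a i)) := by
  classical
  induction s using Finset.induction_on with
  | empty =>
    refine ⟨F, hF, Γ, le_rfl, fun i hi => absurd hi (Finset.notMem_empty i), le_sup_left, ?_⟩
    rw [Finset.card_empty, pow_zero, div_one, Finset.prod_empty, mul_one]
    exact hG
  | insert i s his ih =>
    obtain ⟨E, hE, Γ', h1, h2, h3, h4⟩ := ih
    have h40 : (1 : ℝ) ≤ 4000 ^ s.card := one_le_pow₀ (by norm_num)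
    have hstep := step (a := a i) (n := n i) (θ := θ i) (div_pos hc (by linarith))
      ((div_le_self hc.le h40).trans hc1) h4 (ha i) (ha2 i) (hadm i) (by
        apply Nat.Coprime.mul_right (hcopN i)
        apply Nat.Coprime.prod_right
        intro j hj
        apply hcop
        rintro rfl
        exact his hj) (hθ i)
    refine ⟨E ⊔ ℚ⟮θ i⟯, inferInstance, Γ' ⊔ Subgroup.zpowers (natUnit (a i) (ha2 i)),
      h1.trans le_sup_left, ?_, ?_, ?_⟩
    · intro j hj
      rcases Finset.mem_insert.1 hj with h | h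
      · rw [h]
        exact mem_sup_adjoin E (θ i)
      · exact (le_sup_left : E ≤ E ⊔ ℚ⟮θ i⟯) (h2 j h)
    · apply sup_le h3
      refine le_trans ?_ le_sup_right
      rw [Subgroup.zpowers_le]
      exact Subgroup.subset_closure ⟨i, rfl⟩
    · rw [Finset.card_insert_of_notMem his, Finset.prod_insert his, pow_succ, ← div_div,
        mul_comm (n i * a i), ← mul_assoc]
      exact hstep

/-- extracting finitely many generators -/
lemma extract {ι : Type*} (B F₀ : IntermediateField ℚ Qb) [hF₀ : FiniteDimensional ℚ F₀]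
    (hFB : F₀ ≤ B) (X : ι → Set ℕ) (hX1 : ∀ i, 1 ∈ X i) (hXpos : ∀ i, ∀ n ∈ X i, 0 < n)
    (hX : ∀ i, ∀ m ∈ X i, ∀ n ∈ X i, Nat.lcm m n ∈ X i) (ρ : ι → ℕ → Qb)
    (hρ : ∀ i m n, 0 < n → m ∣ n → ρ i m ∈ ℚ⟮ρ i n⟯) (T : Finset Qb)
    (hT : ∀ y ∈ T, y ∈ B ∨ ∃ i, ∃ n ∈ X i, y = ρ i n) :
    ∃ (F : IntermediateField ℚ Qb) (_ : FiniteDimensional ℚ F), F₀ ≤ F ∧ F ≤ B ∧
      ∃ n : ι → ℕ, (∀ i, n i ∈ X i) ∧ ∀ y ∈ T, y ∈ F ∨ ∃ i, y ∈ ℚ⟮ρ i (n i)⟯ := by
  classical
  induction T using Finset.induction_on with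
  | empty => exact ⟨F₀, hF₀, le_rfl, hFB, fun _ => 1, hX1,
      fun y hy => absurd hy (Finset.notMem_empty y)⟩
  | insert y T hyT ih =>
    obtain ⟨F, hF, h1, h2, n, h3, h4⟩ := ih (fun z hz => hT z (Finset.mem_insert_of_mem hz))
    rcases hT y (Finset.mem_insert_self y T) with hy | ⟨i, m, hm, hy⟩
    · refine ⟨F ⊔ ℚ⟮y⟯, inferInstance, h1.trans le_sup_left, ?_, n, h3, ?_⟩
      · exact sup_le h2 ((adjoin_simple_le_iff).2 hy)
      · intro z hz
        rcases Finset.mem_insert.1 hz with h | h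
        · left
          rw [h]
          exact mem_sup_adjoin F y
        · rcases h4 z h with h5 | h5
          · left
            exact (le_sup_left : F ≤ F ⊔ ℚ⟮y⟯) h5
          · right
            exact h5
    · have hl := hX i _ (h3 i) m hm
      have hlpos := hXpos i _ hl
      refine ⟨F, hF, h1, h2, Function.update n i (Nat.lcm (n i) m), ?_, ?_⟩
      · intro j
        by_cases hji : j = i
        · subst hji
          rw [Function.update_self]
          exact hl
        · rw [Function.update_of_ne hji]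
          exact h3 j
      · intro z hz
        rcases Finset.mem_insert.1 hz with h | h
        · right
          refine ⟨i, ?_⟩
          rw [Function.update_self, h, hy]
          exact hρ i m _ hlpos (Nat.dvd_lcm_right _ _)
        · rcases h4 z h with h5 | ⟨j, h5⟩
          · left
            exact h5
          · right
            refine ⟨j, ?_⟩
            by_cases hji : j = i
            · subst hji
              rw [Function.update_self]
              have hle : ℚ⟮ρ j (n j)⟯ ≤ ℚ⟮ρ j (Nat.lcm (n j) m)⟯ := by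
                rw [adjoin_simple_le_iff]
                exact hρ j _ _ hlpos (Nat.dvd_lcm_left _ _)
              exact hle h5
            · rw [Function.update_of_ne hji]
              exact h5

/-- a number field containing a finitely generated group -/
lemma exists_fd {Γ : Subgroup Qbˣ} (hΓ : Γ.FG) (B : IntermediateField ℚ Qb)
    (hB : ∀ g ∈ Γ, (g : Qb) ∈ B) : ∃ (F₀ : IntermediateField ℚ Qb) (_ : FiniteDimensional ℚ F₀),
      F₀ ≤ B ∧ ∀ g ∈ Γ, (g : Qb) ∈ F₀ := by
  obtain ⟨S, hS⟩ := id hΓ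
  set T : Set Qb := (fun u : Qbˣ => (u : Qb)) '' (S : Set Qbˣ) with hT
  have hTf : Finite T := (S.finite_toSet.image _)
  have hTfd : FiniteDimensional ℚ (IntermediateField.adjoin ℚ T) :=
    IntermediateField.finiteDimensional_adjoin fun x _ => Pool.Agent.H58P.qb_isIntegral x
  refine ⟨IntermediateField.adjoin ℚ T, hTfd, ?_, ?_⟩
  · rw [adjoin_le_iff]
    rintro _ ⟨u, hu, rfl⟩
    apply hB
    rw [← hS]
    exact Subgroup.subset_closure hu
  · intro g hg
    rw [← hS] at hg
    induction hg using Subgroup.closure_induction with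
    | mem x hx => exact IntermediateField.subset_adjoin _ _ ⟨x, hx, rfl⟩
    | one => exact one_mem _
    | mul x y _ _ hx hy => rw [Units.val_mul]; exact mul_mem hx hy
    | inv x _ hx => rw [Units.val_inv_eq_inv_val]; exact inv_mem hx

end Pool.Agent.Y730.RF
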