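import Mathlib
import Pool.Agent.Y730.RF.Asm

/-!
# Cyclotomic fields are unramified outside the order of the roots of unity
-/

set_option autoImplicit false

open NumberField Module Polynomial IntermediateField Height

namespace Pool.Agent.Y730.RF

open Pool.Agent.H58P (Qb ht)

/-- finitely many roots of unity -/
lemma common_order {S : Set ℕ} (T : Finset Qb)
    (hT : ∀ y ∈ T, ∃ m : ℕ, (0 < m ∧ ∀ p : ℕ, p.Prime → p ∣ m → p ∈ S) ∧ y ^ m = 1) :
    ∃ m : ℕ, (0 < m ∧ ∀ p : ℕ, p.Prime → p ∣ m → p ∈ S) ∧ ∀ y ∈ T, y ^ m = 1 := by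
  classical
  induction T using Finset.induction_on with
  | empty =>
    exact ⟨1, ⟨one_pos, fun p hp h => absurd (Nat.dvd_one.1 h) hp.one_lt.ne'⟩,
      fun y hy => absurd hy (Finset.notMem_empty y)⟩
  | insert y T _ ih =>
    obtain ⟨m, ⟨hm, h1⟩, h2⟩ := ih (fun z hz => hT z (Finset.mem_insert_of_mem hz))
    obtain ⟨l, ⟨hl, h3⟩, h4⟩ := hT y (Finset.mem_insert_self y T)
    refine ⟨m * l, ⟨Nat.mul_pos hm hl, fun p hp h => ?_⟩, fun z hz => ?_⟩
    · rcases (hp.dvd_mul).1 h with h | h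
      · exact h1 p hp h
      · exact h3 p hp h
    · rcases Finset.mem_insert.1 hz with h | h
      · rw [h, mul_comm, pow_mul, h4, one_pow]
      · rw [pow_mul, h2 z h, one_pow]

lemma exists_gen (F : IntermediateField ℚ Qb) (hfd : FiniteDimensional ℚ F) :
    ∃ x : Qb, x ∈ F ∧ F = ℚ⟮x⟯ := by
  obtain ⟨x, hx⟩ := @Field.exists_primitive_element ℚ F _ _ F.algebra' hfd _
  refine ⟨(x : Qb), x.2, ?_⟩
  have h1 := congrArg (IntermediateField.lift (F := F)) hx
  rw [lift_top, IntermediateField.lift_adjoin_simple] at h1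
  exact h1.symm

/-- number fields generated by roots of unity of order composed of the primes in `S` are unramified
outside `S` -/
theorem cyc_unram {S : Set ℕ} {F : IntermediateField ℚ Qb} [hF : NumberField F]
    (hFle : F ≤ IntermediateField.adjoin ℚ
      {y : Qb | ∃ m : ℕ, (0 < m ∧ ∀ p : ℕ, p.Prime → p ∣ m → p ∈ S) ∧ y ^ m = 1})
    {q : ℕ} (hq : q.Prime) (h : (q : ℤ) ∣ discr F) : q ∈ S := by
  have hfd : FiniteDimensional ℚ F := NumberField.to_finiteDimensional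
  obtain ⟨x, hx, hFx⟩ := exists_gen F hfd
  have hxmem := hFle hx
  obtain ⟨T, hT, hxT⟩ := exists_finset_of_mem_adjoin hxmem
  obtain ⟨m, ⟨hm, hmS⟩, hTm⟩ := common_order (S := S) T (fun y hy => hT hy)
  obtain ⟨ζ, hζ⟩ := exists_prim m hm
  have : NeZero m := ⟨hm.ne'⟩
  have hle : F ≤ ℚ⟮ζ⟯ := by
    rw [hFx, adjoin_simple_le_iff]
    have h1 : IntermediateField.adjoin ℚ (↑T : Set Qb) ≤ ℚ⟮ζ⟯ := by
      rw [adjoin_le_iff]
      intro y hy
      obtain ⟨i, -, hi⟩ := hζ.eq_pow_of_pow_eq_one (hTm y hy)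
      rw [← hi]
      exact pow_mem (mem_adjoin_simple_self ℚ ζ) i
    exact h1 hxT
  let _ : Algebra F ℚ⟮ζ⟯ := (IntermediateField.inclusion hle).toRingHom.toAlgebra
  have h1 : discr F ∣ discr ↥ℚ⟮ζ⟯ := NumberField.discr_dvd_discr (K := F) ↥ℚ⟮ζ⟯
  exact hmS q hq (cyc_disc hm hζ hq (h.trans h1))

end Pool.Agent.Y730.RF
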